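import Pool.Agent.P.MP_af0fcb_gt.CG.TM

/-! The action on the plane and its invariant family of bumps. -/

namespace Pool.Agent.P.MP_af0fcb_gt.CG

open Set Filter Topology SW

/-- The index set of the arcs and its coding by a commutative group. -/
structure Idx {H ι : Type} [Group H] [AddCommGroup ι] (ε a : H → ℝ) (W : Set UnitAddCircle)
    (K : UnitAddCircle → ι) (α : H → ι) : Prop where
  inv : ∀ h (x : ℝ), ((ε h * x + a h : ℝ) : UnitAddCircle) ∈ W ↔ (x : UnitAddCircle) ∈ W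
  free : ∀ h (x : ℝ), (x : UnitAddCircle) ∈ W → ((ε h * x + a h : ℝ) : UnitAddCircle) = x → h = 1
  key : ∀ h (x : ℝ), (x : UnitAddCircle) ∈ W →
    K (ε h * x + a h : ℝ) = K x + α h ∨ K (ε h * x + a h : ℝ) = K x + -α h
  fin : Tendsto (fun w : W => K w) cofinite cofinite

variable {H ι : Type} [Group H] [AddCommGroup ι] {ε a : H → ℝ} {W : Set UnitAddCircle}
  {K : UnitAddCircle → ι} {α : H → ι} {M ρ : ℝ → ℝ}

theorem Aff.eone (A : Aff ε a) : ε 1 = 1 := by
  have h := A.emul 1 1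
  rwa [mul_one, sgn_sq (A.sgn 1)] at h

theorem Aff.aone (A : Aff ε a) : ∃ n : ℤ, a 1 = 0 + n := by
  obtain ⟨n, h⟩ := A.amul 1 1
  rw [mul_one, A.eone] at h
  exact ⟨-n, by push_cast; linarith⟩

theorem exists_act (A : Aff ε a) (I : Idx ε a W K α) : ∃ _ : MulAction H W,
    ∀ (h : H) (w : W) (x : ℝ), (x : UnitAddCircle) = w →
      ((h • w : W) : UnitAddCircle) = (ε h * x + a h : ℝ) := by
  let s : H → W → W := fun h w => ⟨(ε h * lift w + a h : ℝ), (I.inv h _).2 (by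
    rw [coe_lift]; exact w.2)⟩
  have hs : ∀ h (w : W) (x : ℝ), (x : UnitAddCircle) = w →
      (s h w : UnitAddCircle) = (ε h * x + a h : ℝ) := fun h w x hx =>
    coe_aff (A.sgn h) _ ((coe_lift _).trans hx.symm)
  refine ⟨{ smul := s, one_smul := fun w => Subtype.ext ?_, mul_smul := fun g h w =>
    Subtype.ext ?_ }, hs⟩
  · obtain ⟨n, hn⟩ := A.amul g h
    refine (hs (g * h) w _ (coe_lift _)).trans ((hs g (s h w) _ rfl).trans ?_).symm
    exact (coe_iff _ _).2 ⟨-n, by rw [hn, A.emul]; push_cast; ring⟩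
  · obtain ⟨n, hn⟩ := A.aone
    refine (hs 1 w _ (coe_lift _)).trans ?_
    rw [A.eone, hn, one_mul, zero_add, coe_int, coe_lift]

theorem ang_pt (hP : S_POL) {r : ℝ} (hr : 0 < r) (u : ℝ) : ∃ n : ℤ, ang (r • E u) = u + n := by
  have h := hP.2.2.1 (r • E u)
  rw [norm_smul, hP.2.1, mul_one, Real.norm_of_nonneg hr.le] at h
  exact (hP.2.2.2.1 _ _).1 (smul_right_injective ℂ hr.ne' h)

theorem E_int (hP : S_POL) (u : ℝ) (n : ℤ) : E (u + n) = E u := (hP.2.2.2.1 _ _).2 ⟨n, rfl⟩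

theorem hinv (d : Den W M ρ) (I : Idx ε a W K α) (h : H) (x : ℝ) :
    0 < ρ (ε h * x + a h) ↔ 0 < ρ x := by rw [d.pos, d.pos, I.inv]

open Classical in
/-- The potential of the cocycle. -/
noncomputable def pot (d : Den W M ρ) (K : UnitAddCircle → ι) (σ : ι → ℝ → ℝ) (u : ℝ) : ℝ :=
  if (d.P u : UnitAddCircle) ∈ W then σ (K (d.P u)) (1 - |d.Y u|) else 0

omit [AddCommGroup ι] in
theorem pot_int (d : Den W M ρ) (σ : ι → ℝ → ℝ) (u : ℝ) (n : ℤ) :
    pot d K σ (u + n) = pot d K σ u := by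
  rw [pot, pot, d.P_int, d.Y_int, coe_int]

omit [AddCommGroup ι] in
theorem pot_eq (d : Den W M ρ) (σ : ι → ℝ → ℝ) (w : W) {u : ℝ}
    (h : (d.P u : UnitAddCircle) = w) : pot d K σ u = σ (K w) (d.bump w u) := by
  rw [pot, h, if_pos w.2, d.bump_eq w.2 h]

section

variable (d : Den W M ρ) (A : Aff ε a) (I : Idx ε a W K α) [MulAction H W]
  (hs : ∀ (h : H) (w : W) (x : ℝ), (x : UnitAddCircle) = w →
    ((h • w : W) : UnitAddCircle) = (ε h * x + a h : ℝ))

include A hs in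
theorem P_act (h : H) (w : W) {u : ℝ} (hu : (d.P u : UnitAddCircle) = w) :
    (d.P (d.T (ε h) (a h) u) : UnitAddCircle) = (h • w : W) := by
  rw [d.P_T (A.sgn h), hs h w _ hu]

include A I hs in
theorem bump_act (h : H) (w : W) (u : ℝ) :
    d.bump (h • w : W) (d.T (ε h) (a h) u) = d.bump w u := by
  by_cases hu : (d.P u : UnitAddCircle) = w
  · rw [d.bump_eq w.2 hu, d.bump_eq (h • w).2 (P_act d A hs h w hu),
      d.Y_T (A.sgn h) (hinv d I h), sgn_abs (A.sgn h)]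
  · rw [d.bump_zero fun b => hu (d.bump_pos w.2 b), d.bump_zero fun b => hu ?_]
    have c := d.bump_pos (h • w).2 b
    have m : (d.P u : UnitAddCircle) ∈ W := by
      rw [← I.inv h, ← d.P_T (A.sgn h), c]
      exact (h • w).2
    have e := (P_act d A hs h ⟨_, m⟩ rfl).symm.trans c
    exact congrArg Subtype.val (MulAction.injective h (Subtype.ext e))

include A I hs in
theorem co_cont (hGL : S_GL) {σ : ι → ℝ → ℝ} (s1 : ∀ x, Continuous (σ x)) (s2 : ∀ x, σ x 0 = 0)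
    (s3 : ∀ (a : ι) (η : ℝ), 0 < η → ∀ᶠ x in cofinite, ∀ t, 0 ≤ t → t ≤ 1 →
      |σ (x + a) t - σ x t| ≤ η) (h : H) :
    Continuous fun u => pot d K σ (d.T (ε h) (a h) u) - pot d K σ u := by
  have val : ∀ (w : W) u, (d.P u : UnitAddCircle) = w →
      pot d K σ (d.T (ε h) (a h) u) - pot d K σ u =
        σ (K (h • w : W)) (d.bump w u) - σ (K w) (d.bump w u) := fun w u hu => by
    rw [pot_eq d σ w hu, pot_eq d σ _ (P_act d A hs h w hu), bump_act d A I hs]
  refine hGL ℝ ℝ W (fun w => {u | 0 < d.bump w u})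
    (fun w u => σ (K (h • w : W)) (d.bump w u) - σ (K w) (d.bump w u)) _
    (fun w w' u b c => Subtype.ext ((d.bump_pos w.2 b).symm.trans (d.bump_pos w'.2 c)))
    (fun w => ((s1 _).comp (d.bump_cont _)).sub ((s1 _).comp (d.bump_cont _)))
    (fun w u b => by rw [d.bump_zero b, s2, s2, sub_self])
    (fun w u b => val w u (d.bump_pos w.2 b)) (fun u b => ?_) fun δ hδ u => ⟨univ, univ_mem, ?_⟩
  · by_cases m : (d.P u : UnitAddCircle) ∈ W
    · rw [val ⟨_, m⟩ u rfl, d.bump_zero (b ⟨_, m⟩), s2, s2, sub_self]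
    · rw [pot, pot, if_neg m, if_neg (by rwa [d.P_T (A.sgn h), I.inv]), sub_self]
  · filter_upwards [I.fin.eventually (s3 (α h) δ hδ), I.fin.eventually (s3 (-α h) δ hδ)]
      with w b c z _
    rw [hs h w _ (coe_lift _), Real.norm_eq_abs]
    rcases I.key h (lift w) (by rw [coe_lift]; exact w.2) with e | e <;> rw [e, coe_lift]
    · exact b _ (d.bump_nn _ _) (d.bump_le w.2 _)
    · exact c _ (d.bump_nn _ _) (d.bump_le w.2 _)

include A I hs in
theorem exists_plane (hGL : S_GL) (hP : S_POL) {σ : ι → ℝ → ℝ} (s1 : ∀ x, Continuous (σ x))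
    (s2 : ∀ x, σ x 0 = 0) (s3 : ∀ (a : ι) (η : ℝ), 0 < η → ∀ᶠ x in cofinite, ∀ t, 0 ≤ t → t ≤ 1 →
      |σ (x + a) t - σ x t| ≤ η) : ∃ γ : Act H ℂ, ∀ (h : H) (r u : ℝ), 0 ≤ r →
        γ h (r • E u) = (r * Real.exp (pot d K σ (d.T (ε h) (a h) u) - pot d K σ u)) •
          E (d.T (ε h) (a h) u) := by
  let k : H → ℝ → ℂ := fun h u =>
    Real.exp (pot d K σ (d.T (ε h) (a h) u) - pot d K σ u) • E (d.T (ε h) (a h) u)
  have kp : ∀ h u (n : ℤ), k h (u + n) = k h u := fun h u n => by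
    obtain ⟨m, hm⟩ := d.T_per (A.sgn h) (a h) u n
    simp only [k, hm, pot_int, E_int hP]
  have kc : ∀ h, Continuous (k h) := fun h =>
    (Real.continuous_exp.comp (co_cont d A I hs hGL s1 s2 s3 h)).smul
      (hP.1.comp (d.T_cont (A.sgn h) (hinv d I h)))
  have g0 : ∀ (h : H) (r u : ℝ), 0 ≤ r → ‖r • E u‖ • k h (ang (r • E u)) =
      (r * Real.exp (pot d K σ (d.T (ε h) (a h) u) - pot d K σ u)) • E (d.T (ε h) (a h) u) := by
    intro h r u hr
    rcases hr.eq_or_lt with rfl | hr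
    · simp
    · obtain ⟨n, hn⟩ := ang_pt hP hr u
      rw [hn, kp, norm_smul, hP.2.1, mul_one, Real.norm_of_nonneg hr.le, smul_smul]
  refine ⟨mkAct (fun h z => ‖z‖ • k h (ang z))
    (fun h => hP.2.2.2.2.2.1 _ (kc h) fun u => by simpa using kp h u 1) (fun z => ?_)
    (fun g h z => ?_), g0⟩
  · obtain ⟨n, hn⟩ := A.aone
    simp only [k, A.eone, hn, d.T_int, d.T_one, pot_int, E_int hP, sub_self, Real.exp_zero,
      one_smul, hP.2.2.1]
  · obtain ⟨n, hn⟩ := A.amul g h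
    have e : ‖z‖ • k h (ang z) = _ := smul_smul _ _ _
    rw [e, g0 g _ _ (by positivity), d.T_T (A.sgn h) (hinv d I h), mul_assoc, ← Real.exp_add]
    simp only [k, hn, A.emul, d.T_int, pot_int, E_int hP, smul_smul]
    congr 3
    ring

include A I hs in
theorem exists_bumps (hP : S_POL) {σ : ι → ℝ → ℝ} {L : ι → ℝ} (s1 : ∀ x, Continuous (σ x))
    (s4 : ∀ x, 0 ≤ L x) (s5 : ∀ x t, 0 ≤ t → L x * t ≤ σ x t) (s6 : Tendsto L cofinite atTop)
    (γ : Act H ℂ) (hγ : ∀ (h : H) (r u : ℝ), 0 ≤ r →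
      γ h (r • E u) = (r * Real.exp (pot d K σ (d.T (ε h) (a h) u) - pot d K σ u)) •
        E (d.T (ε h) (a h) u)) :
    ∃ G : W → ℂ → ℝ, (∀ w, Continuous (G w)) ∧ (∀ w y, 0 ≤ G w y) ∧
      (∀ (w : W) (r u : ℝ), 0 ≤ r → (0 < G w (r • E u) ↔ 0 < r ∧ 0 < d.bump w u)) ∧
      (∀ (h : H) w y, G (h • w) (γ h y) = G w y) ∧
      ∀ δ : ℝ, 0 < δ → ∀ y, ∃ N ∈ 𝓝 y, ∀ᶠ w in cofinite, ∀ z ∈ N, G w z ≤ δ := by
  let G : W → ℂ → ℝ := fun w z =>
    min (d.bump w (ang z)) (‖z‖ * Real.exp (-σ (K w) (d.bump w (ang z))))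
  have nn : ∀ w y, 0 ≤ G w y := fun w y => le_min (d.bump_nn _ _) (by positivity)
  have le : ∀ w y, G w y ≤ ‖y‖ := fun w y => (min_le_right _ _).trans
    (mul_le_of_le_one_right (norm_nonneg _) (Real.exp_le_one_iff.2 (by
      linarith [s5 (K w) _ (d.bump_nn w (ang y)), mul_nonneg (s4 (K w)) (d.bump_nn w (ang y))])))
  have g0 : ∀ w, G w 0 = 0 := fun w => le_antisymm ((le w 0).trans_eq norm_zero) (nn w 0)
  have val : ∀ (w : W) r u, 0 < r → G w (r • E u) =
      min (d.bump w u) (r * Real.exp (-σ (K w) (d.bump w u))) := fun w r u hr => by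
    obtain ⟨n, hn⟩ := ang_pt hP hr u
    simp only [G, hn, d.bump_int, norm_smul, hP.2.1, mul_one, Real.norm_of_nonneg hr.le]
  refine ⟨G, fun w => continuous_iff_continuousAt.2 fun z => ?_, nn, fun w r u hr => ?_,
    fun h w y => ?_, fun δ hδ y => ?_⟩
  · by_cases hz : z = 0
    · rw [hz, ContinuousAt, g0]
      exact squeeze_zero (nn w) (le w) (by simpa using continuous_norm.tendsto (0 : ℂ))
    · have c := hP.2.2.2.2.1 ℝ _ (d.bump_cont w) (fun u => by simpa using d.bump_int w u 1) z hz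
      exact c.min (continuous_norm.continuousAt.mul
        (Real.continuous_exp.continuousAt.comp ((s1 _).continuousAt.comp c).neg))
  · rcases hr.eq_or_lt with rfl | hr
    · simp [g0]
    · rw [val w r u hr, lt_min_iff]
      exact ⟨fun b => ⟨hr, b.1⟩, fun b => ⟨b.2, by positivity⟩⟩
  · by_cases hy : y = 0
    · have z := hγ h 0 0 le_rfl
      rw [zero_mul, zero_smul, zero_smul] at z
      rw [hy, z, g0, g0]
    have p := norm_pos_iff.2 hy
    rw [← hP.2.2.1 y, hγ h _ _ p.le, val _ _ _ p, val _ _ _ (by positivity), bump_act d A I hs]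
    by_cases b : 0 < d.bump w (ang y)
    · have c := d.bump_pos w.2 b
      rw [pot_eq d σ w c, pot_eq d σ _ (P_act d A hs h w c), bump_act d A I hs, mul_assoc,
        ← Real.exp_add]
      congr 3
      ring
    · rw [d.bump_zero b, min_eq_left (by positivity), min_eq_left (by positivity)]
  · refine ⟨Metric.ball 0 (‖y‖ + 1), Metric.isOpen_ball.mem_nhds (by simp), ?_⟩
    filter_upwards [(s6.comp I.fin).eventually_ge_atTop ((‖y‖ + 1) / δ / δ)] with w hw z hz
    rcases le_or_gt (d.bump w (ang z)) δ with b | b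
    · exact (min_le_left _ _).trans b
    · refine (min_le_right _ _).trans ?_
      have h1 : (‖y‖ + 1) / δ ≤ L (K w) * δ := (div_le_iff₀ hδ).1 hw
      have h2 := mul_le_mul_of_nonneg_left b.le (s4 (K w))
      have h3 := s5 (K w) _ (d.bump_nn w (ang z))
      have h4 := Real.add_one_le_exp (σ (K w) (d.bump w (ang z)))
      have h5 : (‖y‖ + 1) / δ ≤ Real.exp (σ (K w) (d.bump w (ang z))) := by linarith
      rw [Real.exp_neg, ← div_eq_mul_inv, div_le_iff₀ (Real.exp_pos _)]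
      rw [div_le_iff₀ hδ] at h5
      linarith [mem_ball_zero_iff.1 hz]

end

end Pool.Agent.P.MP_af0fcb_gt.CG
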