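import Pool.Agent.P.MP_af0fcb_gt.CG.Defs2

/-! Continuity over the axes. -/

namespace Pool.Agent.P.MP_af0fcb_gt.CG

open Set Filter Topology

namespace AXEx

lemma lg {p : ℝ × ℝ} {f : ℝ × ℝ → ℝ} (hf : Continuous f) (h : f p = 0)
    (h' : ∀ y : ℝ × ℝ, f y = 0 → y.1 * y.2 = 0) :
    Tendsto (fun y => Real.log (f y)) (𝓝 p ⊓ 𝓟 {y | ¬ y.1 * y.2 = 0}) atBot :=
  Real.tendsto_log_nhdsNE_zero.comp (tendsto_nhdsWithin_iff.2
    ⟨(h ▸ hf.tendsto p).mono_left inf_le_left,
      eventually_inf_principal.2 (Eventually.of_forall fun y hy e => hy (h' y e))⟩)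

lemma cont {r : ℝ → ℝ} (hc : Continuous r) (hr : Tendsto r (cocompact ℝ) (𝓝 0)) {p : ℝ × ℝ}
    (hp : p ≠ 0) : ContinuousAt (axe r) p := by
  have l1 : p.1 ≠ 0 → ContinuousAt (fun y : ℝ × ℝ => Real.log y.1) p := fun h =>
    continuousAt_fst.log h
  have l2 : p.2 ≠ 0 → ContinuousAt (fun y : ℝ × ℝ => Real.log y.2) p := fun h =>
    continuousAt_snd.log h
  by_cases h : p.1 * p.2 = 0
  · rw [ContinuousAt, show axe r p = 0 from if_pos h]
    refine Tendsto.if tendsto_const_nhds (hr.comp ?_)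
    by_cases h1 : p.1 = 0
    · exact (((lg continuous_fst h1 fun y e => by simp [e]).atBot_add
        ((l2 fun e => hp (Prod.ext h1 e)).neg.tendsto.mono_left inf_le_left)).atBot_div_const
          two_pos).mono_right atBot_le_cocompact
    · exact ((((l1 h1).tendsto.mono_left inf_le_left).add_atTop (tendsto_neg_atBot_atTop.comp
        (lg continuous_snd ((mul_eq_zero.1 h).resolve_left h1) fun y e => by
          simp [e]))).atTop_div_const two_pos).mono_right atTop_le_cocompact
  · refine (hc.continuousAt.comp (((l1 (left_ne_zero_of_mul h)).sub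
      (l2 (right_ne_zero_of_mul h))).div_const 2)).congr ?_
    filter_upwards [(continuous_fst.mul continuous_snd).continuousAt.eventually_ne h] with y hy
    exact (if_neg hy).symm

lemma main {r : ℝ → ℝ} (hc : Continuous r) (hr : Tendsto r (cocompact ℝ) (𝓝 0))
    {f : ℝ × ℝ → ℝ} (hf : Continuous f) (h0 : f 0 = 0) :
    Continuous fun p => f p * Real.exp (axe r p) := by
  refine continuous_iff_continuousAt.2 fun p => ?_
  rcases ne_or_eq p 0 with hp | rfl
  · exact hf.continuousAt.mul (cont hc hr hp).rexp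
  obtain ⟨K, hK, h⟩ := mem_cocompact.1 (hr.eventually (Iio_mem_nhds one_pos))
  obtain ⟨M, hM⟩ := hK.bddAbove_image hc.continuousOn
  rw [ContinuousAt, h0, zero_mul]
  refine (h0 ▸ hf.tendsto 0).zero_mul_isBoundedUnder_le
    (isBoundedUnder_of ⟨Real.exp (max 1 M), fun y => ?_⟩)
  rw [Function.comp, Real.norm_of_nonneg (Real.exp_pos _).le, Real.exp_le_exp, axe]
  split_ifs
  · exact le_max_of_le_left zero_le_one
  · by_cases e : slope2 y ∈ K
    exacts [le_max_of_le_right (hM ⟨_, e, rfl⟩), le_max_of_le_left (le_of_lt (h e))]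

end AXEx

theorem p_AXE : S_AXE := fun _ _ a b c d =>
  (AXEx.main a c continuous_fst rfl).prodMk (AXEx.main b d continuous_snd rfl)

end Pool.Agent.P.MP_af0fcb_gt.CG
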