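import Pool.Agent.P.MP_af0fcb_gt.CG.Defs3

/-! From the finite subgroups to the torsion subgroup, by compactness. -/

namespace Pool.Agent.P.MP_af0fcb_gt.CG

open Set

namespace CPTx

theorem circle_fin (m : ℕ) (hm : 0 < m) : {z : Circle | z ^ m = 1}.Finite := by
  have h1 : {w : ℂ | w ^ m = 1}.Finite := by
    refine (Polynomial.nthRoots m (1 : ℂ)).toFinset.finite_toSet.subset fun w hw => ?_
    simpa [Polynomial.mem_nthRoots hm] using hw
  refine (h1.preimage (f := fun z : Circle => (z : ℂ)) Subtype.val_injective.injOn).subset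
    fun z hz => ?_
  have hz' : z ^ m = 1 := hz
  show (z : ℂ) ^ m = 1
  rw [← Circle.coe_pow, hz', Circle.coe_one]

theorem target_fin (k j m : ℕ) (hm : 0 < m) :
    {z : (Fin k → Circle) × (Fin j → ℤˣ) | z ^ m = 1}.Finite := by
  have h1 : (Set.pi univ fun _ : Fin k => {z : Circle | z ^ m = 1}).Finite :=
    Set.Finite.pi fun _ => circle_fin m hm
  refine (h1.prod (Set.finite_univ (α := Fin j → ℤˣ))).subset fun z hz => ?_
  have hz' : z ^ m = 1 := hz
  refine ⟨fun i _ => ?_, mem_univ _⟩
  have := congrArg (fun w : (Fin k → Circle) × (Fin j → ℤˣ) => w.1 i) hz'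
  simpa using this

theorem core {H C : Type} [CommGroup H] [CommGroup C] [TopologicalSpace C] [CompactSpace C]
    [T2Space C] [ContinuousMul C] (hC : ∀ m : ℕ, 0 < m → {z : C | z ^ m = 1}.Finite)
    (hH : ∀ K : Subgroup H, Finite K → ∃ ψ : K →* C, Function.Injective ψ) :
    ∃ ψ : CommGroup.torsion H →* C, Function.Injective ψ := by
  classical
  obtain ⟨f, -, h2⟩ := (isCompact_univ (X := CommGroup.torsion H → C)).inter_iInter_nonempty
    (fun p : CommGroup.torsion H × CommGroup.torsion H =>
      {f : CommGroup.torsion H → C | f (p.1 * p.2) = f p.1 * f p.2} ∩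
        {f | p.1 ≠ 1 → f p.1 ∈ ({z : C | z ^ orderOf (p.1 : H) = 1} \ {1})})
    (fun p => by
      refine (isClosed_eq (by fun_prop) (by fun_prop)).inter ?_
      by_cases hp : p.1 = 1
      · simp [hp]
      · simp only [ne_eq, hp, not_false_eq_true, forall_const]
        exact IsClosed.preimage (f := fun f : CommGroup.torsion H → C => f p.1)
          (continuous_apply p.1)
          (hC _ (IsOfFinOrder.orderOf_pos p.1.2)).sdiff.isClosed)
    (fun u => by
      let S : Finset H := u.image (fun p => (p.1 : H)) ∪ u.image (fun p => (p.2 : H))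
      let K := Subgroup.closure (S : Set H)
      have hle : K ≤ CommGroup.torsion H := (Subgroup.closure_le _).2 fun x hx => by
        rcases Finset.mem_union.1 hx with hx | hx
        · obtain ⟨t, -, rfl⟩ := Finset.mem_image.1 hx
          exact t.1.2
        · obtain ⟨t, -, rfl⟩ := Finset.mem_image.1 hx
          exact t.2.2
      have : Finite K := CommGroup.finite_of_fg_isMulTorsion K fun g =>
        K.subtype_injective.isOfFinOrder_iff.1 (hle g.2)
      obtain ⟨ψ, hψ⟩ := hH K this
      refine ⟨fun x => if hx : (x : H) ∈ K then ψ ⟨x, hx⟩ else 1, mem_univ _, ?_⟩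
      simp only [mem_iInter]
      intro p hp
      have h1 : (p.1 : H) ∈ K := Subgroup.subset_closure
        (Finset.mem_union_left _ (Finset.mem_image_of_mem _ hp))
      have h2 : (p.2 : H) ∈ K := Subgroup.subset_closure
        (Finset.mem_union_right _ (Finset.mem_image_of_mem _ hp))
      have h3 : ((p.1 * p.2 : CommGroup.torsion H) : H) ∈ K := K.mul_mem h1 h2
      refine ⟨?_, fun hne => ⟨?_, ?_⟩⟩
      · show (if hx : ((p.1 * p.2 : CommGroup.torsion H) : H) ∈ K then ψ ⟨_, hx⟩ else 1) =
          (if hx : (p.1 : H) ∈ K then ψ ⟨_, hx⟩ else 1) *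
            (if hx : (p.2 : H) ∈ K then ψ ⟨_, hx⟩ else 1)
        rw [dif_pos h1, dif_pos h2, dif_pos h3, ← map_mul]
        rfl
      · show (if hx : (p.1 : H) ∈ K then ψ ⟨_, hx⟩ else 1) ^ orderOf (p.1 : H) = 1
        rw [dif_pos h1, ← map_pow]
        have : (⟨p.1, h1⟩ : K) ^ orderOf (p.1 : H) = 1 :=
          Subtype.ext (pow_orderOf_eq_one (p.1 : H))
        rw [this, map_one]
      · show ¬ (if hx : (p.1 : H) ∈ K then ψ ⟨_, hx⟩ else 1) = 1
        rw [dif_pos h1, map_eq_one_iff ψ hψ]
        intro h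
        have h' : (p.1 : H) = 1 := congrArg Subtype.val h
        exact hne (Subtype.ext h'))
  simp only [mem_iInter] at h2
  refine ⟨MonoidHom.mk' f fun a b => (h2 (a, b)).1, (injective_iff_map_eq_one _).2 fun a ha => ?_⟩
  by_contra hne
  exact ((h2 (a, a)).2 hne).2 ha

end CPTx

theorem p_CPT : S_CPT := fun k j _ _ hH => CPTx.core (CPTx.target_fin k j) hH

end Pool.Agent.P.MP_af0fcb_gt.CG
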