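import Pool.Agent.P.MP_af0fcb_gt.CG.Defs

/-! The Denjoy blow-up. -/

namespace Pool.Agent.P.MP_af0fcb_gt.CG

open Set Filter Topology

namespace DENx

variable {ι : Type} {l r : ι → ℝ}

theorem bd (hr : ∀ w, r w ∈ Ico (0 : ℝ) 1) (hl : ∀ w, 0 < l w) {a : ℝ → ℝ}
    (ha : ∀ t, |a t - t| ≤ 1) {x B : ℝ} (hx : |x| ≤ B) (w : ι) :
    ‖l w * a (x - r w)‖ ≤ l w * (B + 2) := by
  rw [Real.norm_eq_abs, abs_mul, abs_of_pos (hl w)]
  refine mul_le_mul_of_nonneg_left ?_ (hl w).le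
  have h1 := abs_le.1 (ha (x - r w))
  have h2 := abs_le.1 hx
  have h3 := hr w
  exact abs_le.2 ⟨by linarith [h3.2], by linarith [h3.1]⟩

theorem sm (hr : ∀ w, r w ∈ Ico (0 : ℝ) 1) (hl : ∀ w, 0 < l w) (hs : Summable l) {a : ℝ → ℝ}
    (ha : ∀ t, |a t - t| ≤ 1) (x : ℝ) : Summable fun w => l w * a (x - r w) :=
  Summable.of_norm_bounded (hs.mul_right (|x| + 2)) (bd hr hl ha le_rfl)

theorem cont (hr : ∀ w, r w ∈ Ico (0 : ℝ) 1) (hl : ∀ w, 0 < l w) (hs : Summable l) {a : ℝ → ℝ}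
    (ha : ∀ t, |a t - t| ≤ 1) (lam x : ℝ) (𝓕 : Filter ℝ) (h1 : 𝓕 ≤ 𝓝 x)
    (h2 : ∀ w, Tendsto (fun y => a (y - r w)) 𝓕 (𝓝 (a (x - r w)))) :
    Tendsto (fun y => lam * y + ∑' w, l w * a (y - r w)) 𝓕
      (𝓝 (lam * x + ∑' w, l w * a (x - r w))) := by
  refine Tendsto.add ((tendsto_id'.2 h1).const_mul lam) ?_
  refine tendsto_tsum_of_dominated_convergence (hs.mul_right (|x| + 1 + 2))
    (fun w => (h2 w).const_mul (l w)) ?_
  have h3 : ∀ᶠ y in 𝓝 x, |y| ≤ |x| + 1 :=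
    (continuous_abs.tendsto x).eventually (Iic_mem_nhds (by linarith))
  exact (h3.filter_mono h1).mono fun y hy => bd hr hl ha hy

theorem per (hr : ∀ w, r w ∈ Ico (0 : ℝ) 1) (hl : ∀ w, 0 < l w) {c : ℝ} (hs : HasSum l c)
    {a : ℝ → ℝ} (ha : ∀ t, |a t - t| ≤ 1) (hp : ∀ t (n : ℤ), a (t + n) = a t + n) (x : ℝ)
    (n : ℤ) : (1 - c) * (x + n) + ∑' w, l w * a (x + n - r w)
      = (1 - c) * x + ∑' w, l w * a (x - r w) + n := by
  have h1 : ∀ w, l w * a (x + n - r w) = l w * a (x - r w) + l w * n := fun w => by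
    rw [add_sub_right_comm, hp, mul_add]
  simp only [h1]
  rw [(sm hr hl hs.summable ha x).tsum_add (hs.summable.mul_right _), tsum_mul_right, hs.tsum_eq]
  ring

theorem hc (t : ℝ) : |((⌈t⌉ : ℤ) : ℝ) - t| ≤ 1 :=
  abs_le.2 ⟨by linarith [Int.le_ceil t], by linarith [Int.ceil_lt_add_one t]⟩

theorem hf (t : ℝ) : |(((⌊t⌋ : ℤ) : ℝ) + 1) - t| ≤ 1 :=
  abs_le.2 ⟨by linarith [Int.lt_floor_add_one t], by linarith [Int.floor_le t]⟩

theorem jump (x s : ℝ) : (((⌊x - s⌋ : ℤ) : ℝ) + 1) - ((⌈x - s⌉ : ℤ) : ℝ) =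
    if (x : UnitAddCircle) = (s : UnitAddCircle) then 1 else 0 := by
  have h1 : (x : UnitAddCircle) = (s : UnitAddCircle) ↔ x - s ∈ range (Int.cast : ℤ → ℝ) := by
    rw [← sub_eq_zero, ← AddCircle.coe_sub, AddCircle.coe_eq_zero_iff]
    simp
  split_ifs with h
  · obtain ⟨n, hn⟩ := h1.1 h
    rw [← hn]; simp
  · rw [(Int.ceil_eq_floor_add_one_iff_notMem _).2 (mt h1.2 h)]; simp

end DENx

open DENx in
theorem p_DEN : S_DEN := by
  classical
  intro W hW
  have : Encodable W := hW.toEncodable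
  obtain ⟨l, hl, c, hs, hc2⟩ := posSumOfEncodable (ε := 1 / 2) (by norm_num) W
  choose r hr hrw using fun w : W => AddCircle.eq_coe_Ico (p := (1 : ℝ)) (w : UnitAddCircle)
  obtain ⟨F, hF⟩ : ∃ F : ℝ → ℝ, ∀ x, F x = (1 - c) * x + ∑' w, l w * ((⌈x - r w⌉ : ℤ) : ℝ) :=
    ⟨_, fun _ => rfl⟩
  obtain ⟨G, hG⟩ : ∃ G : ℝ → ℝ,
      ∀ x, G x = (1 - c) * x + ∑' w, l w * (((⌊x - r w⌋ : ℤ) : ℝ) + 1) := ⟨_, fun _ => rfl⟩
  have sF := sm (a := fun t => ((⌈t⌉ : ℤ) : ℝ)) hr hl hs.summable hc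
  have sG := sm (a := fun t => ((⌊t⌋ : ℤ) : ℝ) + 1) hr hl hs.summable hf
  have hd : ∀ x, G x - F x = if h : (x : UnitAddCircle) ∈ W then l ⟨x, h⟩ else 0 := by
    intro x
    have h1 : G x - F x = ∑' w : W, l w * if (x : UnitAddCircle) = w then 1 else 0 := by
      rw [hG, hF, add_sub_add_left_eq_sub, ← (sG x).tsum_sub (sF x)]
      refine tsum_congr fun w => ?_
      rw [← mul_sub, jump, hrw]
    rw [h1]
    split_ifs with h
    · rw [tsum_eq_single ⟨x, h⟩ fun w hw => by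
        rw [if_neg fun e => hw (Subtype.ext e.symm), mul_zero]]
      simp
    · have h2 : ∀ w : W, (l w * if (x : UnitAddCircle) = w then 1 else 0) = 0 := fun w => by
        rw [if_neg fun e : (x : UnitAddCircle) = w => h (e ▸ w.2), mul_zero]
      simp only [h2, tsum_zero]
  have hnn : ∀ x, F x ≤ G x := fun x => by
    rw [← sub_nonneg, hd]
    split_ifs with h
    · exact (hl _).le
    · exact le_rfl
  have hgap : ∀ x y, x < y → G x < F y := by
    intro x y hxy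
    rw [hG, hF]
    refine add_lt_add_of_lt_of_le (mul_lt_mul_of_pos_left hxy (by linarith))
      (Summable.tsum_le_tsum (fun w => ?_) (sG x) (sF y))
    refine mul_le_mul_of_nonneg_left ?_ (hl w).le
    have h1 := Int.floor_lt_ceil_of_lt (sub_lt_sub_right hxy (r w))
    exact_mod_cast h1
  have pF : ∀ x (n : ℤ), F (x + n) = F x + n := fun x n => by
    rw [hF, hF]
    exact per (a := fun t => ((⌈t⌉ : ℤ) : ℝ)) hr hl hs hc (fun t n => by simp) x n
  have pG : ∀ x (n : ℤ), G (x + n) = G x + n := fun x n => by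
    rw [hG, hG]
    exact per (a := fun t => ((⌊t⌋ : ℤ) : ℝ) + 1) hr hl hs hf
      (fun t n => by simp only [Int.floor_add_intCast, Int.cast_add]; ring) x n
  have mF : ∀ x y, x < y → F x < F y := fun x y h => (hnn x).trans_lt (hgap x y h)
  refine ⟨fun x => (F x + G x) / 2, fun x => (G x - F x) / 2, fun x => ?_, fun x => ?_,
    fun x y h => ?_, fun u => ?_, fun x n => ?_, fun x n => ?_, fun η hη => ?_⟩
  · linarith [hnn x]
  · rw [hd]
    split_ifs with h
    · exact iff_of_true (half_pos (hl _)) h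
    · exact iff_of_false (by simp) h
  · linarith [hgap x y h]
  · have hne : {x | F x ≤ u}.Nonempty := ⟨0 + (⌊u - F 0⌋ : ℤ), by
      change F _ ≤ u
      rw [pF]; linarith [Int.floor_le (u - F 0)]⟩
    have hbd : BddAbove {x | F x ≤ u} := ⟨0 + (⌈u - F 0⌉ : ℤ), fun x hx => by
      by_contra h
      have h1 := mF _ _ (not_le.1 h)
      have h2 : F x ≤ u := hx
      rw [pF] at h1
      linarith [Int.le_ceil (u - F 0)]⟩
    obtain ⟨x, hx⟩ : ∃ x, x = sSup {x | F x ≤ u} := ⟨_, rfl⟩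
    have h1 : F x ≤ u := by
      have h2 : Tendsto F (𝓝[<] x) (𝓝 (F x)) := by
        rw [hF, funext hF]
        refine cont (a := fun t => ((⌈t⌉ : ℤ) : ℝ)) hr hl hs.summable hc _ x _ nhdsWithin_le_nhds
          fun w => ?_
        have h3 : Tendsto (fun y => y - r w) (𝓝[<] x) (𝓝[≤] (x - r w)) :=
          tendsto_nhdsWithin_iff.2 ⟨((continuous_sub_right _).tendsto x).mono_left
            nhdsWithin_le_nhds, eventually_nhdsWithin_of_forall fun y hy =>
              mem_Iic.2 (sub_le_sub_right (mem_Iio.1 hy).le _)⟩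
        exact ((tendsto_pure_pure (fun n : ℤ => (n : ℝ)) _).comp
          ((tendsto_ceil_left_pure_ceil _).comp h3)).mono_right (pure_le_nhds _)
      refine le_of_tendsto h2 (eventually_nhdsWithin_of_forall fun y hy => ?_)
      obtain ⟨z, hz, hyz⟩ := exists_lt_of_lt_csSup hne (hx ▸ hy : y < sSup {x | F x ≤ u})
      exact (mF y z hyz).le.trans hz
    have h4 : u ≤ G x := by
      have h2 : Tendsto G (𝓝[>] x) (𝓝 (G x)) := by
        rw [hG, funext hG]
        refine cont (a := fun t => ((⌊t⌋ : ℤ) : ℝ) + 1) hr hl hs.summable hf _ x _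
          nhdsWithin_le_nhds fun w => ?_
        have h3 : Tendsto (fun y => y - r w) (𝓝[>] x) (𝓝[≥] (x - r w)) :=
          tendsto_nhdsWithin_iff.2 ⟨((continuous_sub_right _).tendsto x).mono_left
            nhdsWithin_le_nhds, eventually_nhdsWithin_of_forall fun y hy =>
              mem_Ici.2 (sub_le_sub_right (mem_Ioi.1 hy).le _)⟩
        exact ((tendsto_pure_pure (fun n : ℤ => (n : ℝ) + 1) _).comp
          ((tendsto_floor_right_pure_floor _).comp h3)).mono_right (pure_le_nhds _)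
      refine ge_of_tendsto h2 (eventually_nhdsWithin_of_forall fun y hy => ?_)
      by_contra h
      have h5 : y ≤ sSup {x | F x ≤ u} := le_csSup hbd ((hnn y).trans (not_le.1 h).le)
      exact absurd (hx ▸ h5 : y ≤ x) (not_le.2 hy)
    exact ⟨x, abs_le.2 ⟨by linarith, by linarith⟩⟩
  · rw [pF, pG]; ring
  · rw [pF, pG]; ring
  · have h1 : ∀ᶠ w in cofinite, l w < η :=
      hs.summable.tendsto_cofinite_zero.eventually (gt_mem_nhds hη)
    refine ((eventually_cofinite.1 h1).image Subtype.val).subset ?_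
    rintro _ ⟨x, rfl, hx⟩
    rw [hd] at hx
    split_ifs at hx with h
    · exact ⟨⟨x, h⟩, fun h2 => by linarith [hl ⟨x, h⟩], rfl⟩
    · linarith

end Pool.Agent.P.MP_af0fcb_gt.CG
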