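import Pool.Agent.P.MP_af0fcb_gt.CG.Defs3

/-! Finite commutative groups of orthogonal matrices split into rotations and signs. -/

namespace Pool.Agent.P.MP_af0fcb_gt.CG

open Finset

namespace DIAGx

variable {G : Type} [AddCommGroup G] [Fintype G] {n : ℕ}

/-- The characters that have an eigenvector. -/
def Eig (A : G → Matrix (Fin n) (Fin n) ℂ) (χ : AddChar G ℂ) : Prop :=
  ∃ v : Fin n → ℂ, v ≠ 0 ∧ ∀ g, (A g).mulVec v = χ g • v

theorem card_le (A : G → Matrix (Fin n) (Fin n) ℂ) (S : Finset (AddChar G ℂ))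
    (hS : ∀ χ ∈ S, Eig A χ) : S.card ≤ n := by
  classical
  choose v hv using fun χ : S => hS χ.1 χ.2
  have li : LinearIndependent ℂ v := by
    rw [Fintype.linearIndependent_iff]
    intro c hc χ
    have h1 := (AddChar.linearIndependent G ℂ).comp (fun χ : S => χ.1) Subtype.val_injective
    rw [Fintype.linearIndependent_iff] at h1
    by_contra hne
    refine (hv χ).1 (funext fun k => ?_)
    have h2 := h1 (fun χ => c χ * v χ k) (funext fun g => ?_) χ
    · exact (mul_eq_zero.1 h2).resolve_left hne
    · have h3 := congrArg (fun w => (A g).mulVec w k) hc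
      simp only [Matrix.mulVec_sum, Matrix.mulVec_smul, (hv _).2, Matrix.mulVec_zero,
        Finset.sum_apply, Pi.smul_apply, smul_eq_mul, Pi.zero_apply] at h3
      simp only [Finset.sum_apply, Pi.smul_apply, smul_eq_mul, Function.comp_apply, Pi.zero_apply]
      rw [← h3]
      exact Finset.sum_congr rfl fun _ _ => by ring
  simpa using li.fintype_card_le_finrank

theorem eig_neg (A : G → Matrix (Fin n) (Fin n) ℂ) (hA : ∀ g i j, star (A g i j) = A g i j)
    {χ : AddChar G ℂ} (h : Eig A χ) : Eig A (-χ) := by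
  obtain ⟨v, h0, h1⟩ := h
  refine ⟨star v, fun e => h0 (by simpa using congrArg star e), fun g => funext fun i => ?_⟩
  have h2 := congrArg star (congrFun (h1 g) i)
  simp only [Matrix.mulVec, dotProduct, star_sum, star_mul', hA, Pi.smul_apply,
    smul_eq_mul] at h2
  simp only [Matrix.mulVec, dotProduct, Pi.star_apply, Pi.smul_apply, smul_eq_mul,
    AddChar.neg_apply, AddChar.map_neg_eq_conj]
  exact h2

theorem sep (A : G → Matrix (Fin n) (Fin n) ℂ) (h0 : A 0 = 1)
    (hA : ∀ g h, A (g + h) = A g * A h) (g : G) (hg : ∀ χ, Eig A χ → χ g = 1) : A g = 1 := by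
  classical
  have key : ∀ u : Fin n → ℂ, (A g).mulVec u = u := by
    intro u
    let v : AddChar G ℂ → Fin n → ℂ := fun χ => ∑ h, χ (-h) • (A h).mulVec u
    have e1 : ∀ χ g', (A g').mulVec (v χ) = χ g' • v χ := by
      intro χ g'
      simp only [v, Matrix.mulVec_sum, Matrix.mulVec_smul, Matrix.mulVec_mulVec, ← hA,
        Finset.smul_sum, smul_smul, ← AddChar.map_add_eq_mul]
      refine Fintype.sum_equiv (Equiv.addLeft g') _ _ fun h => ?_
      simp only [Equiv.coe_addLeft]
      rw [show g' + -(g' + h) = -h by abel]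
    have e2 : ∀ χ, (A g).mulVec (v χ) = v χ := by
      intro χ
      by_cases h : v χ = 0
      · rw [h, Matrix.mulVec_zero]
      · rw [e1, hg χ ⟨_, h, e1 χ⟩, one_smul]
    have e3 : ∑ χ, v χ = (Fintype.card G : ℂ) • u := by
      simp only [v]
      rw [Finset.sum_comm]
      simp only [← Finset.sum_smul, AddChar.sum_apply_eq_ite, neg_eq_zero, ite_smul, zero_smul,
        Finset.sum_ite_eq', Finset.mem_univ, if_true, h0, Matrix.one_mulVec]
    have e4 : (A g).mulVec (∑ χ, v χ) = ∑ χ, v χ := by
      rw [Matrix.mulVec_sum]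
      exact Finset.sum_congr rfl fun χ _ => e2 χ
    rw [e3, Matrix.mulVec_smul] at e4
    exact smul_right_injective _ (Nat.cast_ne_zero.2 Fintype.card_ne_zero) e4
  ext i j
  have := congrFun (key (Pi.single j 1)) i
  rw [Matrix.mulVec_single_one] at this
  rw [Matrix.one_apply]
  simpa [Pi.single_apply] using this

theorem circ {K : Type} [CommGroup K] [Finite K] (χ : AddChar (Additive K) ℂ) :
    ∃ s : K →* Circle, ∀ g, s g = 1 → χ (Additive.ofMul g) = 1 := by
  refine ⟨MonoidHom.mk' (fun g => AddChar.circleEquivComplex.symm χ (Additive.ofMul g))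
    fun a b => by rw [ofMul_mul, AddChar.map_add_eq_mul], fun g h => ?_⟩
  exact congrArg (fun z : Circle => (z : ℂ)) h

theorem sgn {K : Type} [CommGroup K] (χ : AddChar (Additive K) ℂ) (h : -χ = χ) :
    ∃ s : K →* ℤˣ, ∀ g, s g = 1 → χ (Additive.ofMul g) = 1 := by
  classical
  have e : ∀ a, χ a = 1 ∨ χ a = -1 := fun a => by
    have h1 : χ a * χ a = 1 := by
      have := DFunLike.congr_fun h a
      rw [AddChar.neg_apply] at this
      nth_rewrite 1 [← this]
      rw [← AddChar.map_add_eq_mul, neg_add_cancel, AddChar.map_zero_eq_one]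
    exact mul_self_eq_one_iff.1 h1
  have m : (-1 : ℂ) ≠ 1 := by norm_num
  refine ⟨MonoidHom.mk' (fun g => if χ (Additive.ofMul g) = 1 then 1 else -1) fun a b => ?_,
    fun g hg => ?_⟩
  · rw [ofMul_mul, AddChar.map_add_eq_mul]
    rcases e (Additive.ofMul a) with h1 | h1 <;> rcases e (Additive.ofMul b) with h2 | h2 <;>
      simp [h1, h2, m]
  · by_contra hne
    simp only [MonoidHom.mk'_apply, if_neg hne] at hg
    exact absurd hg (by decide)

end DIAGx

open DIAGx in
theorem p_DIAG : S_DIAG := by
  classical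
  intro n K _ _ φ hφ
  haveI := Fintype.ofFinite (Additive K)
  let A : Additive K → Matrix (Fin n) (Fin n) ℂ := fun g =>
    Complex.ofRealHom.mapMatrix (φ (Additive.toMul g)).1
  have a0 : A 0 = 1 := by simp [A]
  have a1 : ∀ g h, A (g + h) = A g * A h := fun g h => by
    simp only [A, toMul_add, map_mul, Submonoid.coe_mul]
  have a2 : ∀ g i j, star (A g i j) = A g i j := fun g i j => by simp [A]
  have a3 : ∀ g : K, A (Additive.ofMul g) = 1 → g = 1 := fun g h => by
    refine hφ (Subtype.ext ?_)
    ext i j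
    have := congrFun (congrFun h i) j
    rw [map_one]
    apply Complex.ofReal_injective
    rw [Submonoid.coe_one, Matrix.one_apply]
    rw [Matrix.one_apply] at this
    split_ifs at this ⊢ <;> simpa [A] using this
  let f : AddChar (Additive K) ℂ → ℕ := fun χ => (Fintype.equivFin _ χ : ℕ)
  have hf : Function.Injective f := fun a b h => (Fintype.equivFin _).injective (Fin.ext h)
  let S : Finset (AddChar (Additive K) ℂ) := univ.filter (Eig A)
  let R := S.filter fun χ => -χ = χ
  let N := S.filter fun χ => f χ < f (-χ)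
  have sn : ∀ χ ∈ S, -χ ∈ S := fun χ h =>
    mem_filter.2 ⟨mem_univ _, eig_neg A a2 (mem_filter.1 h).2⟩
  have c1 : 2 * N.card + R.card ≤ n := by
    have d1 : Disjoint N (N.image Neg.neg) := by
      rw [disjoint_left]
      intro χ h1 h2
      obtain ⟨ψ, h3, rfl⟩ := mem_image.1 h2
      have h4 := (mem_filter.1 h1).2
      have h5 := (mem_filter.1 h3).2
      rw [neg_neg] at h4
      omega
    have d2 : Disjoint (N ∪ N.image Neg.neg) R := by
      rw [disjoint_left]
      intro χ h1 h2
      have h3 := (mem_filter.1 h2).2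
      rcases mem_union.1 h1 with h | h
      · have h4 := (mem_filter.1 h).2
        rw [h3] at h4
        omega
      · obtain ⟨ψ, h4, rfl⟩ := mem_image.1 h
        have h5 := (mem_filter.1 h4).2
        rw [neg_neg] at h3
        rw [← h3] at h5
        omega
    have h := card_le A ((N ∪ N.image Neg.neg) ∪ R) fun χ h => by
      refine (mem_filter.1 (?_ : χ ∈ S)).2
      rcases mem_union.1 h with h | h
      · rcases mem_union.1 h with h | h
        · exact (mem_filter.1 h).1
        · obtain ⟨ψ, h4, rfl⟩ := mem_image.1 h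
          exact sn _ (mem_filter.1 h4).1
      · exact (mem_filter.1 h).1
    rw [card_union_of_disjoint d2, card_union_of_disjoint d1,
      card_image_of_injective _ neg_injective] at h
    omega
  let r : Fin (n - 2 * N.card) → AddChar (Additive K) ℂ := fun i =>
    if h : i.1 < R.card then (R.equivFin.symm ⟨i, h⟩).1 else 0
  have hr : ∀ i, -r i = r i := fun i => by
    by_cases h : i.1 < R.card
    · simp only [r, dif_pos h]
      exact (mem_filter.1 (R.equivFin.symm ⟨i, h⟩).2).2
    · simp only [r, dif_neg h, neg_zero]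
  choose s hs using fun i => sgn (r i) (hr i)
  choose c hc using fun i : Fin N.card => circ (N.equivFin.symm i).1
  refine ⟨N.card, n - 2 * N.card, by omega, (MonoidHom.pi c).prod (MonoidHom.pi s), ?_⟩
  rw [injective_iff_map_eq_one]
  intro g hg
  have n1 : ∀ χ ∈ N, χ (Additive.ofMul g) = 1 := fun χ h => by
    have := hc (N.equivFin ⟨χ, h⟩) g (congrFun (congrArg Prod.fst hg) _)
    rwa [Equiv.symm_apply_apply] at this
  refine a3 g (sep A a0 a1 _ fun χ h => ?_)
  have h1 : χ ∈ S := mem_filter.2 ⟨mem_univ _, h⟩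
  rcases lt_trichotomy (f χ) (f (-χ)) with q | q | q
  · exact n1 χ (mem_filter.2 ⟨h1, q⟩)
  · have h2 : χ ∈ R := mem_filter.2 ⟨h1, (hf q).symm⟩
    have h3 := (R.equivFin ⟨χ, h2⟩).2
    have := hs ⟨(R.equivFin ⟨χ, h2⟩).1, by omega⟩ g (congrFun (congrArg Prod.snd hg) _)
    simp only [r, dif_pos h3, Fin.eta, Equiv.symm_apply_apply] at this
    exact this
  · have := n1 (-χ) (mem_filter.2 ⟨sn _ h1, by rwa [neg_neg]⟩)
    rwa [AddChar.neg_apply', inv_eq_one] at this

end Pool.Agent.P.MP_af0fcb_gt.CG
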