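import Pool.Agent.P.MP_af0fcb_gt.SW.Defs

/-! Statements of the steps for countable groups of linear isometries of the plane. -/

namespace Pool.Agent.P.MP_af0fcb_gt.CG

open Set Filter Topology

/-- Denjoy blow-up of the line: the point `x` becomes the interval of centre `M x` and
radius `ρ x`. -/
structure Den (W : Set UnitAddCircle) (M ρ : ℝ → ℝ) : Prop where
  nn : ∀ x, 0 ≤ ρ x
  pos : ∀ x : ℝ, 0 < ρ x ↔ (x : UnitAddCircle) ∈ W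
  gap : ∀ x x', x < x' → M x + ρ x < M x' - ρ x'
  cov : ∀ u, ∃ x, |u - M x| ≤ ρ x
  perM : ∀ (x : ℝ) (n : ℤ), M (x + n) = M x + n
  perR : ∀ (x : ℝ) (n : ℤ), ρ (x + n) = ρ x
  null : ∀ η : ℝ, 0 < η →
    {w : UnitAddCircle | ∃ x : ℝ, (x : UnitAddCircle) = w ∧ η ≤ ρ x}.Finite

/-- Existence of the blow-up. -/
def S_DEN : Prop := ∀ W : Set UnitAddCircle, W.Countable → ∃ M ρ, Den W M ρ

/-- A proper rank function. -/
structure Rk {ι : Type} [AddCommGroup ι] (N : ι → ℕ) : Prop where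
  zero : N 0 = 0
  neg : ∀ x, N (-x) = N x
  add : ∀ x y, N (x + y) ≤ max (N x) (N y) + 1
  fin : ∀ j, {x | N x ≤ j}.Finite

/-- Existence of ranks. -/
def S_RANK : Prop := ∀ (ι : Type) [AddCommGroup ι] [Countable ι], ∃ N : ι → ℕ, Rk N

/-- Slowly varying profiles that still tell group elements apart. -/
def S_SIG : Prop :=
  ∀ (ι : Type) [AddCommGroup ι] [Countable ι] (N : ι → ℕ) (R : ℕ → ℕ), Rk N →
    ∃ (σ : ι → ℝ → ℝ) (L : ι → ℝ), (∀ x, Continuous (σ x)) ∧ (∀ x, σ x 0 = 0) ∧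
      (∀ x, 0 ≤ L x) ∧ (∀ x t, 0 ≤ t → L x * t ≤ σ x t) ∧ Tendsto L cofinite atTop ∧
      (∀ (a : ι) (η : ℝ), 0 < η → ∀ᶠ x in cofinite, ∀ t, 0 ≤ t → t ≤ 1 →
        |σ (x + a) t - σ x t| ≤ η) ∧
      ∀ x a n, N x < R n → (∀ t, 0 < t → t ≤ 1 → |σ (x + a) t - σ x t| ≤ 1 / 4) → N a ≤ n

/-- Rigidity on the line. -/
def S_LINE : Prop :=
  ∀ (P ψ mid : ℝ → ℝ) (δ : ℝ) (A F : Set ℝ), Monotone P → Continuous ψ → 0 < δ →
    (∀ q, ∃ q' ∈ A, |q' - q| < δ / 8) → (∀ s ∈ F, ∀ t ∈ F, s ≠ t → δ ≤ |s - t|) →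
    (∀ q ∈ A, P (mid q) = q ∧ ψ (mid q) - q ∈ F) → (∀ u, ψ u ∈ A → ψ u - P u ∈ F) →
    ∀ q ∈ A, ∀ q' ∈ A, ψ (mid q) - q = ψ (mid q') - q'

/-- Separation constants and nets. -/
def S_NET : Prop :=
  ∀ (W : AddSubgroup UnitAddCircle) (N : W → ℕ), (∀ j, {x | N x ≤ j}.Finite) →
    (∀ q η : ℝ, 0 < η → ∃ q' : ℝ, |q' - q| < η ∧ (q' : UnitAddCircle) ∈ W) →
    ∃ (δ : ℕ → ℝ) (R : ℕ → ℕ), ∀ n, 0 < δ n ∧ n < R n ∧
      (∀ (s t : ℝ) (g g' : W), (s : UnitAddCircle) = g → (t : UnitAddCircle) = g' → N g ≤ n →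
        N g' ≤ n → s ≠ t → δ n ≤ |s - t|) ∧
      ∀ q : ℝ, ∃ (q' : ℝ) (g : W), |q' - q| < δ n / 8 ∧ (q' : UnitAddCircle) = g ∧ N g < R n

/-- The point of the unit circle with angle `2 π u`. -/
noncomputable def E (u : ℝ) : ℂ := Complex.exp (((2 * Real.pi * u : ℝ) : ℂ) * Complex.I)

/-- The angle of `z`, in turns. -/
noncomputable def ang (z : ℂ) : ℝ := Complex.arg z / (2 * Real.pi)

/-- Polar coordinates. -/
def S_POL : Prop :=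
  Continuous E ∧ (∀ u, ‖E u‖ = 1) ∧ (∀ z : ℂ, ‖z‖ • E (ang z) = z) ∧
    (∀ u v, E u = E v ↔ ∃ n : ℤ, u = v + n) ∧
    (∀ (Z : Type) [TopologicalSpace Z] (k : ℝ → Z), Continuous k → (∀ u, k (u + 1) = k u) →
      ∀ z : ℂ, z ≠ 0 → ContinuousAt (fun y => k (ang y)) z) ∧
    (∀ k : ℝ → ℂ, Continuous k → (∀ u, k (u + 1) = k u) →
      Continuous fun z : ℂ => ‖z‖ • k (ang z)) ∧
    ∀ c : ℝ → ℂ, Continuous c → (∀ u, c u ≠ 0) →
      ∃ b : ℝ → ℝ, Continuous b ∧ ∀ u, c u = ‖c u‖ • E (b u)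

/-- A group of isometries `x ↦ ε x + a` of the circle, written with real lifts. -/
structure Aff {H : Type} [Group H] (ε a : H → ℝ) : Prop where
  sgn : ∀ h, ε h = 1 ∨ ε h = -1
  emul : ∀ g h, ε (g * h) = ε g * ε h
  amul : ∀ g h, ∃ n : ℤ, a (g * h) = ε g * a h + a g + n
  inj : ∀ (h : H) (n : ℤ), ε h = 1 → a h = n → h = 1

/-- From linear isometries of the plane to isometries of the circle. -/
def S_AFF : Prop :=
  ∀ (H : Type) [Group H] (φ : H →* (EuclideanSpace ℝ (Fin 2) ≃ₗᵢ[ℝ] EuclideanSpace ℝ (Fin 2))),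
    Function.Injective φ → ∃ ε a : H → ℝ, Aff ε a

/-- A countable dense subgroup and a generic base point. -/
def S_SUB : Prop :=
  ∀ (H : Type) [Countable H] (a : H → ℝ), ∃ (W : AddSubgroup UnitAddCircle) (x0 : ℝ),
    Countable W ∧ (∀ h, (a h : UnitAddCircle) ∈ W) ∧
      (∀ q η : ℝ, 0 < η → ∃ q' : ℝ, |q' - q| < η ∧ (q' : UnitAddCircle) ∈ W) ∧
      ((2 * x0 : ℝ) : UnitAddCircle) ∉ W

end Pool.Agent.P.MP_af0fcb_gt.CG
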