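import Pool.Agent.P.MP_af0fcb_gt.CG.Defs

/-! Statements of the steps for commutative groups in the plane. -/

namespace Pool.Agent.P.MP_af0fcb_gt.CG

open Set Filter Topology

/-- Rigidity on an interval. -/
def S_LINE2 : Prop :=
  ∀ (P ψ mid : ℝ → ℝ) (δ S a b : ℝ) (A F : Set ℝ), Monotone P → Continuous ψ → 0 < δ →
    (∀ q, |q| ≤ S → ∃ q' ∈ A, |q' - q| < δ / 8) → |a| ≤ S → |b| ≤ S →
    (∀ u, P u ∈ Icc a b → |ψ u| + δ ≤ S) → (∀ s ∈ F, ∀ t ∈ F, s ≠ t → δ ≤ |s - t|) →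
    (∀ q ∈ A, q ∈ Icc a b → P (mid q) = q ∧ ψ (mid q) - q ∈ F) →
    (∀ u, P u ∈ Icc a b → ψ u ∈ A → ψ u - P u ∈ F) →
    ∀ q ∈ A, ∀ q' ∈ A, q ∈ Icc (a + δ) (b - δ) → q' ∈ Icc (a + δ) (b - δ) →
      ψ (mid q) - q = ψ (mid q') - q'

/-- Separation constants and nets on bounded intervals. -/
def S_NET2 : Prop :=
  ∀ (V : AddSubgroup ℝ) (N : V → ℕ), (∀ j, {x | N x ≤ j}.Finite) → Dense (V : Set ℝ) →
    ∃ (δ : ℕ → ℝ) (R : ℕ → ℕ), ∀ n, 0 < δ n ∧ δ n ≤ 1 ∧ n < R n ∧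
      (∀ g g' : V, N g ≤ n → N g' ≤ n → (g : ℝ) ≠ g' → δ n ≤ |(g : ℝ) - g'|) ∧
      ∀ q : ℝ, |q| ≤ n → ∃ g : V, |(g : ℝ) - q| < δ n / 8 ∧ N g < R n

/-- A countable dense subgroup of the line containing given numbers. -/
def S_SUB2 : Prop :=
  ∀ (H : Type) [Countable H] (a : H → ℝ), ∃ V : AddSubgroup ℝ,
    Countable V ∧ (∀ h, a h ∈ V) ∧ (1 : ℝ) ∈ V ∧ Dense (V : Set ℝ)

/-- Half the logarithm of the slope. -/
noncomputable def slope2 (p : ℝ × ℝ) : ℝ := (Real.log p.1 - Real.log p.2) / 2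

open Classical in
/-- A function of the slope, extended by zero over the axes. -/
noncomputable def axe (r : ℝ → ℝ) (p : ℝ × ℝ) : ℝ := if p.1 * p.2 = 0 then 0 else r (slope2 p)

/-- Continuity over the axes. -/
def S_AXE : Prop :=
  ∀ r s : ℝ → ℝ, Continuous r → Continuous s → Tendsto r (cocompact ℝ) (𝓝 0) →
    Tendsto s (cocompact ℝ) (𝓝 0) →
      Continuous fun p : ℝ × ℝ => (p.1 * Real.exp (axe r p), p.2 * Real.exp (axe s p))

/-- Commutative groups with cyclic finite subgroups embed in the orthogonal group. -/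
def S_CYC : Prop :=
  ∀ (H : Type) [CommGroup H] [Countable H], (∀ K : Subgroup H, Finite K → IsCyclic K) →
    ∃ φ : H →* Circle, Function.Injective φ

/-- The circle inside the isometries of the plane. -/
def S_ROT : Prop :=
  ∃ φ : Circle →* (EuclideanSpace ℝ (Fin 2) ≃ₗᵢ[ℝ] EuclideanSpace ℝ (Fin 2)), Function.Injective φ

/-- Torsion-free quotients embed in the line, missing the rationals. -/
def S_TF : Prop :=
  ∀ (H : Type) [CommGroup H] [Countable H], ∃ a : H → ℝ, (∀ g h, a (g * h) = a g + a h) ∧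
    ∀ (h : H) (q : ℚ), a h = q → IsOfFinOrder h

/-- Signs that separate the torsion elements in the Klein case. -/
def S_KLEIN : Prop :=
  ∀ (H : Type) [CommGroup H], (∀ K : Subgroup H, Finite K → IsCyclic K ∨ IsKleinFour K) →
    (∃ K : Subgroup H, Finite K ∧ ¬IsCyclic K) →
      ∃ e : H →* ℤˣ × ℤˣ, ∀ h, IsOfFinOrder h → e h = 1 → h = 1

end Pool.Agent.P.MP_af0fcb_gt.CG
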