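import Pool.Agent.P.MP_af0fcb_gt.CG.Defs2

/-! Statements of the steps for commutative groups in every dimension. -/

namespace Pool.Agent.P.MP_af0fcb_gt.CG

/-- Finite commutative groups of orthogonal matrices split into rotations and signs. -/
def S_DIAG : Prop :=
  ∀ (n : ℕ) (K : Type) [CommGroup K] [Finite K] (φ : K →* Matrix.orthogonalGroup (Fin n) ℝ),
    Function.Injective φ → ∃ k j : ℕ, 2 * k + j = n ∧
      ∃ ψ : K →* (Fin k → Circle) × (Fin j → ℤˣ), Function.Injective ψ

/-- From the finite subgroups to the torsion subgroup. -/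
def S_CPT : Prop :=
  ∀ (k j : ℕ) (H : Type) [CommGroup H],
    (∀ K : Subgroup H, Finite K →
      ∃ ψ : K →* (Fin k → Circle) × (Fin j → ℤˣ), Function.Injective ψ) →
    ∃ ψ : CommGroup.torsion H →* (Fin k → Circle) × (Fin j → ℤˣ), Function.Injective ψ

/-- Characters of the torsion subgroup extend. -/
def S_EXT : Prop :=
  ∀ (H : Type) [CommGroup H],
    (∀ χ : CommGroup.torsion H →* Circle, ∃ ψ : H →* Circle, ∀ t : CommGroup.torsion H, ψ t = χ t) ∧
      ∀ χ : CommGroup.torsion H →* ℤˣ, ∃ ψ : H →* ℤˣ, ∀ t : CommGroup.torsion H, ψ t = χ t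

/-- A character can be moved so that its kernel is torsion. -/
def S_GEN : Prop :=
  ∀ (H : Type) [CommGroup H] [Countable H] (χ : H →* Circle), ∃ ψ : H →* Circle,
    (∀ h, IsOfFinOrder h → ψ h = χ h) ∧ ∀ h, ψ h = 1 → IsOfFinOrder h

end Pool.Agent.P.MP_af0fcb_gt.CG
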