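import Pool.Agent.P.MP_af0fcb_gt.CG.Defs3

/-! Steps EXT and GEN. -/

namespace Pool.Agent.P.MP_af0fcb_gt.CG

namespace EXTx

/-- Characters with values in the circle extend along injective homomorphisms. -/
theorem circle {A B : Type} [CommGroup A] [CommGroup B] (i : A →* B) (hi : Function.Injective i)
    (χ : A →* Circle) : ∃ ψ : B →* Circle, ∀ a, ψ (i a) = χ a := by
  let _ : DivisibleBy (Additive Circle) ℤ := divisibleByOfSMulRightSurj _ _ fun {n} hn x => by
    obtain ⟨y, hy⟩ := Circle.exp_surjective x.toMul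
    refine ⟨Additive.ofMul (Circle.exp (y / n)), ?_⟩
    have hn' : (n : ℝ) ≠ 0 := Int.cast_ne_zero.2 hn
    change Additive.ofMul (Circle.exp (y / n) ^ n) = x
    rw [← Circle.exp_intCast_mul, mul_div_cancel₀ _ hn', hy, ofMul_toMul]
  obtain ⟨g, hg⟩ := (Module.Baer.of_divisible (Additive Circle)).extension_property_addMonoidHom
    (MonoidHom.toAdditive i) hi (MonoidHom.toAdditive χ)
  exact ⟨MonoidHom.toAdditive.symm g, fun a => DFunLike.congr_fun hg (Additive.ofMul a)⟩

/-- Subgroups of groups of exponent two are retracts. -/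
theorem retract {Q : Type} [CommGroup Q] (h2 : ∀ q : Q, q ^ 2 = 1) (K : Subgroup Q) :
    ∃ r : Q →* K, ∀ k : K, r k = k := by
  let _ : Module (ZMod 2) (Additive K) := AddCommGroup.zmodModule fun x =>
    Subtype.ext (h2 (x.toMul : Q))
  let _ : Module (ZMod 2) (Additive Q) := AddCommGroup.zmodModule fun x => h2 x.toMul
  let f : Additive K →+ Additive Q := MonoidHom.toAdditive K.subtype
  obtain ⟨g, hg⟩ := (f.toZModLinearMap 2).exists_leftInverse_of_injective
    (LinearMap.ker_eq_bot'.2 fun x hx => Subtype.ext hx)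
  exact ⟨MonoidHom.mk' (fun q => (g (Additive.ofMul q)).toMul) fun a b => by
    rw [ofMul_mul, map_add, toMul_add], fun k => LinearMap.congr_fun hg (Additive.ofMul k)⟩

/-- Signs on the torsion subgroup extend. -/
theorem sign {H : Type} [CommGroup H] (χ : CommGroup.torsion H →* ℤˣ) :
    ∃ ψ : H →* ℤˣ, ∀ t : CommGroup.torsion H, ψ t = χ t := by
  let N : Subgroup H := (powMonoidHom 2 : H →* H).range
  let f : CommGroup.torsion H →* H ⧸ N := (QuotientGroup.mk' N).comp (CommGroup.torsion H).subtype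
  obtain ⟨r, hr⟩ := retract (Q := H ⧸ N) (fun q => by
    obtain ⟨y, rfl⟩ := QuotientGroup.mk_surjective q
    rw [← QuotientGroup.mk_pow, QuotientGroup.eq_one_iff]
    exact ⟨y, rfl⟩) f.range
  have hk : f.rangeRestrict.ker ≤ χ.ker := by
    intro t ht
    obtain ⟨y, hy⟩ := (QuotientGroup.eq_one_iff (N := N) (t : H)).1 (congrArg Subtype.val ht)
    have hy' : y ^ 2 = (t : H) := hy
    have ht2 : IsOfFinOrder (y ^ 2) := hy' ▸ t.2
    have hyt : y ∈ CommGroup.torsion H := ht2.of_pow two_ne_zero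
    have e : t = (⟨y, hyt⟩ : CommGroup.torsion H) ^ 2 := Subtype.ext hy'.symm
    rw [MonoidHom.mem_ker, e, map_pow, Int.units_sq]
  refine ⟨((f.rangeRestrict.liftOfSurjective f.rangeRestrict_surjective ⟨χ, hk⟩).comp r).comp
    (QuotientGroup.mk' N), fun t => ?_⟩
  have e : r (QuotientGroup.mk' N (t : H)) = f.rangeRestrict t := hr (f.rangeRestrict t)
  rw [MonoidHom.comp_apply, MonoidHom.comp_apply, e]
  exact f.rangeRestrict.liftOfRightInverse_comp_apply _ _ ⟨χ, hk⟩ t

/-- Few multipliers send a nonzero number to a given point of the circle. -/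
theorem countable_exp (z : Circle) {c : ℝ} (hc : c ≠ 0) :
    {l : ℝ | z * Circle.exp (l * c) = 1}.Countable := by
  obtain ⟨y, rfl⟩ := Circle.exp_surjective z
  refine (Set.countable_range fun n : ℤ => (n * (2 * Real.pi) - y) / c).mono fun l hl => ?_
  have hl' : Circle.exp (y + l * c) = 1 := (Circle.exp_add _ _).trans hl
  obtain ⟨n, hn⟩ := Circle.exp_eq_one.1 hl'
  refine ⟨n, ?_⟩
  change (n * (2 * Real.pi) - y) / c = l
  rw [← hn, add_sub_cancel_left, mul_div_cancel_right₀ _ hc]

end EXTx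

theorem p_EXT : S_EXT := fun H _ =>
  ⟨fun χ => EXTx.circle (CommGroup.torsion H).subtype Subtype.val_injective χ, EXTx.sign⟩

theorem p_GEN (hT : S_TF) : S_GEN := by
  intro H _ _ χ
  obtain ⟨a, ha, h0⟩ := hT H
  have a1 : a 1 = 0 := by
    have := ha 1 1
    rw [mul_one] at this
    linarith
  have ap : ∀ (h : H) (n : ℕ), a (h ^ n) = n * a h := by
    intro h n
    induction n with
    | zero => rw [pow_zero, a1, Nat.cast_zero, zero_mul]
    | succ n ih => rw [pow_succ, ha, ih, Nat.cast_succ, add_mul, one_mul]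
  have at0 : ∀ h, IsOfFinOrder h → a h = 0 := by
    intro h hh
    obtain ⟨n, hn, e⟩ := isOfFinOrder_iff_pow_eq_one.1 hh
    have := ap h n
    rw [e, a1] at this
    exact (mul_eq_zero.1 this.symm).resolve_left (Nat.cast_ne_zero.2 hn.ne')
  have hc : (⋃ h : {h : H // a h ≠ 0}, {l : ℝ | χ h * Circle.exp (l * a h) = 1}).Countable :=
    Set.countable_iUnion fun h => EXTx.countable_exp _ h.2
  obtain ⟨l, hl⟩ : ∃ l : ℝ,
      l ∉ ⋃ h : {h : H // a h ≠ 0}, {l : ℝ | χ h * Circle.exp (l * a h) = 1} := by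
    by_contra hn
    exact Cardinal.not_countable_real (hc.mono fun l _ => not_not.1 fun h => hn ⟨l, h⟩)
  refine ⟨MonoidHom.mk' (fun h => χ h * Circle.exp (l * a h)) fun g h => ?_, fun h hh => ?_,
    fun h hh => ?_⟩
  · rw [map_mul, ha, mul_add, Circle.exp_add, mul_mul_mul_comm]
  · change χ h * Circle.exp (l * a h) = χ h
    rw [at0 h hh, mul_zero, Circle.exp_zero, mul_one]
  · by_contra hn
    exact hl (Set.mem_iUnion.2 ⟨⟨h, fun e => hn (h0 h 0 (e.trans Rat.cast_zero.symm))⟩, hh⟩)

end Pool.Agent.P.MP_af0fcb_gt.CG
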