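import Pool.Agent.P.MP_af0fcb_gt.CG.ACT

/-! The index set: two cosets of a countable dense subgroup of the circle. -/

namespace Pool.Agent.P.MP_af0fcb_gt.CG

open Set Filter Topology

theorem exists_idx {H : Type} [Group H] {ε a : H → ℝ} (A : Aff ε a)
    (V : AddSubgroup UnitAddCircle) [Countable V] (x0 : ℝ)
    (ha : ∀ h, (a h : UnitAddCircle) ∈ V) (h0 : ((2 * x0 : ℝ) : UnitAddCircle) ∉ V) :
    ∃ (W : Set UnitAddCircle) (K : UnitAddCircle → V), W.Countable ∧
      Idx ε a W K (fun h => ⟨a h, ha h⟩) ∧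
      ∀ (g : V) (q : ℝ), (q : UnitAddCircle) = g →
        ((q + x0 : ℝ) : UnitAddCircle) ∈ W ∧ K (q + x0 : ℝ) = g := by
  classical
  rw [two_mul, AddCircle.coe_add] at h0
  generalize hc : (x0 : UnitAddCircle) = c at h0
  let K : UnitAddCircle → V := fun x =>
    if h : x - c ∈ V then ⟨_, h⟩ else if h : -x - c ∈ V then ⟨_, h⟩ else 0
  have K1 : ∀ x, x - c ∈ V → (K x : UnitAddCircle) = x - c := fun x h => by
    simp only [K, dif_pos h]
  have K2 : ∀ x, -x - c ∈ V → (K x : UnitAddCircle) = -x - c := fun x h => by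
    have n : x - c ∉ V := fun b => h0 (by
      have := V.neg_mem (V.add_mem h b)
      rwa [show -(-x - c + (x - c)) = c + c by abel] at this)
    simp only [K, dif_neg n, dif_pos h]
  have co : ∀ h (x : ℝ), (ε h = 1 ∧ ((ε h * x + a h : ℝ) : UnitAddCircle) = x + a h) ∨
      ((ε h * x + a h : ℝ) : UnitAddCircle) = -x + a h := fun h x => by
    rcases A.sgn h with e | e
    · exact Or.inl ⟨e, by rw [e, one_mul, AddCircle.coe_add]⟩
    · exact Or.inr (by rw [e, neg_one_mul, AddCircle.coe_add, AddCircle.coe_neg])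
  have e1 : ∀ x y : UnitAddCircle, x + y - c = x - c + y := fun x y => by abel
  have e2 : ∀ x y : UnitAddCircle, -(x + y) - c = -x - c + -y := fun x y => by abel
  refine ⟨{x | x - c ∈ V ∨ -x - c ∈ V}, K, ?_, ⟨fun h x => ?_, fun h x hx e => ?_,
    fun h x hx => ?_, Tendsto.cofinite_of_finite_preimage_singleton fun i => ?_⟩,
    fun g q hq => ?_⟩
  · refine ((countable_range fun g : V => (g : UnitAddCircle) + c).union
      (countable_range fun g : V => -((g : UnitAddCircle) + c))).mono ?_
    rintro x (h | h)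
    · exact Or.inl ⟨⟨_, h⟩, by simp⟩
    · exact Or.inr ⟨⟨_, h⟩, by simp⟩
  · have m := ha h
    have m' := V.neg_mem m
    rcases co h x with ⟨-, e⟩ | e <;>
      simp only [e, mem_ofPred_eq, e1, e2, V.add_mem_cancel_right m, V.add_mem_cancel_right m',
        neg_neg]
    exact or_comm
  · rcases co h x with ⟨b, f⟩ | f
    · rw [f, add_eq_left, ← AddCircle.coe_zero, coe_iff] at e
      obtain ⟨n, hn⟩ := e
      exact A.inj h n b (by rw [hn, zero_add])
    · rw [f, neg_add_eq_iff_eq_add] at e
      refine (h0 ?_).elim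
      rcases hx with b | b
      · have := V.sub_mem (V.sub_mem (ha h) b) b
        rwa [e, show (x : UnitAddCircle) + x - (x - c) - (x - c) = c + c by abel] at this
      · have := V.sub_mem (V.sub_mem (V.neg_mem (ha h)) b) b
        rwa [e, show -((x : UnitAddCircle) + x) - (-x - c) - (-x - c) = c + c by abel] at this
  · have m := ha h
    have m' := V.neg_mem m
    rcases co h x with ⟨-, e⟩ | e <;> rcases hx with b | b <;> rw [e]
    · refine Or.inl (Subtype.ext ?_)
      rw [K1 _ (by rw [e1]; exact V.add_mem b m), AddSubgroup.coe_add, K1 _ b, e1]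
    · refine Or.inr (Subtype.ext ?_)
      rw [K2 _ (by rw [e2]; exact V.add_mem b m'), AddSubgroup.coe_add, K2 _ b, e2]
      rfl
    · refine Or.inr (Subtype.ext ?_)
      rw [K2 _ (by rw [e2, neg_neg]; exact V.add_mem b m'), AddSubgroup.coe_add, K1 _ b, e2,
        neg_neg]
      rfl
    · refine Or.inl (Subtype.ext ?_)
      rw [K1 _ (by rw [e1]; exact V.add_mem b m), AddSubgroup.coe_add, K2 _ b, e1]
  · refine ((toFinite ({(i : UnitAddCircle) + c, -((i : UnitAddCircle) + c)} :
      Set UnitAddCircle)).preimage Subtype.val_injective.injOn).subset ?_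
    rintro ⟨x, hx⟩ e
    have e' : (K x : UnitAddCircle) = i := congrArg Subtype.val e
    rcases hx with b | b
    · exact Or.inl (by rw [← e', K1 _ b]; simp)
    · exact Or.inr (by rw [← e', K2 _ b]; simp)
  · have b : ((q + x0 : ℝ) : UnitAddCircle) - c = g := by
      rw [AddCircle.coe_add, hc, hq, add_sub_cancel_right]
    have m : ((q + x0 : ℝ) : UnitAddCircle) - c ∈ V := b ▸ g.2
    exact ⟨Or.inl m, Subtype.ext ((K1 _ m).trans b)⟩

end Pool.Agent.P.MP_af0fcb_gt.CG
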