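import Pool.Agent.P.MP_af0fcb_gt.CG.Defs

/-! Rigidity on the line; separation constants and nets. -/

namespace Pool.Agent.P.MP_af0fcb_gt.CG

open Set

theorem p_LINE : S_LINE := by
  intro P ψ mid δ A F hP hψ hδ hA hF hmid hu
  have key : ∀ q ∈ A, ∀ q' ∈ A, |q - q'| ≤ 3 * δ / 8 → ¬ ψ (mid q) - q < ψ (mid q') - q' := by
    intro q hq q' hq' hd hlt
    have h1 := hF _ (hmid q' hq').2 _ (hmid q hq).2 hlt.ne'
    rw [abs_of_pos (sub_pos.2 hlt)] at h1
    obtain ⟨hd1, hd2⟩ := abs_le.1 hd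
    obtain ⟨z, hz, hz'⟩ := hA (ψ (mid q) + δ / 2)
    obtain ⟨hz1, hz2⟩ := abs_lt.1 hz'
    have h2 : z ∈ uIcc (ψ (mid q)) (ψ (mid q')) :=
      mem_uIcc_of_le (by linarith) (by linarith)
    obtain ⟨u, hu1, hu2⟩ := intermediate_value_uIcc hψ.continuousOn h2
    have h3 : P u ∈ uIcc q q' := by
      have := hP.mapsTo_uIcc hu1
      rwa [(hmid q hq).1, (hmid q' hq').1] at this
    have h4 : |P u - q| ≤ 3 * δ / 8 := by
      refine le_trans ?_ hd
      rw [abs_sub_comm q q']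
      exact abs_sub_left_of_mem_uIcc h3
    obtain ⟨h5, h6⟩ := abs_le.1 h4
    have h7 := hu u (hu2 ▸ hz)
    rw [hu2] at h7
    have h8 := hF _ h7 _ (hmid q hq).2 (by intro h; linarith)
    rw [abs_of_pos (by linarith)] at h8
    linarith
  have near : ∀ q ∈ A, ∀ q' ∈ A, |q - q'| ≤ 3 * δ / 8 → ψ (mid q) - q = ψ (mid q') - q' :=
    fun q hq q' hq' hd => le_antisymm (not_lt.1 (key q' hq' q hq (by rwa [abs_sub_comm])))
      (not_lt.1 (key q hq q' hq' hd))
  have far : ∀ n : ℕ, ∀ q ∈ A, ∀ q' ∈ A, |q - q'| ≤ 3 * δ / 8 + n * (δ / 8) →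
      ψ (mid q) - q = ψ (mid q') - q' := by
    intro n
    induction n with
    | zero => intro q hq q' hq' hd; exact near q hq q' hq' (by simpa using hd)
    | succ n ih =>
      intro q hq q' hq' hd
      have hn : (0 : ℝ) ≤ n * (δ / 8) := by positivity
      push_cast at hd
      obtain ⟨hd1, hd2⟩ := abs_le.1 hd
      rcases le_total q q' with h | h
      · obtain ⟨p, hp, hp'⟩ := hA (q' - δ / 4)
        obtain ⟨h1, h2⟩ := abs_lt.1 hp'
        exact (ih q hq p hp (abs_le.2 ⟨by linarith, by linarith⟩)).trans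
          (near p hp q' hq' (abs_le.2 ⟨by linarith, by linarith⟩))
      · obtain ⟨p, hp, hp'⟩ := hA (q' + δ / 4)
        obtain ⟨h1, h2⟩ := abs_lt.1 hp'
        exact (ih q hq p hp (abs_le.2 ⟨by linarith, by linarith⟩)).trans
          (near p hp q' hq' (abs_le.2 ⟨by linarith, by linarith⟩))
  intro q hq q' hq'
  obtain ⟨n, hn⟩ := exists_nat_ge (|q - q'| / (δ / 8))
  rw [div_le_iff₀ (by positivity)] at hn
  exact far n q hq q' hq' (by linarith)

theorem p_NET : S_NET := by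
  intro W N hfin hden
  have h1 : ∀ n : ℕ, ∃ δ : ℝ, 0 < δ ∧ ∀ (s t : ℝ) (g g' : W), (s : UnitAddCircle) = g →
      (t : UnitAddCircle) = g' → N g ≤ n → N g' ≤ n → s ≠ t → δ ≤ |s - t| := by
    intro n
    have hD : (insert (1 : ℝ) ((image2 (fun g g' : W => ‖(g : UnitAddCircle) - g'‖)
        {x | N x ≤ n} {x | N x ≤ n}) ∩ Ioi 0)).Finite :=
      (((hfin n).image2 _ (hfin n)).inter_of_left _).insert 1
    obtain ⟨δ, hδ, hmin⟩ := exists_min_image _ id hD (insert_nonempty _ _)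
    refine ⟨δ, ?_, fun s t g g' hs ht hg hg' hst => ?_⟩
    · rcases hδ with rfl | h
      · exact one_pos
      · exact h.2
    · have h2 : ((s - t : ℝ) : UnitAddCircle) = (g : UnitAddCircle) - g' := by
        rw [AddCircle.coe_sub, hs, ht]
      by_cases h3 : (g : UnitAddCircle) - g' = 0
      · rw [h3, AddCircle.coe_eq_zero_iff] at h2
        obtain ⟨k, hk⟩ := h2
        rw [zsmul_one] at hk
        have hk0 : k ≠ 0 := by
          rintro rfl
          exact hst (sub_eq_zero.1 (by simpa using hk.symm))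
        refine le_trans (hmin 1 (mem_insert _ _)) ?_
        rw [← hk, id]
        exact_mod_cast Int.one_le_abs hk0
      · refine le_trans (hmin _ (mem_insert_of_mem _
          ⟨mem_image2_of_mem hg hg', norm_pos_iff.2 h3⟩)) ?_
        rw [id, ← h2]
        exact QuotientAddGroup.norm_mk_le_norm
  choose δ hδ hsep using h1
  have h2 : ∀ n : ℕ, ∃ R : ℕ, n < R ∧ ∀ q : ℝ, ∃ (q' : ℝ) (g : W), |q' - q| < δ n / 8 ∧
      (q' : UnitAddCircle) = g ∧ N g < R := by
    intro n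
    have hd := hδ n
    choose p hp hpW using fun k : ℕ => hden (k * (δ n / 16)) (δ n / 16) (by positivity)
    refine ⟨(Finset.range (⌊1 / (δ n / 16)⌋₊ + 1)).sup (fun k => N ⟨_, hpW k⟩) + n + 1, by omega,
      fun q => ?_⟩
    have hf0 := Int.fract_nonneg q
    have hf1 := Int.fract_lt_one q
    set k := ⌊Int.fract q / (δ n / 16)⌋₊ with hk
    have hk1 : (k : ℝ) ≤ Int.fract q / (δ n / 16) := Nat.floor_le (by positivity)
    have hk2 : Int.fract q / (δ n / 16) < k + 1 := Nat.lt_floor_add_one _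
    rw [le_div_iff₀ (by positivity)] at hk1
    rw [div_lt_iff₀ (by positivity)] at hk2
    refine ⟨p k + ⌊q⌋, ⟨_, hpW k⟩, ?_, ?_, ?_⟩
    · obtain ⟨h3, h4⟩ := abs_lt.1 (hp k)
      have h5 := Int.floor_add_fract q
      exact abs_lt.2 ⟨by linarith, by linarith⟩
    · have : (((⌊q⌋ : ℤ) : ℝ) : UnitAddCircle) = 0 :=
        (AddCircle.coe_eq_zero_iff _).2 ⟨⌊q⌋, by simp⟩
      rw [AddCircle.coe_add, this, add_zero]
    · have h3 : k ∈ Finset.range (⌊1 / (δ n / 16)⌋₊ + 1) :=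
        Finset.mem_range.2 (Nat.lt_succ_of_le (Nat.floor_le_floor (by gcongr)))
      have h4 := Finset.le_sup (f := fun k => N ⟨_, hpW k⟩) h3
      omega
  choose R hR hnet using h2
  exact ⟨δ, R, fun n => ⟨hδ n, hR n, hsep n, hnet n⟩⟩

end Pool.Agent.P.MP_af0fcb_gt.CG
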