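import Pool.Agent.P.MP_af0fcb_gt.CG.Defs2

/-! Rigidity on an interval; nets on bounded intervals; countable dense subgroups. -/

namespace Pool.Agent.P.MP_af0fcb_gt.CG

open Set

theorem p_LINE2 : S_LINE2 := by
  intro P ψ mid δ S a b A F hP hψ hδ hA ha hb hS hF hmid hu
  have key : ∀ q ∈ A, ∀ q' ∈ A, q ∈ Icc a b → q' ∈ Icc a b → |q - q'| ≤ 3 * δ / 8 →
      ¬ ψ (mid q) - q < ψ (mid q') - q' := by
    intro q hq q' hq' hi hi' hd hlt
    have h1 := hF _ (hmid q' hq' hi').2 _ (hmid q hq hi).2 hlt.ne'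
    rw [abs_of_pos (sub_pos.2 hlt)] at h1
    obtain ⟨hd1, hd2⟩ := abs_le.1 hd
    have h0 := hS (mid q) (by rw [(hmid q hq hi).1]; exact hi)
    obtain ⟨z, hz, hz'⟩ := hA (ψ (mid q) + δ / 2) (abs_le.2
      ⟨by linarith [neg_abs_le (ψ (mid q))], by linarith [le_abs_self (ψ (mid q))]⟩)
    obtain ⟨hz1, hz2⟩ := abs_lt.1 hz'
    have h2 : z ∈ uIcc (ψ (mid q)) (ψ (mid q')) :=
      mem_uIcc_of_le (by linarith) (by linarith)
    obtain ⟨u, hu1, hu2⟩ := intermediate_value_uIcc hψ.continuousOn h2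
    have h3 : P u ∈ uIcc q q' := by
      have := hP.mapsTo_uIcc hu1
      rwa [(hmid q hq hi).1, (hmid q' hq' hi').1] at this
    have h4 : |P u - q| ≤ 3 * δ / 8 := by
      refine le_trans ?_ hd
      rw [abs_sub_comm q q']
      exact abs_sub_left_of_mem_uIcc h3
    obtain ⟨h5, h6⟩ := abs_le.1 h4
    have h7 := hu u (uIcc_subset_Icc hi hi' h3) (hu2 ▸ hz)
    rw [hu2] at h7
    have h8 := hF _ h7 _ (hmid q hq hi).2 (by intro h; linarith)
    rw [abs_of_pos (by linarith)] at h8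
    linarith
  have sub : Icc (a + δ) (b - δ) ⊆ Icc a b := Icc_subset_Icc (by linarith) (by linarith)
  have near : ∀ q ∈ A, ∀ q' ∈ A, q ∈ Icc (a + δ) (b - δ) → q' ∈ Icc (a + δ) (b - δ) →
      |q - q'| ≤ 3 * δ / 8 → ψ (mid q) - q = ψ (mid q') - q' :=
    fun q hq q' hq' hi hi' hd => le_antisymm
      (not_lt.1 (key q' hq' q hq (sub hi') (sub hi) (by rwa [abs_sub_comm])))
      (not_lt.1 (key q hq q' hq' (sub hi) (sub hi') hd))
  obtain ⟨ha1, -⟩ := abs_le.1 ha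
  obtain ⟨-, hb2⟩ := abs_le.1 hb
  have far : ∀ n : ℕ, ∀ q ∈ A, ∀ q' ∈ A, q ∈ Icc (a + δ) (b - δ) → q' ∈ Icc (a + δ) (b - δ) →
      |q - q'| ≤ 3 * δ / 8 + n * (δ / 8) → ψ (mid q) - q = ψ (mid q') - q' := by
    intro n
    induction n with
    | zero => intro q hq q' hq' hi hi' hd; exact near q hq q' hq' hi hi' (by simpa using hd)
    | succ n ih =>
      intro q hq q' hq' hi hi' hd
      have hn : (0 : ℝ) ≤ n * (δ / 8) := by positivity
      push_cast at hd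
      obtain ⟨hd1, hd2⟩ := abs_le.1 hd
      rcases le_or_gt |q - q'| (3 * δ / 8) with h0 | h0
      · exact near q hq q' hq' hi hi' h0
      obtain ⟨i1, i2⟩ := id hi
      obtain ⟨j1, j2⟩ := id hi'
      rcases lt_abs.1 h0 with h | h
      · obtain ⟨p, hp, hp'⟩ := hA (q' + δ / 4) (abs_le.2 ⟨by linarith, by linarith⟩)
        obtain ⟨h1, h2⟩ := abs_lt.1 hp'
        have hpi : p ∈ Icc (a + δ) (b - δ) := ⟨by linarith, by linarith⟩
        exact (ih q hq p hp hi hpi (abs_le.2 ⟨by linarith, by linarith⟩)).trans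
          (near p hp q' hq' hpi hi' (abs_le.2 ⟨by linarith, by linarith⟩))
      · obtain ⟨p, hp, hp'⟩ := hA (q' - δ / 4) (abs_le.2 ⟨by linarith, by linarith⟩)
        obtain ⟨h1, h2⟩ := abs_lt.1 hp'
        have hpi : p ∈ Icc (a + δ) (b - δ) := ⟨by linarith, by linarith⟩
        exact (ih q hq p hp hi hpi (abs_le.2 ⟨by linarith, by linarith⟩)).trans
          (near p hp q' hq' hpi hi' (abs_le.2 ⟨by linarith, by linarith⟩))
  intro q hq q' hq' hi hi'
  obtain ⟨n, hn⟩ := exists_nat_ge (|q - q'| / (δ / 8))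
  rw [div_le_iff₀ (by positivity)] at hn
  exact far n q hq q' hq' hi hi' (by linarith)

theorem p_NET2 : S_NET2 := by
  intro V N hfin hden
  have h1 : ∀ n : ℕ, ∃ δ : ℝ, 0 < δ ∧ δ ≤ 1 ∧ ∀ g g' : V, N g ≤ n → N g' ≤ n → (g : ℝ) ≠ g' →
      δ ≤ |(g : ℝ) - g'| := by
    intro n
    have hD : (insert (1 : ℝ) ((image2 (fun g g' : V => |(g : ℝ) - g'|)
        {x | N x ≤ n} {x | N x ≤ n}) ∩ Ioi 0)).Finite :=
      (((hfin n).image2 _ (hfin n)).inter_of_left _).insert 1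
    obtain ⟨δ, hδ, hmin⟩ := exists_min_image _ id hD (insert_nonempty _ _)
    refine ⟨δ, ?_, hmin 1 (mem_insert _ _), fun g g' hg hg' h => hmin _ (mem_insert_of_mem _
      ⟨mem_image2_of_mem hg hg', abs_pos.2 (sub_ne_zero.2 h)⟩)⟩
    rcases hδ with rfl | h
    · exact one_pos
    · exact h.2
  choose δ hδ hδ1 hsep using h1
  have h2 : ∀ n : ℕ, ∃ R : ℕ, n < R ∧ ∀ q : ℝ, |q| ≤ n →
      ∃ g : V, |(g : ℝ) - q| < δ n / 8 ∧ N g < R := by
    intro n
    have hd := hδ n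
    choose p hpW hp using fun k : ℕ =>
      hden.exists_dist_lt (-n + k * (δ n / 16)) (show 0 < δ n / 16 by positivity)
    refine ⟨(Finset.range (⌊2 * n / (δ n / 16)⌋₊ + 1)).sup (fun k => N ⟨_, hpW k⟩) + n + 1,
      by omega, fun q hq => ?_⟩
    obtain ⟨q1, q2⟩ := abs_le.1 hq
    have q3 : 0 ≤ q + n := by linarith
    set k := ⌊(q + n) / (δ n / 16)⌋₊ with hk
    have hk1 : (k : ℝ) ≤ (q + n) / (δ n / 16) := Nat.floor_le (by positivity)
    have hk2 : (q + n) / (δ n / 16) < k + 1 := Nat.lt_floor_add_one _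
    rw [le_div_iff₀ (by positivity)] at hk1
    rw [div_lt_iff₀ (by positivity)] at hk2
    refine ⟨⟨_, hpW k⟩, ?_, ?_⟩
    · have h3 := hp k
      rw [Real.dist_eq] at h3
      obtain ⟨h4, h5⟩ := abs_lt.1 h3
      exact abs_lt.2 ⟨by linarith, by linarith⟩
    · have h3 : k ∈ Finset.range (⌊2 * n / (δ n / 16)⌋₊ + 1) :=
        Finset.mem_range.2 (Nat.lt_succ_of_le (Nat.floor_le_floor
          (div_le_div_of_nonneg_right (by linarith) (by positivity))))
      have h4 := Finset.le_sup (f := fun k => N ⟨_, hpW k⟩) h3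
      omega
  choose R hR hnet using h2
  exact ⟨δ, R, fun n => ⟨hδ n, hδ1 n, hR n, hsep n, hnet n⟩⟩

theorem p_SUB2 : S_SUB2 := by
  intro H _ a
  let v : H ⊕ ℚ → ℝ := Sum.elim a (↑)
  let V := Submodule.span ℤ (range v)
  have hv : ∀ i, v i ∈ V := fun i => Submodule.subset_span ⟨i, rfl⟩
  refine ⟨V.toAddSubgroup, inferInstanceAs (Countable V), fun h => hv (.inl h), ?_,
    Rat.denseRange_cast.mono ?_⟩
  · have := hv (.inr 1)
    simpa [v] using this
  · rintro _ ⟨r, rfl⟩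
    exact hv (.inr r)

end Pool.Agent.P.MP_af0fcb_gt.CG
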