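import Pool.Agent.P.MP_af0fcb_gt.CG.Defs

/-! Polar coordinates, and linear isometries of the plane as isometries of the circle. -/

namespace Pool.Agent.P.MP_af0fcb_gt.CG

open Set Filter Topology

namespace POLx

theorem cont_E : Continuous E := by
  unfold E
  fun_prop

theorem norm_E (u : ℝ) : ‖E u‖ = 1 := Complex.norm_exp_ofReal_mul_I _

theorem polar (z : ℂ) : ‖z‖ • E (ang z) = z := by
  have h : 2 * Real.pi * ang z = Complex.arg z := by
    unfold ang
    have := Real.pi_ne_zero
    field_simp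
  unfold E
  rw [h, Complex.real_smul]
  exact Complex.norm_mul_exp_arg_mul_I z

theorem E_eq_iff (u v : ℝ) : E u = E v ↔ ∃ n : ℤ, u = v + n := by
  unfold E
  rw [Complex.exp_eq_exp_iff_exists_int]
  have hp : (2 * Real.pi : ℝ) ≠ 0 := by have := Real.pi_ne_zero; positivity
  constructor
  · rintro ⟨n, hn⟩
    refine ⟨n, ?_⟩
    have h1 := congrArg Complex.im hn
    simp at h1
    have h2 : 2 * Real.pi * u = 2 * Real.pi * (v + n) := by linarith
    exact mul_left_cancel₀ hp h2
  · rintro ⟨n, rfl⟩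
    refine ⟨n, ?_⟩
    push_cast
    ring

theorem E_add (u v : ℝ) : E (u + v) = E u * E v := by
  unfold E
  rw [← Complex.exp_add]
  congr 1
  push_cast
  ring

theorem E_half : E (1 / 2) = -1 := by
  unfold E
  rw [← Complex.exp_pi_mul_I]
  congr 1
  push_cast
  ring

theorem E_zero : E 0 = 1 := by
  unfold E
  simp

theorem E_neg (u : ℝ) : E (-u) = (starRingEnd ℂ) (E u) := by
  unfold E
  rw [← Complex.exp_conj, map_mul, Complex.conj_ofReal, Complex.conj_I]
  congr 1
  push_cast
  ring

theorem per_int {Z : Type} (k : ℝ → Z) (hk : ∀ u, k (u + 1) = k u) (u : ℝ) (n : ℤ) :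
    k (u + n) = k u := by
  have h : Function.Periodic k 1 := hk
  have := h.int_mul n u
  simpa using this

theorem ang_neg (y : ℂ) (hy : y ≠ 0) : ∃ n : ℤ, ang y = ang (-y) + 1 / 2 + n := by
  rw [← E_eq_iff, E_add, E_half]
  have h1 := polar y
  have h2 := polar (-y)
  rw [norm_neg] at h2
  have hn : ((‖y‖ : ℝ) : ℂ) ≠ 0 := by
    exact_mod_cast norm_ne_zero_iff.mpr hy
  rw [Complex.real_smul] at h1 h2
  apply mul_left_cancel₀ hn
  rw [h1, ← mul_assoc, h2]
  ring

theorem contAt_ang (z : ℂ) (hz : z ∈ Complex.slitPlane) : ContinuousAt ang z := by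
  unfold ang
  exact (Complex.continuousAt_arg hz).div_const _

theorem contAt_k (Z : Type) [TopologicalSpace Z] (k : ℝ → Z) (hc : Continuous k)
    (hk : ∀ u, k (u + 1) = k u) (z : ℂ) (hz : z ≠ 0) :
    ContinuousAt (fun y => k (ang y)) z := by
  rcases Complex.mem_slitPlane_or_neg_mem_slitPlane hz with h | h
  · exact hc.continuousAt.comp (contAt_ang z h)
  · have h1 : ContinuousAt (fun y : ℂ => k (ang (-y) + 1 / 2)) z := by
      refine hc.continuousAt.comp (ContinuousAt.add ?_ continuousAt_const)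
      exact ContinuousAt.comp (f := fun y : ℂ => -y) (contAt_ang _ h) continuous_neg.continuousAt
    refine h1.congr ?_
    filter_upwards [isOpen_ne.mem_nhds hz] with y hy
    obtain ⟨n, hn⟩ := ang_neg y hy
    rw [hn, per_int k hk]

theorem cont_cone (k : ℝ → ℂ) (hc : Continuous k) (hk : ∀ u, k (u + 1) = k u) :
    Continuous fun z : ℂ => ‖z‖ • k (ang z) := by
  rw [continuous_iff_continuousAt]
  intro z
  by_cases hz : z = 0
  · subst hz
    obtain ⟨C, hC⟩ := (isCompact_Icc (a := (-1 : ℝ)) (b := 1)).exists_bound_of_continuousOn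
      hc.continuousOn
    have hb : ∀ y : ℂ, ‖k (ang y)‖ ≤ C := by
      intro y
      apply hC
      have hp := Real.pi_pos
      have h1 := Complex.neg_pi_lt_arg y
      have h2 := Complex.arg_le_pi y
      unfold ang
      constructor
      · rw [le_div_iff₀ (by positivity)]
        linarith
      · rw [div_le_iff₀ (by positivity)]
        linarith
    unfold ContinuousAt
    simp only [norm_zero, zero_smul]
    refine squeeze_zero_norm (a := fun y : ℂ => ‖y‖ * C) (fun y => ?_) ?_
    · rw [norm_smul, norm_norm]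
      exact mul_le_mul_of_nonneg_left (hb y) (norm_nonneg _)
    · have : Continuous fun y : ℂ => ‖y‖ * C := by fun_prop
      simpa using this.tendsto 0
  · exact continuous_norm.continuousAt.smul (contAt_k ℂ k hc hk z hz)

theorem lift (c : ℝ → ℂ) (hc : Continuous c) (h0 : ∀ u, c u ≠ 0) :
    ∃ b : ℝ → ℝ, Continuous b ∧ ∀ u, c u = ‖c u‖ • E (b u) := by
  let f : C(ℝ, Circle) :=
    ⟨fun u => Circle.exp (Complex.arg (c u)), by
      have h := fun z (hz : z ≠ 0) => contAt_k Circle (fun u => Circle.exp (2 * Real.pi * u))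
        (by fun_prop) (fun u => by
          rw [mul_add, mul_one, Circle.exp_add, Circle.exp_two_pi, mul_one]) z hz
      rw [continuous_iff_continuousAt]
      intro u
      have h2 := ContinuousAt.comp (f := c) (h (c u) (h0 u)) hc.continuousAt
      refine h2.congr (Eventually.of_forall fun v => ?_)
      have := Real.pi_ne_zero
      simp only [Function.comp, ang]
      congr 1
      field_simp⟩
  obtain ⟨F, ⟨-, hF⟩, -⟩ := Circle.isCoveringMap_exp.existsUnique_continuousMap_lifts f 0
    (Complex.arg (c 0)) rfl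
  refine ⟨fun u => F u / (2 * Real.pi), by fun_prop, fun u => ?_⟩
  have h1 : Circle.exp (F u) = Circle.exp (Complex.arg (c u)) := congrFun hF u
  have h2 : Complex.exp ((F u : ℂ) * Complex.I) = Complex.exp ((Complex.arg (c u) : ℂ) * Complex.I) := by
    rw [← Circle.coe_exp, ← Circle.coe_exp, h1]
  have h3 : 2 * Real.pi * (F u / (2 * Real.pi)) = F u := by
    have := Real.pi_ne_zero
    field_simp
  unfold E
  rw [h3, h2, Complex.real_smul]
  exact (Complex.norm_mul_exp_arg_mul_I _).symm

theorem iso_aff (f : ℂ ≃ₗᵢ[ℝ] ℂ) :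
    ∃ e a : ℝ, (e = 1 ∨ e = -1) ∧ ∀ x, f (E x) = E (e * x + a) := by
  obtain ⟨c, hc⟩ := linear_isometry_complex f
  have h1 : E (ang c) = c := by
    have := polar (c : ℂ)
    rwa [Circle.norm_coe, one_smul] at this
  rcases hc with hc | hc
  · refine ⟨1, ang c, Or.inl rfl, fun x => ?_⟩
    rw [hc, rotation_apply, E_add, h1, one_mul, mul_comm]
  · refine ⟨-1, ang c, Or.inr rfl, fun x => ?_⟩
    rw [hc, E_add, h1, neg_one_mul, E_neg]
    simp [mul_comm]

end POLx

open POLx

theorem p_POL : S_POL :=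
  ⟨cont_E, norm_E, polar, E_eq_iff, contAt_k, cont_cone, lift⟩

theorem p_AFF : S_AFF := by
  intro H _ φ hφ
  let r := Complex.orthonormalBasisOneI.repr
  let ψ : H → (ℂ ≃ₗᵢ[ℝ] ℂ) := fun h => (r.trans (φ h)).trans r.symm
  have hmul : ∀ g h z, ψ (g * h) z = ψ g (ψ h z) := by
    intro g h z
    simp [ψ]
  choose ε a hε hψ using fun h => iso_aff (ψ h)
  have key : ∀ g h x, ∃ n : ℤ, ε (g * h) * x + a (g * h) = ε g * (ε h * x + a h) + a g + n := by
    intro g h x
    rw [← E_eq_iff, ← hψ, hmul, hψ, hψ]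
  refine ⟨ε, a, hε, fun g h => ?_, fun g h => ?_, fun h n h1 h2 => ?_⟩
  · obtain ⟨n, hn⟩ := key g h 0
    obtain ⟨m, hm⟩ := key g h (1 / 4)
    have h3 : ε (g * h) - ε g * ε h = 4 * ((m - n : ℤ) : ℝ) := by
      push_cast
      linarith
    have h4 : |ε (g * h) - ε g * ε h| ≤ 2 := by
      rcases hε g with h5 | h5 <;> rcases hε h with h6 | h6 <;>
        rcases hε (g * h) with h7 | h7 <;> rw [h5, h6, h7] <;> norm_num
    have h5 : m - n = 0 := by
      rw [h3, abs_le] at h4
      have h6 : (-2 : ℤ) ≤ 4 * (m - n) := by exact_mod_cast h4.1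
      have h7 : 4 * (m - n) ≤ (2 : ℤ) := by exact_mod_cast h4.2
      omega
    rw [h5] at h3
    simp only [Int.cast_zero, mul_zero] at h3
    linarith
  · obtain ⟨n, hn⟩ := key g h 0
    exact ⟨n, by simpa using hn⟩
  · apply hφ
    rw [map_one]
    have h3 : ∀ z, ψ h z = z := by
      intro z
      conv_lhs => rw [← polar z]
      rw [map_smul, hψ, h1, h2, one_mul, (E_eq_iff _ _).mpr ⟨n, rfl⟩, polar]
    ext1 x
    have h4 := h3 (r.symm x)
    simpa [ψ] using h4

end Pool.Agent.P.MP_af0fcb_gt.CG
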