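import Pool.Agent.P.MP_af0fcb_gt.CG.Defs

/-! Rank functions and a countable dense subgroup. -/

namespace Pool.Agent.P.MP_af0fcb_gt.CG

open Set Filter Topology
open scoped Pointwise

theorem p_RANK : S_RANK := by
  intro ι _ _
  obtain ⟨e, he⟩ := exists_surjective_nat ι
  let B : ℕ → Set ι := fun j => Nat.rec {0} (fun j S => (S + S) ∪ {e j, -e j}) j
  have hB : ∀ j, B (j + 1) = (B j + B j) ∪ {e j, -e j} := fun _ => rfl
  have h0 : ∀ j, (0 : ι) ∈ B j := fun j => by
    induction j with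
    | zero => rfl
    | succ j ih => exact Or.inl ⟨0, ih, 0, ih, add_zero 0⟩
  have hm : Monotone B := monotone_nat_of_le_succ fun j x hx =>
    Or.inl ⟨x, hx, 0, h0 j, add_zero x⟩
  have hf : ∀ j, (B j).Finite := fun j => by
    induction j with
    | zero => exact finite_singleton 0
    | succ j ih => exact (ih.add ih).union (toFinite _)
  have hn : ∀ j x, x ∈ B j → -x ∈ B j := fun j => by
    induction j with
    | zero => exact fun x hx => neg_eq_zero.2 hx
    | succ j ih =>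
      rintro _ (⟨x, hx, y, hy, rfl⟩ | rfl | rfl)
      · exact Or.inl ⟨-x, ih x hx, -y, ih y hy, (neg_add x y).symm⟩
      · exact Or.inr (Or.inr rfl)
      · exact Or.inr (Or.inl (neg_neg _))
  have ex : ∀ x, ∃ j, x ∈ B j := fun x => by
    obtain ⟨j, rfl⟩ := he x
    exact ⟨j + 1, Or.inr (Or.inl rfl)⟩
  obtain ⟨N, h1, h2⟩ : ∃ N : ι → ℕ, (∀ x, x ∈ B (N x)) ∧ ∀ x j, x ∈ B j → N x ≤ j :=
    ⟨fun x => sInf {j | x ∈ B j}, fun x => Nat.sInf_mem (ex x),
      fun x _ h => Nat.sInf_le (s := {j | x ∈ B j}) h⟩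
  have le : ∀ x, N (-x) ≤ N x := fun x => h2 _ _ (hn _ _ (h1 x))
  refine ⟨N, Nat.le_zero.1 (h2 0 0 rfl), fun x => le_antisymm (le x) ?_,
    fun x y => h2 _ _ (Or.inl ⟨x, hm (le_max_left _ _) (h1 x), y,
      hm (le_max_right _ _) (h1 y), rfl⟩), fun j => (hf j).subset fun x hx => hm hx (h1 x)⟩
  simpa only [neg_neg] using le (-x)

theorem p_SUB : S_SUB := by
  intro H _ a
  let v : H ⊕ ℚ → ℝ := Sum.elim a (↑)
  let V := Submodule.span ℤ (range v)
  have hv : ∀ i, v i ∈ V := fun i => Submodule.subset_span ⟨i, rfl⟩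
  have hV : (V : Set ℝ).Countable := countable_coe_iff.1 (inferInstanceAs (Countable V))
  obtain ⟨y, hy⟩ : ∃ y, y ∉ V := by
    by_contra! h
    exact not_countable_univ (hV.mono fun y _ => h y)
  refine ⟨V.toAddSubgroup.map (QuotientAddGroup.mk' _), y / 2,
    (hV.image (QuotientAddGroup.mk' _)).to_subtype, fun h => ⟨_, hv (.inl h), rfl⟩,
    fun q η hη => ?_, ?_⟩
  · obtain ⟨r, hr⟩ := exists_rat_near q hη
    exact ⟨r, by rwa [abs_sub_comm], _, hv (.inr r), rfl⟩
  · rintro ⟨z, hz, e⟩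
    obtain ⟨n, hn⟩ := QuotientAddGroup.eq.1 e
    refine hy ?_
    have h1 : y = z + ((n : ℚ) : ℝ) := by
      simp only [zsmul_eq_mul, mul_one] at hn
      push_cast
      linarith
    rw [h1]
    exact add_mem hz (hv (.inr n))

end Pool.Agent.P.MP_af0fcb_gt.CG
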