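import Pool.Agent.P.MP_af0fcb_gt.CG.Defs

namespace Pool.Agent.P.MP_af0fcb_gt.CG

open Set Filter Topology

namespace SIGx

/-- A bump around `1 / 2 ^ (k + 2)`. -/
noncomputable def b (k : ℕ) (t : ℝ) : ℝ := max (1 - 4 * |t * 2 ^ (k + 2) - 1|) 0

theorem b_cont (k : ℕ) : Continuous (b k) := by
  unfold b
  fun_prop

theorem b_nn (k : ℕ) (t : ℝ) : 0 ≤ b k t := le_max_right _ _

theorem b_le (k : ℕ) (t : ℝ) : b k t ≤ 1 :=
  max_le (by have := abs_nonneg (t * 2 ^ (k + 2) - 1); linarith) zero_le_one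

theorem b_ne {k : ℕ} {t : ℝ} (h : b k t ≠ 0) :
    3 / 4 < t * 2 ^ (k + 2) ∧ t * 2 ^ (k + 2) < 5 / 4 := by
  have h1 : 0 < 1 - 4 * |t * 2 ^ (k + 2) - 1| := by
    by_contra l
    exact h (max_eq_right (not_lt.1 l))
  have h2 : |t * 2 ^ (k + 2) - 1| < 1 / 4 := by linarith
  have := abs_lt.1 h2
  constructor <;> linarith

theorem b_zero (k : ℕ) : b k 0 = 0 := by
  by_contra h
  have := (b_ne h).1
  norm_num at this

theorem b_one (k : ℕ) : b k 1 = 0 := by
  by_contra h
  have h1 := (b_ne h).2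
  have h2 : (1 : ℝ) ≤ 2 ^ k := one_le_pow₀ (by norm_num)
  rw [pow_add] at h1
  linarith

theorem b_top (k : ℕ) : b k (1 / 2 ^ (k + 2)) = 1 := by
  have : (1 : ℝ) / 2 ^ (k + 2) * 2 ^ (k + 2) = 1 := by field_simp
  rw [b, this]
  norm_num

theorem b_lt {k k' : ℕ} {t : ℝ} (h : b k t ≠ 0) (h' : b k' t ≠ 0) : ¬ k < k' := by
  intro l
  obtain ⟨j, rfl⟩ := Nat.exists_eq_add_of_lt l
  have h1 := (b_ne h).1
  have h2 := (b_ne h').2
  have h3 : (1 : ℝ) ≤ 2 ^ j := one_le_pow₀ (by norm_num)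
  have h4 : t * 2 ^ (k + j + 1 + 2) = t * 2 ^ (k + 2) * 2 ^ j * 2 := by ring
  nlinarith

theorem b_uniq {k k' : ℕ} {t : ℝ} (h : b k t ≠ 0) (h' : b k' t ≠ 0) : k = k' :=
  le_antisymm (not_lt.1 (b_lt h' h)) (not_lt.1 (b_lt h h'))

theorem sq {a b : ℝ} (ha : 0 ≤ a) (hb : 0 < b) (h1 : a ≤ b + 1) (h2 : b ≤ a + 1) :
    |√a - √b| ≤ (√b)⁻¹ := by
  have h3 := Real.sqrt_pos.2 hb
  have h4 := Real.sqrt_nonneg a
  have h5 := Real.mul_self_sqrt ha
  have h6 := Real.mul_self_sqrt hb.le
  rw [← one_div, le_div_iff₀ h3]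
  rcases le_total (√a) (√b) with h | h
  · rw [abs_of_nonpos (sub_nonpos.2 h)]; nlinarith
  · rw [abs_of_nonneg (sub_nonneg.2 h)]; nlinarith

/-- A tent of width `m`. -/
noncomputable def al (n m : ℕ) : ℝ := max (1 - (n : ℝ) / (m + 1)) 0

theorem al_nn (n m : ℕ) : 0 ≤ al n m := le_max_right _ _

theorem al_zero (m : ℕ) : al 0 m = 1 := by simp [al]

theorem al_ne {n m : ℕ} (h : al n m ≠ 0) : n ≤ m := by
  have h1 : 0 < 1 - (n : ℝ) / (m + 1) := by
    by_contra l
    exact h (max_eq_right (not_lt.1 l))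
  have h2 : (n : ℝ) / (m + 1) < 1 := by linarith
  rw [div_lt_one (by positivity)] at h2
  exact Nat.le_of_lt_succ (by exact_mod_cast h2)

theorem al_lip {n n' c m k : ℕ} (h1 : n ≤ n' + c) (h2 : n' ≤ n + c) (hk : k ≤ m) :
    |al n m - al n' m| ≤ c / (k + 1) := by
  refine (abs_max_sub_max_le_abs _ _ _).trans ?_
  have e1 : (n : ℝ) ≤ n' + c := by exact_mod_cast h1
  have e2 : (n' : ℝ) ≤ n + c := by exact_mod_cast h2
  have e3 : (k : ℝ) ≤ m := by exact_mod_cast hk
  have e4 : 1 - (n : ℝ) / (m + 1) - (1 - n' / (m + 1)) = (n' - n) / (m + 1) := by ring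
  rw [e4, abs_div, abs_of_pos (show (0 : ℝ) < m + 1 by positivity)]
  have e5 : |(n' : ℝ) - n| ≤ c := abs_le.2 ⟨by linarith, by linarith⟩
  gcongr

end SIGx

open SIGx in
theorem p_SIG : S_SIG := by
  classical
  intro ι _ _ N R hN
  obtain ⟨e, he⟩ := exists_injective_nat ι
  have ex : ∀ v, ∃ n, N v < R n + n + 3 := fun v => ⟨N v, by omega⟩
  let m : ι → ℕ := fun v => Nat.find (ex v)
  have m1 : ∀ v, N v < R (m v) + m v + 3 := fun v => Nat.find_spec (ex v)
  have m2 : ∀ v n, N v < R n + n + 3 → m v ≤ n := fun v n h => Nat.find_min' (ex v) h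
  have a1 : ∀ x y, N x ≤ max (N (x - y)) (N y) + 1 := fun x y => by
    simpa using hN.add (x - y) y
  have a2 : ∀ x y, N x ≤ max (N (x + y)) (N y) + 1 := fun x y => by
    simpa [hN.neg] using hN.add (x + y) (-y)
  have a3 : ∀ x y, N y ≤ max (N x) (N (x - y)) + 1 := fun x y => by
    have := hN.add x (-(x - y))
    rwa [hN.neg, show x + -(x - y) = y by abel] at this
  have F1 : ∀ x, {v | al (N (x - v)) (m v) ≠ 0}.Finite := fun x => by
    refine (hN.fin (N x + R 0 + 3)).subset fun v hv => ?_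
    have h1 := al_ne hv
    have h2 := a3 x v
    have h3 := m1 v
    show N v ≤ _
    rcases Nat.eq_zero_or_pos (m v) with h | h
    · rw [h] at h3
      omega
    · have h4 : ¬ N v < R (m v - 1) + (m v - 1) + 3 := fun l => by
        have := m2 v _ l
        omega
      omega
  have U : ∀ t, ∃ v₀, ∀ v, v ≠ v₀ → b (e v) t = 0 := fun t => by
    by_cases h : ∃ v, b (e v) t ≠ 0
    · obtain ⟨v₀, h⟩ := h
      exact ⟨v₀, fun v hv => by_contra fun l => hv (he (b_uniq l h))⟩
    · exact ⟨0, fun v _ => by_contra fun l => h ⟨v, l⟩⟩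
  let τ : ι → ℝ → ℝ := fun x t => ∑ᶠ v, al (N (x - v)) (m v) * b (e v) t
  have T1 : ∀ t v₀, (∀ v, v ≠ v₀ → b (e v) t = 0) → ∀ x,
      τ x t = al (N (x - v₀)) (m v₀) * b (e v₀) t := fun t v₀ h x =>
    finsum_eq_single _ v₀ fun v hv => by rw [h v hv, mul_zero]
  have T2 : ∀ x, Continuous (τ x) := fun x => by
    have : τ x = fun t => ∑ v ∈ (F1 x).toFinset, al (N (x - v)) (m v) * b (e v) t := by
      funext t
      refine finsum_eq_sum_of_support_subset _ fun v hv => ?_
      rw [Finite.coe_toFinset]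
      exact left_ne_zero_of_mul hv
    rw [this]
    exact continuous_finsetSum _ fun v _ => continuous_const.mul (b_cont _)
  have h1 : Tendsto N cofinite atTop := tendsto_atTop.2 fun j => by
    rw [eventually_cofinite]
    exact (hN.fin j).subset fun x hx => (not_le.1 hx).le
  have h2 : Tendsto (fun w => √(N w : ℝ)) cofinite atTop :=
    Real.tendsto_sqrt_atTop.comp (tendsto_natCast_atTop_atTop.comp h1)
  refine ⟨fun x t => √(N x : ℝ) * t + τ x t, fun x => √(N x : ℝ),
    fun x => (continuous_const.mul continuous_id).add (T2 x), fun x => ?_,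
    fun x => Real.sqrt_nonneg _, fun x t _ => ?_, h2, fun a η hη => ?_, fun x a n hx H => ?_⟩
  · show _ + τ x 0 = 0
    rw [T1 0 0 (fun v _ => b_zero _), b_zero]
    simp
  · obtain ⟨v₀, h⟩ := U t
    show _ ≤ _ + τ x t
    rw [T1 t v₀ h]
    exact le_add_of_nonneg_right (mul_nonneg (al_nn _ _) (b_nn _ _))
  · obtain ⟨k, hk⟩ := exists_nat_ge (((N a + 1 : ℕ) : ℝ) / (η / 2))
    have hk' : ((N a + 1 : ℕ) : ℝ) / (k + 1) ≤ η / 2 := by
      rw [div_le_iff₀ (by positivity)] at hk ⊢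
      nlinarith
    have hK : ∀ v, m v < k → N v < (Finset.range k).sup R + k + 3 := fun v hv => by
      have := m1 v
      have := Finset.le_sup (f := R) (Finset.mem_range.2 hv)
      omega
    filter_upwards [h1.eventually_ge_atTop ((Finset.range k).sup R + k + N a + 9),
      h2.inv_tendsto_atTop.eventually (ge_mem_nhds (half_pos hη))] with x hx hs t t0 t1
    obtain ⟨v, h⟩ := U t
    have c1 := hN.add x a
    have c2 := a2 x a
    have d1 : |√(N (x + a) : ℝ) - √(N x : ℝ)| ≤ η / 2 :=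
      (sq (Nat.cast_nonneg _) (Nat.cast_pos.2 (by omega))
        (by exact_mod_cast (by omega : N (x + a) ≤ N x + 1))
        (by exact_mod_cast (by omega : N x ≤ N (x + a) + 1))).trans hs
    have d2 : |al (N (x + a - v)) (m v) - al (N (x - v)) (m v)| ≤ η / 2 := by
      rcases lt_or_ge (m v) k with l | l
      · have := hK v l
        have z1 : al (N (x + a - v)) (m v) = 0 := by_contra fun q => by
          have := al_ne q
          have := a1 (x + a) v
          omega
        have z2 : al (N (x - v)) (m v) = 0 := by_contra fun q => by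
          have := al_ne q
          have := a1 x v
          omega
        rw [z1, z2, sub_zero, abs_zero]
        exact (half_pos hη).le
      · have g1 := hN.add (x - v) a
        have g2 := a2 (x - v) a
        rw [show x - v + a = x + a - v by abel] at g1 g2
        exact (al_lip (c := N a + 1) (by omega) (by omega) l).trans hk'
    show |_ + τ (x + a) t - (_ + τ x t)| ≤ η
    rw [T1 t v h, T1 t v h]
    have d3 := b_nn (e v) t
    have d4 := b_le (e v) t
    calc _ = |(√(N (x + a) : ℝ) - √(N x : ℝ)) * t +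
          (al (N (x + a - v)) (m v) - al (N (x - v)) (m v)) * b (e v) t| := by
          congr 1
          ring
      _ ≤ η / 2 * 1 + η / 2 * 1 := by
          refine (abs_add_le _ _).trans ?_
          rw [abs_mul, abs_mul, abs_of_nonneg t0, abs_of_nonneg d3]
          gcongr
      _ = η := by ring
  · have p0 : (0 : ℝ) < 1 / 2 ^ (e x + 2) := by positivity
    have p1 : (1 : ℝ) / 2 ^ (e x + 2) ≤ 1 := by
      rw [div_le_one (by positivity)]
      exact one_le_pow₀ (by norm_num)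
    have q1 : |_ + τ (x + a) 1 - (_ + τ x 1)| ≤ 1 / 4 := H 1 one_pos le_rfl
    have q2 : |_ + τ (x + a) _ - (_ + τ x _)| ≤ 1 / 4 := H _ p0 p1
    have u : ∀ v, v ≠ x → b (e v) (1 / 2 ^ (e x + 2)) = 0 := fun v hv =>
      by_contra fun l => hv (he (b_uniq l (by rw [b_top]; norm_num)))
    rw [T1 1 0 (fun v _ => b_one _), T1 1 0 (fun v _ => b_one _), b_one] at q1
    rw [T1 _ x u, T1 _ x u, b_top, sub_self, hN.zero, al_zero, add_sub_cancel_left] at q2
    have q3 : al (N a) (m x) ≠ 0 := by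
      intro l
      rw [l] at q2
      have r1 := abs_le.1 q1
      have r2 := (abs_le.1 q2).1
      nlinarith [r1.1, r1.2]
    exact (al_ne q3).trans (m2 x n (by omega))

end Pool.Agent.P.MP_af0fcb_gt.CG
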