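import Pool.Agent.P.MP_af0fcb_gt.SW.ABS
import Pool.Agent.P.MP_af0fcb_gt.SW.GL
import Pool.Agent.P.MP_af0fcb_gt.SW.RIG

/-! Rigid systems of sectors, their products and the groups they realize. -/

namespace Pool.Agent.P.MP_af0fcb_gt.CG

open Set Filter Topology SW

/-- An action with a freely permuted dense family of sectors through a fixed point, such that a
homeomorphism that is a group element on every sector is a group element. -/
structure Sys {Γ Y W : Type} [Group Γ] [TopologicalSpace Y] [MulAction Γ W] (γ : Act Γ Y)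
    (G : W → Y → ℝ) (o : Y) : Prop where
  ne : Nonempty W
  free : ∀ (h : Γ) (w : W), h • w = w → h = 1
  cont : ∀ w, Continuous (G w)
  nn : ∀ w y, 0 ≤ G w y
  le : ∀ w y, G w y ≤ 1
  disj : ∀ w w' y, 0 < G w y → 0 < G w' y → w = w'
  pre : ∀ w, IsPreconnected {y | 0 < G w y}
  inv : ∀ (h : Γ) w y, G (h • w) (γ h y) = G w y
  null : ∀ δ : ℝ, 0 < δ → ∀ y, ∃ N ∈ 𝓝 y, ∀ᶠ w in cofinite, ∀ z ∈ N, G w z ≤ δ
  fix : ∀ h, γ h o = o
  base : ∀ w, o ∈ closure {y | 0 < G w y}
  dense : Dense {y | ∃ w, 0 < G w y}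
  rig : ∀ (B : Y ≃ₜ Y) (l l' : W → Γ) (w0 : W), (∀ w y, 0 < G w y → B y = γ (l w) y) →
    (∀ w y, 0 < G w y → B⁻¹ y = γ (l' w) y) → l w0 = 1 → l' w0 = 1 → ∀ w, l w = 1

namespace Sys

theorem uniq {Γ Y W : Type} [Group Γ] [TopologicalSpace Y] [MulAction Γ W] {γ : Act Γ Y}
    {G : W → Y → ℝ} {o : Y} (S : Sys γ G o) {g h : Γ} {w : W} {y : Y} (hy : 0 < G w y)
    (e : γ g y = γ h y) : g = h := by
  have a := S.disj (g • w) (h • w) (γ g y) (by rwa [S.inv]) (by rwa [e, S.inv])
  exact (inv_mul_eq_one.1 (S.free (h⁻¹ * g) w (by rw [mul_smul, a, inv_smul_smul]))).symm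

theorem pt {Γ Y W : Type} [Group Γ] [TopologicalSpace Y] [MulAction Γ W] {γ : Act Γ Y}
    {G : W → Y → ℝ} {o : Y} (S : Sys γ G o) (w : W) : ∃ y, 0 < G w y :=
  closure_nonempty_iff.1 ⟨o, S.base w⟩

theorem realize {Γ Y W : Type} [Group Γ] [MetricSpace Y] [ProperSpace Y] [MulAction Γ W]
    {γ : Act Γ Y} {G : W → Y → ℝ} {o : Y} (S : Sys γ G o) {H : Type} [Group H]
    (hH : Countable H) (φ : H →* Γ) (hφ : Function.Injective φ) : InClass Y H := by
  let _ := MulAction.compHom W φ
  obtain ⟨f, f1, f2, f3⟩ := p_ABS p_GL p_RIG H Y W (γ.comp φ) G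
    (fun h w e => hφ ((S.free (φ h) w e).trans (map_one φ).symm)) S.cont S.nn S.disj S.pre
    (fun h => S.inv (φ h)) S.null
  obtain ⟨w0⟩ := S.ne
  obtain ⟨y0, h0⟩ := S.pt w0
  have inj : Function.Injective (γ.comp φ) := fun g h e =>
    hφ (S.uniq h0 (congrArg (fun B : Y ≃ₜ Y => B y0) e))
  have rig : ∀ B ∈ symmGroup f, B y0 = y0 → B = 1 := by
    intro B hB e
    choose l hl using f3 B hB
    choose l' hl' using f3 B⁻¹ ((symmGroup f).inv_mem hB)
    have all := S.rig B (fun w => φ (l w)) (fun w => φ (l' w)) w0 hl hl'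
      (S.uniq h0 ((hl w0 y0 h0).symm.trans (e.trans (act_one γ y0).symm)))
      (S.uniq h0 ((hl' w0 y0 h0).symm.trans ((B.symm_apply_eq.2 e.symm).trans
        (act_one γ y0).symm)))
    refine Homeomorph.ext (congrFun (Continuous.ext_on S.dense B.continuous continuous_id ?_))
    rintro y ⟨w, hw⟩
    exact (hl w y hw).trans ((congrArg (fun g => γ g y) (all w)).trans (act_one γ y))
  have rng : (γ.comp φ).range = symmGroup f := by
    refine le_antisymm ?_ fun B hB => ?_
    · rintro _ ⟨h, rfl⟩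
      exact f2 h
    obtain ⟨h, hh⟩ := f3 B hB w0
    have e := rig ((γ.comp φ) h⁻¹ * B) ((symmGroup f).mul_mem (f2 _) hB) (by
      change (γ.comp φ) h⁻¹ (B _) = _
      rw [hh y0 h0, act_inv_left])
    rw [map_inv, inv_mul_eq_one] at e
    exact ⟨_, e⟩
  exact ⟨hH, f, f1, ⟨(MonoidHom.ofInjective inj).trans (MulEquiv.subgroupCongr rng)⟩⟩

/-- The restriction of a labelled homeomorphism to a slice. -/
theorem slice {Γ Y W Z : Type} [Group Γ] [TopologicalSpace Y] [MulAction Γ W]
    [TopologicalSpace Z] [T2Space Z] {γ : Act Γ Y} {G : W → Y → ℝ} {o : Y} (S : Sys γ G o)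
    {i : Y → Z} {p : Z → Y} (ci : Continuous i) (cp : Continuous p) (e : ∀ y, p (i y) = y)
    (B : Z ≃ₜ Z) (l l' : W → Γ) (w0 : W) (h : ∀ w y, 0 < G w y → B (i y) = i (γ (l w) y))
    (h' : ∀ w y, 0 < G w y → B⁻¹ (i y) = i (γ (l' w) y)) (o1 : l w0 = 1) (o2 : l' w0 = 1) (w : W) :
    l w = 1 := by
  have k : ∀ (B : Z ≃ₜ Z) (l : W → Γ), (∀ w y, 0 < G w y → B (i y) = i (γ (l w) y)) →
      ∀ y, i (p (B (i y))) = B (i y) := fun B l h =>
    congrFun (Continuous.ext_on S.dense (ci.comp (cp.comp (B.continuous.comp ci)))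
      (B.continuous.comp ci) (by
        rintro y ⟨w, hw⟩
        simp only [h w y hw, e]))
  refine S.rig
    { toFun := fun y => p (B (i y))
      invFun := fun y => p (B⁻¹ (i y))
      left_inv := fun y => by
        simp only []
        rw [k B l h, show B⁻¹ (B (i y)) = i y from B.symm_apply_apply _, e]
      right_inv := fun y => by
        simp only []
        rw [k B⁻¹ l' h', show B (B⁻¹ (i y)) = i y from B.apply_symm_apply _, e]
      continuous_toFun := cp.comp (B.continuous.comp ci)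
      continuous_invFun := cp.comp (B⁻¹.continuous.comp ci) } l l' w0
    (fun w y hy => (congrArg p (h w y hy)).trans (e _))
    (fun w y hy => (congrArg p (h' w y hy)).trans (e _)) o1 o2 w

theorem pi {ι : Type} [Fintype ι] {Γ Y W : ι → Type} [∀ i, Group (Γ i)]
    [∀ i, TopologicalSpace (Y i)] [∀ i, T2Space (Y i)] [∀ i, MulAction (Γ i) (W i)]
    {γ : ∀ i, Act (Γ i) (Y i)} {G : ∀ i, W i → Y i → ℝ} {o : ∀ i, Y i}
    (S : ∀ i, Sys (γ i) (G i) (o i)) :
    ∃ (γ' : Act (∀ i, Γ i) (∀ i, Y i)) (G' : (∀ i, W i) → (∀ i, Y i) → ℝ), Sys γ' G' o := by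
  classical
  let γ' : Act (∀ i, Γ i) (∀ i, Y i) := mkAct (fun h y i => γ i (h i) (y i))
    (fun h => continuous_pi fun i => (γ i (h i)).continuous.comp (continuous_apply i))
    (fun y => funext fun i => act_one _ _) fun g h y => funext fun i => act_mul _ _ _ _
  have pos : ∀ (w : ∀ i, W i) (y : ∀ i, Y i),
      0 < ∏ i, G i (w i) (y i) ↔ ∀ i, 0 < G i (w i) (y i) := fun w y => by
    refine ⟨fun h i => ((S i).nn _ _).lt_of_ne' fun e => h.ne' ?_,
      fun h => Finset.prod_pos fun i _ => h i⟩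
    exact Finset.prod_eq_zero (Finset.mem_univ i) e
  have sec : ∀ w : ∀ i, W i, {y : ∀ i, Y i | 0 < ∏ i, G i (w i) (y i)} =
      univ.pi fun i => {z | 0 < G i (w i) z} := fun w => by
    ext y
    simp only [mem_ofPred_eq, pos, mem_univ_pi]
  have ext : ∀ (B : (∀ i, Y i) ≃ₜ ∀ i, Y i) (l : (∀ i, W i) → ∀ i, Γ i),
      (∀ w y, 0 < ∏ i, G i (w i) (y i) → B y = γ' (l w) y) → ∀ w i z, 0 < G i (w i) z →
        B (Function.update o i z) = Function.update o i (γ i (l w i) z) := by
    intro B l h w i z hz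
    have a : EqOn B (γ' (l w)) {y | 0 < ∏ i, G i (w i) (y i)} := h w
    rw [a.closure B.continuous (γ' _).continuous (by
      rw [sec, closure_pi_set]
      intro j _
      by_cases e : j = i
      · subst e
        rw [Function.update_self]
        exact subset_closure hz
      · rw [Function.update_of_ne e]
        exact (S j).base _)]
    funext j
    change γ j (l w j) (Function.update o i z j) = _
    by_cases e : j = i
    · subst e
      rw [Function.update_self, Function.update_self]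
    · rw [Function.update_of_ne e, Function.update_of_ne e, (S j).fix]
  refine ⟨γ', fun w y => ∏ i, G i (w i) (y i), ⟨⟨fun i => (S i).ne.some⟩,
    fun h w e => funext fun i => (S i).free _ _ (congrFun e i),
    fun w => continuous_finsetProd _ fun i _ => ((S i).cont _).comp (continuous_apply i),
    fun w y => Finset.prod_nonneg fun i _ => (S i).nn _ _,
    fun w y => Finset.prod_le_one (fun i _ => (S i).nn _ _) fun i _ => (S i).le _ _,
    fun w w' y a b => funext fun i => (S i).disj _ _ _ ((pos _ _).1 a i) ((pos _ _).1 b i),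
    fun w => sec w ▸ isPreconnected_univ_pi fun i => (S i).pre _,
    fun h w y => Finset.prod_congr rfl fun i _ => (S i).inv _ _ _, fun δ hδ y => ?_,
    fun h => funext fun i => (S i).fix _, fun w => ?_, ?_, ?_⟩⟩
  · choose N h1 h2 using fun i => (S i).null δ hδ (y i)
    refine ⟨univ.pi N, set_pi_mem_nhds finite_univ fun i _ => h1 i, ?_⟩
    refine (Finite.pi' fun i => eventually_cofinite.1 (h2 i)).subset fun w hw i b => hw ?_
    intro z hz
    refine le_trans ?_ (b (z i) (hz i (mem_univ i)))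
    rw [← Finset.mul_prod_erase _ _ (Finset.mem_univ i)]
    exact mul_le_of_le_one_right ((S i).nn _ _)
      (Finset.prod_le_one (fun j _ => (S j).nn _ _) fun j _ => (S j).le _ _)
  · rw [sec, closure_pi_set]
    exact fun i _ => (S i).base _
  · refine (dense_pi univ fun i _ => (S i).dense).mono fun y hy => ?_
    choose w hw using fun i => hy i (mem_univ i)
    exact ⟨w, (pos _ _).2 hw⟩
  · intro B l l' w0 h h' o1 o2 w
    funext i
    have a := (S i).slice (i := Function.update o i) (p := fun y => y i)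
      (continuous_const.update i continuous_id) (continuous_apply i)
      (fun y => Function.update_self ..) B (fun v => l (Function.update w0 i v) i)
      (fun v => l' (Function.update w0 i v) i) (w0 i)
      (fun v z hz => ext B l h _ i z (by rwa [Function.update_self]))
      (fun v z hz => ext B⁻¹ l' h' _ i z (by rwa [Function.update_self]))
      (by rw [Function.update_eq_self, o1]; rfl) (by rw [Function.update_eq_self, o2]; rfl) (w i)
    obtain ⟨z, hz⟩ := (S i).pt (w i)
    have b := congrFun ((ext B l h w i z hz).symm.trans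
      (ext B l h (Function.update w0 i (w i)) i z (by rwa [Function.update_self]))) i
    rw [Function.update_self, Function.update_self] at b
    exact ((S i).uniq hz b).trans a

theorem prod {Γ Y W Γ' Y' W' : Type} [Group Γ] [TopologicalSpace Y] [T2Space Y] [MulAction Γ W]
    [Group Γ'] [TopologicalSpace Y'] [T2Space Y'] [MulAction Γ' W'] {γ : Act Γ Y}
    {G : W → Y → ℝ} {o : Y} {γ' : Act Γ' Y'} {G' : W' → Y' → ℝ} {o' : Y'} (S : Sys γ G o)
    (S' : Sys γ' G' o') : ∃ (_ : MulAction (Γ × Γ') (W × W')) (β : Act (Γ × Γ') (Y × Y'))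
      (F : W × W' → Y × Y' → ℝ), Sys β F (o, o') := by
  let ac : MulAction (Γ × Γ') (W × W') :=
    { smul := fun h w => (h.1 • w.1, h.2 • w.2)
      one_smul := fun w => Prod.ext (one_smul Γ _) (one_smul Γ' _)
      mul_smul := fun g h w => Prod.ext (mul_smul _ _ _) (mul_smul _ _ _) }
  let β : Act (Γ × Γ') (Y × Y') := mkAct (fun h y => (γ h.1 y.1, γ' h.2 y.2))
    (fun h => (γ h.1).continuous.prodMap (γ' h.2).continuous)
    (fun y => Prod.ext (act_one _ _) (act_one _ _))
    fun g h y => Prod.ext (act_mul _ _ _ _) (act_mul _ _ _ _)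
  have sec : ∀ w : W × W', {y : Y × Y' | 0 < min (G w.1 y.1) (G' w.2 y.2)} =
      {z | 0 < G w.1 z} ×ˢ {z | 0 < G' w.2 z} := fun w => by
    ext y
    simp only [mem_ofPred_eq, lt_min_iff, mem_prod]
  have ext : ∀ (B : Y × Y' ≃ₜ Y × Y') (l : W × W' → Γ × Γ'),
      (∀ w y, 0 < min (G w.1 y.1) (G' w.2 y.2) → B y = β (l w) y) → ∀ w,
        (∀ z, 0 < G w.1 z → B (z, o') = (γ (l w).1 z, o')) ∧
          ∀ z, 0 < G' w.2 z → B (o, z) = (o, γ' (l w).2 z) := by
    intro B l h w
    have a : EqOn B (β (l w)) {y | 0 < min (G w.1 y.1) (G' w.2 y.2)} := h w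
    have b := a.closure B.continuous (β _).continuous
    rw [sec, closure_prod_eq] at b
    exact ⟨fun z hz => (b (x := (z, o')) ⟨subset_closure hz, S'.base _⟩).trans (Prod.ext rfl (S'.fix _)),
      fun z hz => (b (x := (o, z)) ⟨S.base _, subset_closure hz⟩).trans (Prod.ext (S.fix _) rfl)⟩
  refine ⟨ac, β, fun w y => min (G w.1 y.1) (G' w.2 y.2), ⟨⟨(S.ne.some, S'.ne.some)⟩,
    fun h w e => Prod.ext (S.free _ _ (congrArg Prod.fst e)) (S'.free _ _ (congrArg Prod.snd e)),
    fun w => ((S.cont _).comp continuous_fst).min ((S'.cont _).comp continuous_snd),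
    fun w y => le_min (S.nn _ _) (S'.nn _ _), fun w y => (min_le_left _ _).trans (S.le _ _),
    fun w w' y a b => Prod.ext (S.disj _ _ _ (lt_min_iff.1 a).1 (lt_min_iff.1 b).1)
      (S'.disj _ _ _ (lt_min_iff.1 a).2 (lt_min_iff.1 b).2),
    fun w => sec w ▸ (S.pre _).prod (S'.pre _),
    fun h w y => congrArg₂ min (S.inv _ _ _) (S'.inv _ _ _), fun δ hδ y => ?_,
    fun h => Prod.ext (S.fix _) (S'.fix _), fun w => ?_, ?_, ?_⟩⟩
  · obtain ⟨N, h1, h2⟩ := S.null δ hδ y.1
    obtain ⟨N', h3, h4⟩ := S'.null δ hδ y.2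
    refine ⟨N ×ˢ N', prod_mem_nhds h1 h3, ?_⟩
    refine ((eventually_cofinite.1 h2).prod (eventually_cofinite.1 h4)).subset fun w hw =>
      ⟨fun b => hw fun z hz => (min_le_left _ _).trans (b _ hz.1),
        fun b => hw fun z hz => (min_le_right _ _).trans (b _ hz.2)⟩
  · rw [sec, closure_prod_eq]
    exact ⟨S.base _, S'.base _⟩
  · refine (S.dense.prod S'.dense).mono ?_
    rintro y ⟨⟨w, a⟩, w', b⟩
    exact ⟨(w, w'), lt_min a b⟩
  · intro B l l' w0 h h' o1 o2 w
    have a := S.slice (i := fun z => (z, o')) (p := Prod.fst) (by fun_prop) continuous_fst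
      (fun _ => rfl) B (fun v => (l (v, w0.2)).1) (fun v => (l' (v, w0.2)).1) w0.1
      (fun v => (ext B l h (v, w0.2)).1) (fun v => (ext B⁻¹ l' h' (v, w0.2)).1)
      (congrArg Prod.fst o1)
      (congrArg Prod.fst o2) w.1
    have a' := S'.slice (i := fun z => (o, z)) (p := Prod.snd) (by fun_prop) continuous_snd
      (fun _ => rfl) B (fun v => (l (w0.1, v)).2) (fun v => (l' (w0.1, v)).2) w0.2
      (fun v => (ext B l h (w0.1, v)).2) (fun v => (ext B⁻¹ l' h' (w0.1, v)).2)
      (congrArg Prod.snd o1)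
      (congrArg Prod.snd o2) w.2
    obtain ⟨z, hz⟩ := S.pt w.1
    obtain ⟨z', hz'⟩ := S'.pt w.2
    exact Prod.ext
      ((S.uniq hz (congrArg Prod.fst (((ext B l h w).1 z hz).symm.trans
        ((ext B l h (w.1, w0.2)).1 z hz)))).trans a)
      ((S'.uniq hz' (congrArg Prod.snd (((ext B l h w).2 z' hz').symm.trans
        ((ext B l h (w0.1, w.2)).2 z' hz')))).trans a')

end Sys

theorem sys_line : ∃ (γ : Act ℤˣ ℝ) (G : ℤˣ → ℝ → ℝ), Sys γ G 0 := by
  let s : ℤˣ → ℝ := fun h => ((h : ℤ) : ℝ)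
  have s1 : s 1 = 1 := by simp [s]
  have s2 : s (-1) = -1 := by simp [s]
  have sm : ∀ g h, s (g * h) = s g * s h := fun g h => by simp [s]
  have sq : ∀ h, s h * s h = 1 := fun h => by rw [← sm, Int.units_mul_self, s1]
  have pos : ∀ w y, 0 < max 0 (min 1 (s w * y)) ↔ 0 < s w * y := fun w y => by simp
  have sec : ∀ w, {y | 0 < max 0 (min 1 (s w * y))} = (fun t => s w * t) '' Ioi 0 := fun w => by
    ext y
    rw [mem_ofPred_eq, pos]
    refine ⟨fun h => ⟨_, h, ?_⟩, ?_⟩
    · simp only []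
      rw [← mul_assoc, sq, one_mul]
    · rintro ⟨t, ht, rfl⟩
      rwa [← mul_assoc, sq, one_mul]
  refine ⟨mkAct (fun h y => s h * y) (fun h => by fun_prop) (fun y => by rw [s1, one_mul])
    fun g h y => by rw [sm, mul_assoc], fun w y => max 0 (min 1 (s w * y)), ⟨⟨1⟩,
    fun h w e => mul_eq_right.1 e, fun w => by fun_prop, fun w y => le_max_left _ _,
    fun w y => max_le zero_le_one (min_le_left _ _), fun w w' y a b => ?_,
    fun w => sec w ▸ isPreconnected_Ioi.image _ (by fun_prop), fun h w y => ?_,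
    fun δ hδ y => ⟨univ, univ_mem, by simp⟩, fun h => mul_zero _, fun w => ?_, ?_, ?_⟩⟩
  · rw [pos] at a b
    rcases Int.units_eq_one_or w with rfl | rfl <;> rcases Int.units_eq_one_or w' with rfl | rfl <;>
      simp only [s1, s2] at a b <;> first | rfl | linarith
  · rw [mkAct_apply, smul_eq_mul, sm, show s h * s w * (s h * y) = s h * s h * (s w * y) by ring,
      sq, one_mul]
  · rw [sec]
    refine image_closure_subset_closure_image (by fun_prop) ⟨0, ?_, mul_zero _⟩
    rw [closure_Ioi]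
    exact le_refl (0 : ℝ)
  · refine (dense_compl_singleton (0 : ℝ)).mono fun y hy => ?_
    rcases lt_or_gt_of_ne (show y ≠ 0 from hy) with h | h
    · exact ⟨-1, (pos _ _).2 (by rw [s2]; linarith)⟩
    · exact ⟨1, (pos _ _).2 (by rw [s1]; linarith)⟩
  · intro B l l' w0 h _ o1 _ w
    by_contra n
    have e := (Int.units_eq_one_or (l w)).resolve_left n
    have a := h w (s w) ((pos _ _).2 (by rw [sq]; exact one_pos))
    have b := h w0 (s w0) ((pos _ _).2 (by rw [sq]; exact one_pos))
    rw [mkAct_apply, e, s2] at a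
    rw [mkAct_apply, o1, s1] at b
    rcases Int.units_eq_one_or w with rfl | rfl <;> rcases Int.units_eq_one_or w0 with rfl | rfl
    · exact n o1
    · rw [s1] at a
      rw [s2] at b
      have := B.injective (a.trans (by rw [b]; ring : (-1 * 1 : ℝ) = B (-1)))
      linarith
    · rw [s2] at a
      rw [s1] at b
      have := B.injective (a.trans (by rw [b]; ring : (-1 * -1 : ℝ) = B 1))
      linarith
    · exact n o1

end Pool.Agent.P.MP_af0fcb_gt.CG
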