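import Pool.Agent.P.MP_af0fcb_gt.CG.RIG
import Pool.Agent.P.MP_af0fcb_gt.CG.DEN
import Pool.Agent.P.MP_af0fcb_gt.CG.RANK
import Pool.Agent.P.MP_af0fcb_gt.CG.SIG
import Pool.Agent.P.MP_af0fcb_gt.CG.LINE
import Pool.Agent.P.MP_af0fcb_gt.CG.POL
import Pool.Agent.P.MP_af0fcb_gt.CG.SYS
import Pool.Agent.P.MP_af0fcb_gt.SW.Glue

/-! Countable subgroups of products of the groups `O(2)` and `O(1)` are symmetry groups of
functions. -/

namespace Pool.Agent.P.MP_af0fcb_gt.CG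

open Set Filter Topology SW

theorem sys_aff {H : Type} [Group H] [Countable H] {ε a : H → ℝ} (A : Aff ε a) :
    ∃ (W : Type) (_ : MulAction H W) (γ : Act H ℂ) (G : W → ℂ → ℝ), Sys γ G 0 := by
  have hP := p_POL
  obtain ⟨V, x0, _, ha, hV, h0⟩ := p_SUB H a
  obtain ⟨W, K, cW, I, hK⟩ := exists_idx A V x0 ha h0
  obtain ⟨M, ρ, d⟩ := p_DEN W cW
  obtain ⟨N, hN⟩ := p_RANK V
  obtain ⟨δ, R, hR⟩ := p_NET V N hN.fin hV
  obtain ⟨σ, L, s1, s2, s4, s5, s6, s3, s7⟩ := p_SIG V N R hN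
  obtain ⟨_, hs⟩ := exists_act A I
  obtain ⟨γ, hγ⟩ := exists_plane d A I hs p_GL hP s1 s2 s3
  obtain ⟨G, g1, g2, g3, g4, g5⟩ := exists_bumps d A I hs hP s1 s4 s5 s6 γ hγ
  have hW : ∀ q η : ℝ, 0 < η → ∃ q' : ℝ, |q' - q| < η ∧ (q' : UnitAddCircle) ∈ W := by
    intro q η hη
    obtain ⟨q', h1, h2⟩ := hV (q - x0) η hη
    exact ⟨q' + x0, by rwa [show q' + x0 - q = q' - (q - x0) by ring], (hK ⟨_, h2⟩ q' rfl).1⟩
  have g3' : ∀ w z, 0 < G w z → 0 < ‖z‖ ∧ 0 < d.bump w (ang z) := fun w z h =>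
    (g3 w _ _ (norm_nonneg z)).1 (by rwa [hP.2.2.1])
  have sec : ∀ w, {y | 0 < G w y} =
      (fun p : ℝ × ℝ => p.1 • E (M (lift w) + ρ (lift w) * p.2)) '' (Ioi 0 ×ˢ Ioo (-1) 1) := by
    intro w
    refine Subset.antisymm (fun z hz => ?_) ?_
    · obtain ⟨b, c⟩ := g3' w z hz
      have e := d.bump_pos w.2 c
      rw [d.bump_eq w.2 e] at c
      obtain ⟨n, hn⟩ := (coe_iff _ _).1 (e.trans (coe_lift _).symm)
      have f := d.decomp (ang z)
      rw [hn, d.perM, d.perR, add_right_comm] at f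
      refine ⟨(‖z‖, d.Y (ang z)), ⟨b, abs_lt.1 (by linarith)⟩, ?_⟩
      simp only []
      rw [← E_int hP _ n, f, hP.2.2.1]
    · rintro _ ⟨p, hp, rfl⟩
      have q := abs_lt.2 hp.2
      refine (g3 w _ _ (le_of_lt hp.1)).2 ⟨hp.1, ?_⟩
      rw [bump_pt d w (coe_lift _) q.le]
      linarith
  have cs : ∀ w : W, Continuous fun p : ℝ × ℝ => p.1 • E (M (lift w) + ρ (lift w) * p.2) :=
    fun w => continuous_fst.smul (hP.1.comp (by fun_prop))
  obtain ⟨x0', -, m0⟩ := hW 0 1 one_pos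
  refine ⟨W, inferInstance, γ, fun w z => min (G w z) 1, ⟨⟨⟨_, m0⟩⟩, free_act I hs,
    fun w => (g1 w).min continuous_const, fun w y => le_min (g2 w y) zero_le_one,
    fun w y => min_le_right _ _, fun w w' y b c => Subtype.ext
      ((d.bump_pos w.2 (g3' w y (lt_min_iff.1 b).1).2).symm.trans
        (d.bump_pos w'.2 (g3' w' y (lt_min_iff.1 c).1).2)), fun w => ?_,
    fun h w y => by rw [g4], fun η hη y => ?_, fun h => ?_, fun w => ?_, ?_, ?_⟩⟩
  · simp only [lt_min_iff, one_pos, and_true, sec]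
    exact (isPreconnected_Ioi.prod isPreconnected_Ioo).image _ (cs w).continuousOn
  · obtain ⟨U, h1, h2⟩ := g5 η hη y
    exact ⟨U, h1, h2.mono fun w hw z hz => (min_le_left _ _).trans (hw z hz)⟩
  · have z := hγ h 0 0 le_rfl
    rwa [zero_mul, zero_smul, zero_smul] at z
  · simp only [lt_min_iff, one_pos, and_true, sec]
    refine image_closure_subset_closure_image (cs w) ⟨(0, 0), ?_, zero_smul _ _⟩
    rw [closure_prod_eq, closure_Ioi]
    exact ⟨le_refl (0 : ℝ), subset_closure ⟨by norm_num, by norm_num⟩⟩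
  · intro z
    have cz : Continuous fun p : ℝ × ℝ => p.1 • E p.2 :=
      continuous_fst.smul (hP.1.comp continuous_snd)
    refine closure_mono ?_ (image_closure_subset_closure_image cz
      (s := Ioi 0 ×ˢ {u | 0 < ρ (d.P u) ∧ |d.Y u| < 1}) ⟨(‖z‖, ang z), ?_, hP.2.2.1 z⟩)
    · rintro _ ⟨p, hp, rfl⟩
      refine ⟨⟨_, (d.pos _).1 hp.2.1⟩, lt_min ((g3 _ _ _ (le_of_lt hp.1)).2 ⟨hp.1, ?_⟩) one_pos⟩
      rw [d.bump_eq ((d.pos _).1 hp.2.1) rfl]
      linarith [hp.2.2]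
    · rw [closure_prod_eq, closure_Ioi]
      exact ⟨norm_nonneg z, d.dense_gaps hW _⟩
  · intro B l l' w0 k k' o o'
    have hl := lab_of_open hP d γ B l fun w r u hr hu =>
      k w _ (lt_min ((g3 w r u hr.le).2 ⟨hr, hu⟩) one_pos)
    have hl' := lab_of_open hP d γ B⁻¹ l' fun w r u hr hu =>
      k' w _ (lt_min ((g3 w r u hr.le).2 ⟨hr, hu⟩) one_pos)
    have sg := lab_sign hP d A I hs hγ hl hl' hW w0 (by rw [o, A.eone])
    have sg' := lab_sign hP d A I hs hγ hl' (by rwa [inv_inv]) hW w0 (by rw [o', A.eone])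
    obtain ⟨n0, k0⟩ := lab_small hP d A I hs hγ hl w0 s2 hN.neg s7
    obtain ⟨n1, k1⟩ := lab_small hP d A I hs hγ hl' w0 s2 hN.neg s7
    obtain ⟨b, c, b1, b2⟩ := lab_lift hP d hγ hl w0
    have mid : ∀ (w : W) (q : ℝ), (q : UnitAddCircle) = w →
        ∃ m : ℤ, d.P (b (M q)) - q = a (l w) + m := fun w q hq => by
      obtain ⟨m, hm⟩ := b2 w (M q) (by rw [d.P_M, hq])
      exact ⟨m, by rw [hm, d.P_int, d.P_T (A.sgn _), d.P_M, sg]; ring⟩
    refine fun w => (?_ : l w = 1)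
    focus
      obtain ⟨n, hn⟩ : ∃ n, n = max (max n0 n1) (max (N (K w)) (N (K w0))) := ⟨_, rfl⟩
      obtain ⟨r1, r2, r3, r4⟩ := hR n
      have z := p_LINE d.P (fun u => d.P (b u)) M (δ n)
        {q | (q : UnitAddCircle) ∈ W ∧ N (K q) < R n}
        {s | ∃ g : V, (s : UnitAddCircle) = g ∧ N g ≤ n} d.P_mono (d.P_cont.comp c) r1
        (fun q => by
          obtain ⟨q', g, h1, h2, h3⟩ := r4 (q - x0)
          obtain ⟨h4, h5⟩ := hK g q' h2
          exact ⟨q' + x0, ⟨h4, by rwa [h5]⟩, by rwa [show q' + x0 - q = q' - (q - x0) by ring]⟩)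
        (by
          rintro s ⟨g, h1, h2⟩ t ⟨g', h3, h4⟩ h5
          exact r3 s t g g' h1 h3 h2 h4 h5)
        (fun q hq => ⟨d.P_M q, by
          obtain ⟨m, hm⟩ := mid ⟨_, hq.1⟩ q rfl
          exact ⟨_, by rw [hm, coe_int], k0 n (by omega) ⟨_, hq.1⟩ hq.2⟩⟩)
        (fun u hu => by
          obtain ⟨s, s0, e1⟩ := b1 u
          obtain ⟨m, hm⟩ := lab_back hP d hγ hl' s0 e1 ⟨_, hu.1⟩ rfl
          have e2 := congrArg d.P hm
          rw [d.P_int, d.P_T (A.sgn _), sg'] at e2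
          refine ⟨-_, ?_, (hN.neg _).trans_le (k1 n (by omega) ⟨_, hu.1⟩ hu.2)⟩
          rw [AddSubgroup.coe_neg, ← AddCircle.coe_neg]
          exact (coe_iff _ _).2 ⟨-m, by push_cast; linarith⟩)
        (lift w) ⟨by rw [coe_lift]; exact w.2, by rw [coe_lift]; omega⟩
        (lift w0) ⟨by rw [coe_lift]; exact w0.2, by rw [coe_lift]; omega⟩
      obtain ⟨m, hm⟩ := mid w _ (coe_lift _)
      obtain ⟨m', hm'⟩ := mid w0 _ (coe_lift _)
      obtain ⟨k, hk⟩ := A.aone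
      rw [o, hk] at hm'
      exact A.inj _ (k + m' - m) (sg w) (by push_cast; linarith)

theorem realize_blocks (H : Type) [Group H] (hc : Countable H) (k j : ℕ)
    (h : ∃ φ : H →* (Fin k → (EuclideanSpace ℝ (Fin 2) ≃ₗᵢ[ℝ] EuclideanSpace ℝ (Fin 2))) ×
      (Fin j → ℤˣ), Function.Injective φ) : InClass (EuclideanSpace ℝ (Fin (2 * k + j))) H := by
  obtain ⟨φ, hφ⟩ := h
  let ψ := fun i : Fin k => (Pi.evalMonoidHom _ i).comp ((MonoidHom.fst _ _).comp φ)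
  have c : ∀ i, Countable (ψ i).range := fun i => (ψ i).rangeRestrict_surjective.countable
  choose ε a A using fun i => p_AFF _ (ψ i).range.subtype Subtype.val_injective
  choose W ac γ G S using fun i => sys_aff (A i)
  obtain ⟨γ1, G1, S1⟩ := Sys.pi S
  obtain ⟨γ0, G0, S0⟩ := sys_line
  obtain ⟨γ2, G2, S2⟩ := Sys.pi fun _ : Fin j => S0
  obtain ⟨_, β, F, S3⟩ := S1.prod S2
  have r := S3.realize hc
    ((MonoidHom.pi fun i => (ψ i).rangeRestrict).prod ((MonoidHom.snd _ _).comp φ))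
    fun g h e => hφ (Prod.ext
      (funext fun i => congrArg Subtype.val (congrFun (congrArg Prod.fst e) i))
      (congrArg Prod.snd e :))
  refine inClass_congr (ContinuousLinearEquiv.ofFinrankEq (𝕜 := ℝ) ?_).toHomeomorph r
  simp [Module.finrank_pi_fintype, mul_comm]

theorem exists_orth : ∃ o : Matrix.orthogonalGroup (Fin 2) ℝ →*
    (EuclideanSpace ℝ (Fin 2) ≃ₗᵢ[ℝ] EuclideanSpace ℝ (Fin 2)), Function.Injective o := by
  let e := (Unitary.mapEquiv (StarMulEquiv.ofClass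
    (Matrix.toEuclideanCLM (n := Fin 2) (𝕜 := ℝ)))).toMulEquiv.trans Unitary.linearIsometryEquiv
  exact ⟨e.toMonoidHom, e.injective⟩

theorem realize_orth (H : Type) [Group H] (hc : Countable H) (k j : ℕ)
    (h : ∃ φ : H →* (Fin k → Matrix.orthogonalGroup (Fin 2) ℝ) × (Fin j → ℤˣ),
      Function.Injective φ) : InClass (EuclideanSpace ℝ (Fin (2 * k + j))) H := by
  obtain ⟨φ, hφ⟩ := h
  obtain ⟨o, ho⟩ := exists_orth
  exact realize_blocks H hc k j ⟨((o.compLeft (Fin k)).prodMap (MonoidHom.id _)).comp φ,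
    (Function.Injective.prodMap ho.comp_left Function.injective_id).comp hφ⟩

end Pool.Agent.P.MP_af0fcb_gt.CG
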