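import Pool.Agent.P.MP_af0fcb_gt.SW.RIG

/-! Generic functions composed with a fixed map. -/

namespace Pool.Agent.P.MP_af0fcb_gt.CG

open Set Filter Topology Metric SW.RIGx

variable {Z M : Type} [MetricSpace Z] [ProperSpace Z] [MetricSpace M] [ProperSpace M] {p : Z → M}

theorem gen_core (hp : Continuous p) {S : Set M} (hS : IsOpen S) {g : M → ℝ}
    (hg : ContinuousOn g S) : ∃ l : BoundedContinuousFunction M ℝ,
      (∀ V, IsOpen V → (∃ y ∈ V, y ∈ S) → ∃ y ∈ V, y ∈ S ∧ IsLocalMax (fun z => g z + l z) y) ∧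
      ∀ y, p y ∈ S → ∀ y', p y' ∈ S → IsLocalMax (fun z => g (p z) + l (p z)) y →
        IsLocalMax (fun z => g (p z) + l (p z)) y' →
          g (p y) + l (p y) = g (p y') + l (p y') → p y = p y' := by
  have hc : ∀ l : BoundedContinuousFunction M ℝ, ContinuousOn (fun z => g z + l z) S := fun l =>
    hg.add l.continuous.continuousOn
  have hB := TopologicalSpace.isBasis_countableBasis M
  have hB' := TopologicalSpace.countable_countableBasis M
  have hZ := TopologicalSpace.isBasis_countableBasis Z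
  have hZ' := TopologicalSpace.countable_countableBasis Z
  have h1 : ∀ᶠ l in residual (BoundedContinuousFunction M ℝ),
      ∀ V ∈ {V ∈ TopologicalSpace.countableBasis M | (V ∩ S).Nonempty},
        l ∈ ⋃ (c : M) (ρ : ℝ) (_ : closedBall c ρ ⊆ V ∩ S), O g (closedBall c ρ) (sphere c ρ) := by
    refine (eventually_countable_ball (hB'.mono (sep_subset _ _))).mpr ?_
    rintro V ⟨hV, c, hcV⟩
    refine residual_of_dense_open (isOpen_iUnion fun _ => isOpen_iUnion fun _ =>
      isOpen_iUnion fun _ => isOpen_O _ _ _) fun l => Metric.mem_closure_iff.mpr fun t ht => ?_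
    have h2 : ∀ᶠ z in 𝓝 c, z ∈ V ∩ S ∧ g z + l z < g c + l c + t / 4 :=
      (((hB.isOpen hV).inter hS).eventually_mem hcV).and
        (((hc l).continuousAt (hS.mem_nhds hcV.2)).eventually_lt_const (by linarith))
    obtain ⟨ρ, hρ, h3⟩ := nhds_basis_closedBall.eventually_iff.mp h2
    obtain ⟨l', h4, h5⟩ := pert (g := g) (isClosed_sphere (x := c) (ε := ρ))
      (mem_closedBall_self hρ.le) (by simpa using hρ.ne) ht l
      fun z hz => (h3 (sphere_subset_closedBall hz)).2.le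
    exact ⟨l', mem_iUnion₂.mpr ⟨c, ρ, mem_iUnion.mpr ⟨fun z hz => (h3 hz).1, h4⟩⟩, h5⟩
  have h2 : ∀ᶠ l in residual (BoundedContinuousFunction M ℝ),
      ∀ q ∈ {q ∈ TopologicalSpace.countableBasis Z ×ˢ TopologicalSpace.countableBasis Z |
        IsCompact (p '' closure q.1) ∧ IsCompact (p '' closure q.2) ∧
          p '' closure q.1 ∪ p '' closure q.2 ⊆ S ∧ (p '' closure q.1).Nonempty ∧
          Disjoint (p '' closure q.1) (p '' closure q.2)},
        l ∈ O g (p '' closure q.1) (p '' closure q.2) ∪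
          O g (p '' closure q.2) (p '' closure q.1) := by
    refine (eventually_countable_ball ((hZ'.prod hZ').mono (sep_subset _ _))).mpr ?_
    rintro q ⟨-, k0, k1, k2, k3, k4⟩
    refine residual_of_dense_open ((isOpen_O _ _ _).union (isOpen_O _ _ _))
      fun l => Metric.mem_closure_iff.mpr fun t ht => ?_
    obtain ⟨y, hy, h3⟩ := (k0.union k1).exists_isMaxOn k3.inl ((hc l).mono k2)
    have h4 : ∀ z ∈ p '' closure q.1 ∪ p '' closure q.2, g z + l z ≤ g y + l y + t / 4 :=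
      fun z hz => by
        have h5 : g z + l z ≤ g y + l y := h3 hz
        linarith
    rcases hy with hy | hy
    · obtain ⟨l', h5, h6⟩ := pert k1.isClosed hy (disjoint_left.mp k4 hy) ht l
        fun z hz => h4 z (Or.inr hz)
      exact ⟨l', Or.inl h5, h6⟩
    · obtain ⟨l', h5, h6⟩ := pert k0.isClosed hy (disjoint_right.mp k4 hy) ht l
        fun z hz => h4 z (Or.inl hz)
      exact ⟨l', Or.inr h5, h6⟩
  obtain ⟨l, e1, e2⟩ := (dense_of_mem_residual (h1.and h2)).nonempty
  refine ⟨l, ?_, fun y hy y' hy' m m' e => ?_⟩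
  · rintro V hV ⟨y, hy, hyS⟩
    obtain ⟨U, hU, hyU, hUV⟩ := hB.exists_subset_of_mem_open hy hV
    obtain ⟨c, ρ, h3⟩ := mem_iUnion₂.mp (e1 U ⟨hU, y, hyU, hyS⟩)
    obtain ⟨h4, η, hη, x, hx, h5⟩ := mem_iUnion.mp h3
    obtain ⟨m, hm, h6⟩ := (isCompact_closedBall c ρ).exists_isMaxOn ⟨x, hx⟩
      ((hc l).mono fun z hz => (h4 hz).2)
    refine ⟨m, hUV (h4 hm).1, (h4 hm).2, h6.isLocalMax (closedBall_mem_nhds_of_mem ?_)⟩
    refine mem_ball.mpr (lt_of_le_of_ne (mem_closedBall.mp hm) fun h7 => ?_)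
    have h8 : g x + l x ≤ g m + l m := h6 hx
    linarith [h5 m h7]
  · by_contra hne
    have key : ∀ y, p y ∈ S → IsLocalMax (fun z => g (p z) + l (p z)) y → ∀ r > 0,
        ∃ U ∈ TopologicalSpace.countableBasis Z, y ∈ U ∧ IsCompact (p '' closure U) ∧
          ∀ z ∈ p '' closure U, (z ∈ S ∧ z ∈ ball (p y) r) ∧ g z + l z ≤ g (p y) + l (p y) := by
      intro y hy m r hr
      obtain ⟨ρ, hρ, h3⟩ := nhds_basis_closedBall.eventually_iff.mp
        ((hp.continuousAt.eventually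
          ((hS.eventually_mem hy).and (isOpen_ball.eventually_mem (mem_ball_self hr)))).and m)
      obtain ⟨U, hU, h4, h5⟩ := hZ.mem_nhds_iff.mp (closedBall_mem_nhds y hρ)
      have h6 := closure_minimal h5 isClosed_closedBall
      refine ⟨U, hU, h4,
        ((isCompact_closedBall y ρ).of_isClosed_subset isClosed_closure h6).image hp, ?_⟩
      rintro _ ⟨z, hz, rfl⟩
      exact h3 (h6 hz)
    have hr := half_pos (dist_pos.mpr hne)
    obtain ⟨U, hU, a1, a2, a3⟩ := key y hy m _ hr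
    obtain ⟨U', hU', b1, b2, b3⟩ := key y' hy' m' _ hr
    rcases e2 (U, U') ⟨⟨hU, hU'⟩, a2, b2,
      union_subset (fun z hz => (a3 z hz).1.1) fun z hz => (b3 z hz).1.1,
      ⟨_, y, subset_closure a1, rfl⟩,
      (ball_disjoint_ball (add_halves _).le).mono (fun z hz => (a3 z hz).1.2)
        fun z hz => (b3 z hz).1.2⟩ with ⟨η, hη, x, hx, h⟩ | ⟨η, hη, x, hx, h⟩
    · linarith [h _ ⟨y', subset_closure b1, rfl⟩, (a3 x hx).2]
    · linarith [h _ ⟨y, subset_closure a1, rfl⟩, (b3 x hx).2]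

theorem gen_fun (hp : Continuous p) (G : M → ℝ) (hG : Continuous G) (h0 : ∀ y, 0 ≤ G y) :
    ∃ F : M → ℝ, Continuous F ∧ (∀ y, 0 ≤ F y) ∧ (∀ y, F y ≤ G y) ∧ (∀ y, 0 < G y → 0 < F y) ∧
      (∀ V : Set M, IsOpen V → (∃ y ∈ V, 0 < G y) → ∃ y ∈ V, 0 < G y ∧ IsLocalMax F y) ∧
      ∀ y y', 0 < G (p y) → 0 < G (p y') → IsLocalMax (F ∘ p) y → IsLocalMax (F ∘ p) y' →
        F (p y) = F (p y') → p y = p y' := by
  have hS : IsOpen {y | 0 < G y} := isOpen_lt continuous_const hG
  obtain ⟨l, h1, h2⟩ := gen_core hp hS (g := fun y => Real.log (G y))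
    (hG.continuousOn.log fun y hy => ne_of_gt hy)
  have e : ∀ y, 0 < G y →
      G y * Real.exp (l y - ‖l‖) = Real.exp (Real.log (G y) + l y - ‖l‖) := fun y hy => by
    rw [add_sub_assoc, Real.exp_add, Real.exp_log hy]
  have m : ∀ y, 0 < G y → (IsLocalMax (fun y => G y * Real.exp (l y - ‖l‖)) y ↔
      IsLocalMax (fun z => Real.log (G z) + l z) y) := fun y hy =>
    eventually_congr ((hS.eventually_mem hy).mono fun z hz => by
      simp only [e z hz, e y hy, Real.exp_le_exp, sub_le_sub_iff_right])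
  have m' : ∀ y, 0 < G (p y) → (IsLocalMax ((fun y => G y * Real.exp (l y - ‖l‖)) ∘ p) y ↔
      IsLocalMax (fun z => Real.log (G (p z)) + l (p z)) y) := fun y hy =>
    eventually_congr ((hp.continuousAt.eventually (hS.eventually_mem hy)).mono fun z hz => by
      simp only [Function.comp, e _ hz, e _ hy, Real.exp_le_exp, sub_le_sub_iff_right])
  refine ⟨fun y => G y * Real.exp (l y - ‖l‖), by fun_prop,
    fun y => mul_nonneg (h0 y) (Real.exp_pos _).le, fun y => mul_le_of_le_one_right (h0 y) ?_,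
    fun y hy => mul_pos hy (Real.exp_pos _), fun V hV hy => ?_, fun y y' hy hy' a a' b => ?_⟩
  · exact Real.exp_le_one_iff.mpr (sub_nonpos.mpr ((le_abs_self _).trans (l.norm_coe_le_norm y)))
  · obtain ⟨y, a1, a2, a3⟩ := h1 V hV hy
    exact ⟨y, a1, a2, (m y a2).mpr a3⟩
  · simp only [e _ hy, e _ hy', Real.exp_eq_exp, sub_left_inj] at b
    exact h2 y hy y' hy' ((m' y hy).mp a) ((m' y' hy').mp a') b

end Pool.Agent.P.MP_af0fcb_gt.CG
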