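import Pool.Agent.P.MP_af0fcb_gt.CG.PA
import Pool.Agent.P.MP_af0fcb_gt.CG.SYS

/-! Products of a realized group with a rigid system of sectors. -/

namespace Pool.Agent.P.MP_af0fcb_gt.CG

open Set Filter Topology Metric SW SW.ABSx

theorem abs_prod {H X Y W : Type} [Group H] [MetricSpace X] [ProperSpace X] [PreconnectedSpace X]
    [MetricSpace Y] [ProperSpace Y] [MulAction H W] (γ : Act H Y) (G : W → Y → ℝ)
    (fr : ∀ (h : H) (w : W), h • w = w → h = 1) (gc : ∀ w, Continuous (G w))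
    (g0 : ∀ w y, 0 ≤ G w y) (gd : ∀ w w' y, 0 < G w y → 0 < G w' y → w = w')
    (gp : ∀ w, IsPreconnected {y | 0 < G w y}) (ge : ∀ (h : H) w y, G (h • w) (γ h y) = G w y)
    (gn : ∀ δ : ℝ, 0 < δ → ∀ y, ∃ N ∈ 𝓝 y, ∀ᶠ w in cofinite, ∀ z ∈ N, G w z ≤ δ)
    {f : X → ℝ} (cf : Continuous f)
    (so : ∀ V, IsOpen V → V.Nonempty → ∃ U, IsOpen U ∧ U.Nonempty ∧ U ⊆ f '' V) :
    ∃ F : X × Y → ℝ, Continuous F ∧ (∀ h x x' y, f x' = f x → F (x', γ h y) = F (x, y)) ∧
      ∀ A : X × Y ≃ₜ X × Y, (∀ z, F (A z) = F z) → ∀ w, ∃ h, ∀ z : X × Y, 0 < G w z.2 →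
        f (A z).1 = f z.1 ∧ (A z).2 = γ h z.2 := by
  classical
  obtain ⟨k, hk⟩ := sect fr
  have k1 : ∀ w, k (k w • w) = 1 := fun w => mul_eq_right.1 (hk _ w)
  have gz : ∀ w y, ¬0 < G w y → G w y = 0 := fun w y h => (not_lt.1 h).antisymm (g0 w y)
  obtain ⟨G0, c0, a0, b0⟩ := glue p_GL (fun w => {y | 0 < G w y ∧ k w = 1})
    (fun w y => if k w = 1 then G w y else 0) G (fun w w' y a b => gd w w' y a.1 b.1)
    (fun w => by split_ifs; exacts [gc w, continuous_const])
    (fun w y h => by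
      split_ifs with e
      exacts [gz w y fun a => h ⟨a, e⟩, rfl])
    (fun w y => by split_ifs <;> simp [g0]) gn
  replace a0 : ∀ w y, 0 < G w y → k w = 1 → G0 y = G w y := fun w y a b =>
    (a0 w y ⟨a, b⟩).trans (if_pos b)
  have p0 : ∀ y, 0 < G0 y → ∃ w, 0 < G w y ∧ k w = 1 := fun y h => by
    by_contra a
    exact h.ne' (b0 y (not_exists.1 a))
  have t0 : ∀ w y, 0 < G w y → G0 (γ (k w) y) = G w y := fun w y h =>
    (a0 _ _ (by rwa [ge]) (k1 w)).trans (ge _ _ _)
  have cp : Continuous fun z : X × Y => (f z.1, z.2) := by fun_prop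
  obtain ⟨Φ, c1, f0, f1, f2, f3, f4⟩ := gen_fun cp (fun m => G0 m.2) (c0.comp continuous_snd)
    fun m => by
      by_cases a : ∃ w, 0 < G w m.2 ∧ k w = 1
      · obtain ⟨w, a, b⟩ := a
        rw [a0 w _ a b]; exact a.le
      · exact (b0 _ (not_exists.1 a)).ge
  obtain ⟨F, c2, a2, b2⟩ := glue p_GL (fun w => {z : X × Y | 0 < G w z.2})
    (fun w z => min (Φ (f z.1, γ (k w) z.2)) (G w z.2)) (fun w z => G w z.2)
    (fun w w' z => gd w w' z.2)
    (fun w => (c1.comp ((cf.comp continuous_fst).prodMk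
      ((γ (k w)).continuous.comp continuous_snd))).min ((gc w).comp continuous_snd))
    (fun w y h => by rw [gz w _ h]; exact min_eq_right (f0 _))
    (fun w y => ⟨le_min (f0 _) (g0 _ _), min_le_right _ _⟩) fun δ hδ z => by
      obtain ⟨N, h1, h2⟩ := gn δ hδ z.2
      exact ⟨_, continuous_snd.continuousAt h1, h2.mono fun w hw y hy => hw _ hy⟩
  replace a2 : ∀ w (z : X × Y), 0 < G w z.2 → F z = Φ (f z.1, γ (k w) z.2) := fun w z h =>
    (a2 w z h).trans (min_eq_left ((f1 _).trans_eq (t0 w _ h)))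
  have inv : ∀ h x x' y, f x' = f x → F (x', γ h y) = F (x, y) := fun h x x' y e => by
    by_cases a : ∃ w, 0 < G w y
    · obtain ⟨w, a⟩ := a
      rw [a2 w (x, y) a, a2 (h • w) (x', γ h y) (by rwa [ge]), ← act_mul, hk, e]
    · rw [b2 (x, y) (not_exists.1 a), b2 _ fun w b => a ⟨h⁻¹ • w, ?_⟩]
      rwa [← ge h, smul_inv_smul]
  have mv : ∀ h (z : X × Y), IsLocalMax F z → IsLocalMax F (z.1, γ h z.2) := fun h z m =>
    lmax m ((Homeomorph.refl X).prodCongr (γ h)) fun z => inv h z.1 z.1 z.2 rfl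
  have l1 : ∀ z : X × Y, 0 < G0 z.2 → F =ᶠ[𝓝 z] Φ ∘ fun z => (f z.1, z.2) := fun y h =>
    ((isOpen_lt continuous_const (c0.comp continuous_snd)).eventually_mem h).mono fun z hz => by
      obtain ⟨w, a, b⟩ := p0 z.2 hz
      rw [a2 w z a, b, act_one]
      rfl
  have l3 : ∀ w (y : X × Y) w' (y' : X × Y), 0 < G w y.2 → 0 < G w' y'.2 → IsLocalMax F y →
      IsLocalMax F y' → F y = F y' → (f y.1, γ (k w) y.2) = (f y'.1, γ (k w') y'.2) :=
    fun w y w' y' a a' b b' e => by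
      have q := (t0 w _ a).symm ▸ a
      have q' := (t0 w' _ a').symm ▸ a'
      exact f4 (y.1, _) (y'.1, _) q q' ((mv _ _ b).congr (l1 _ q)) ((mv _ _ b').congr (l1 _ q'))
        (by rw [← a2 w y a, ← a2 w' y' a', e])
  refine ⟨F, c2, inv, fun A hA w => ?_⟩
  by_cases ne : ∃ y : X × Y, 0 < G w y.2
  swap
  · exact ⟨1, fun y a => absurd ⟨y, a⟩ ne⟩
  obtain ⟨y1, h1⟩ := ne
  have ex : ∀ y : X × Y, 0 < G w y.2 → ∃ w', 0 < G w' (A y).2 := fun y h => by
    by_contra a
    have b := f2 (f y.1, _) ((t0 w _ h).symm ▸ h)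
    rw [← a2 w y h, ← hA, b2 _ (not_exists.1 a)] at b
    exact lt_irrefl _ b
  obtain ⟨w', h2⟩ := ex y1 h1
  have op : ∀ v, IsOpen {y | 0 < G v (A y).2} := fun v =>
    isOpen_lt continuous_const ((gc v).comp A.continuous.snd)
  have sub : univ ×ˢ {y | 0 < G w y} ⊆ {y | 0 < G w' (A y).2} :=
    IsPreconnected.subset_left_of_subset_union (v := ⋃ v ≠ w', {y | 0 < G v (A y).2}) (op w')
      (isOpen_biUnion fun v _ => op v)
      (disjoint_left.2 fun y a b => by
        obtain ⟨v, c, e⟩ := mem_iUnion₂.1 b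
        exact c (gd _ _ _ e a))
      (fun y a => by
        obtain ⟨v, b⟩ := ex y a.2
        by_cases c : v = w'
        · exact Or.inl (c ▸ b)
        · exact Or.inr (mem_iUnion₂.2 ⟨v, c, b⟩))
      ⟨y1, ⟨mem_univ _, h1⟩, h2⟩ (isPreconnected_univ.prod (gp w))
  refine ⟨(k w')⁻¹ * k w, fun y hy => ?_⟩
  by_contra a
  have oo : IsOpen ({z : X × Y | (f (A z).1, (A z).2) ≠ (f z.1, γ ((k w')⁻¹ * k w) z.2)} ∩
      {z | 0 < G w z.2}) :=
    (isOpen_ne_fun (cp.comp A.continuous) ((cf.comp continuous_fst).prodMk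
      ((γ _).continuous.comp continuous_snd))).inter
      (isOpen_lt continuous_const ((gc w).comp continuous_snd))
  obtain ⟨V1, V2, o1, o2, m1, m2, hV⟩ := isOpen_prod_iff.1 oo y.1 y.2
    ⟨fun e => a (Prod.ext_iff.1 e), hy⟩
  obtain ⟨U, u1, ⟨t, ht⟩, u2⟩ := so V1 o1 ⟨_, m1⟩
  obtain ⟨⟨s, z⟩, ⟨z1, z2⟩, z3, z4⟩ := f3 (U ×ˢ (γ (k w)⁻¹ ⁻¹' V2))
    (u1.prod (o2.preimage (γ _).continuous))
    ⟨(t, γ (k w) y.2), ⟨ht, by rwa [mem_preimage, act_inv_left]⟩, (t0 w _ hy).symm ▸ hy⟩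
  obtain ⟨x, hx, rfl⟩ := u2 z1
  have m := mv (k w)⁻¹ (x, z) ((IsLocalMax.comp_continuous (g := fun z : X × Y => (f z.1, z.2))
    (b := (x, z)) z4 cp.continuousAt).congr (l1 (x, z) z3).symm)
  obtain ⟨n1, n2⟩ := hV (mk_mem_prod hx z2)
  have e := Prod.ext_iff.1
    (l3 w _ w' _ n2 (sub ⟨mem_univ _, n2⟩) m (lmax m A hA) (hA _).symm)
  refine n1 (Prod.ext e.1.symm ?_)
  simp only [] at e ⊢
  rw [act_mul, e.2, act_inv_left]

theorem Sys.realize_prod {Γ X Y W : Type} [Group Γ] [MetricSpace X] [ProperSpace X]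
    [ConnectedSpace X] [MetricSpace Y] [ProperSpace Y] [PreconnectedSpace Y] [MulAction Γ W]
    {γ : Act Γ Y} {G : W → Y → ℝ} {o : Y} (S : Sys γ G o) {H K : Type} [Group H] [Group K]
    (hH : Countable H) (hK : Countable K) {f : X → ℝ} (cf : Continuous f) (ε : H ≃* symmGroup f)
    (so : ∀ V, IsOpen V → V.Nonempty → ∃ U, IsOpen U ∧ U.Nonempty ∧ U ⊆ f '' V)
    (φ : K →* Γ) (hφ : Function.Injective φ) : InClass (X × Y) (H × K) := by
  let _ := MulAction.compHom W φ
  obtain ⟨F, f1, f2, f3⟩ := abs_prod (γ.comp φ) G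
    (fun h w e => hφ ((S.free (φ h) w e).trans (map_one φ).symm)) S.cont S.nn S.disj S.pre
    (fun h => S.inv (φ h)) S.null cf so
  obtain ⟨w0⟩ := S.ne
  obtain ⟨y0, h0⟩ := S.pt w0
  obtain ⟨x0⟩ : Nonempty X := inferInstance
  have hc : Countable (symmGroup f) := ε.surjective.countable
  let Ψ : symmGroup f × K →* symmGroup F := MonoidHom.mk'
    (fun a => ⟨a.1.1.prodCongr (γ (φ a.2)), fun z => f2 a.2 z.1 _ z.2 (a.1.2 z.1)⟩)
    fun a b => Subtype.ext (Homeomorph.ext fun z => Prod.ext rfl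
      ((congrArg (fun g => γ g z.2) (map_mul φ _ _)).trans (act_mul _ _ _ _)))
  have ind : ∀ B ∈ symmGroup F, ∀ x y, (B (x, y)).2 = (B (x0, y)).2 ∧ f (B (x, y)).1 = f x := by
    intro B hB x y
    have c : ∀ x, Continuous fun y => B (x, y) := fun x =>
      B.continuous.comp (Continuous.prodMk_right x)
    refine Prod.ext_iff.1 (congrFun (Continuous.ext_on S.dense
      ((c x).snd.prodMk (cf.comp (c x).fst)) ((c x0).snd.prodMk continuous_const) ?_) y)
    rintro y ⟨w, hw⟩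
    obtain ⟨h, hh⟩ := f3 B hB w
    exact Prod.ext ((hh (x, y) hw).2.trans (hh (x0, y) hw).2.symm) (hh (x, y) hw).1
  have rig : ∀ B : symmGroup F, (B.1 (x0, y0)).2 = y0 → ∃ A, Ψ (A, 1) = B := by
    rintro ⟨B, hB⟩ e
    have hB' := (symmGroup F).inv_mem hB
    choose l hl using f3 B hB
    choose l' hl' using f3 B⁻¹ hB'
    have bk : ∀ B ∈ symmGroup F, ∀ y, (B⁻¹ (x0, (B (x0, y)).2)).2 = y := fun B hB y =>
      ((ind _ ((symmGroup F).inv_mem hB) (B (x0, y)).1 _).1.symm.trans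
        (congrArg Prod.snd (B.symm_apply_apply (x0, y))))
    have all := S.rig
      { toFun := fun y => (B (x0, y)).2
        invFun := fun y => (B⁻¹ (x0, y)).2
        left_inv := bk B hB
        right_inv := bk B⁻¹ hB'
        continuous_toFun := (B.continuous.comp (Continuous.prodMk_right x0)).snd
        continuous_invFun := (B⁻¹.continuous.comp (Continuous.prodMk_right x0)).snd }
      (fun w => φ (l w)) (fun w => φ (l' w)) w0 (fun w y h => (hl w (x0, y) h).2)
      (fun w y h => (hl' w (x0, y) h).2)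
      (S.uniq h0 ((hl w0 (x0, y0) h0).2.symm.trans (e.trans (act_one γ y0).symm)))
      (S.uniq h0 ((hl' w0 (x0, y0) h0).2.symm.trans
        (((congrArg (fun y => (B⁻¹ (x0, y)).2) e.symm).trans (bk B hB y0)).trans
          (act_one γ y0).symm)))
    have s1 : ∀ z, (B z).2 = z.2 := fun z => (ind B hB z.1 z.2).1.trans
      (congrFun (Continuous.ext_on S.dense (B.continuous.comp (Continuous.prodMk_right x0)).snd
        continuous_id (by
          rintro y ⟨w, hw⟩
          exact (hl w (x0, y) hw).2.trans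
            ((congrArg (fun g => γ g y) (all w)).trans (act_one γ y)))) z.2)
    have s2 : ∀ z, (B⁻¹ z).2 = z.2 := fun z =>
      (s1 _).symm.trans (congrArg Prod.snd (B.apply_symm_apply z))
    let A : Y → symmGroup f := fun y =>
      ⟨{ toFun := fun x => (B (x, y)).1
         invFun := fun x => (B⁻¹ (x, y)).1
         left_inv := fun x => (congrArg (fun t => (B⁻¹ ((B (x, y)).1, t)).1)
           (s1 (x, y)).symm).trans (congrArg Prod.fst (B.symm_apply_apply (x, y)))
         right_inv := fun x => (congrArg (fun t => (B ((B⁻¹ (x, y)).1, t)).1)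
           (s2 (x, y)).symm).trans (congrArg Prod.fst (B.apply_symm_apply (x, y)))
         continuous_toFun := (B.continuous.comp (Continuous.prodMk_left y)).fst
         continuous_invFun := (B⁻¹.continuous.comp (Continuous.prodMk_left y)).fst },
        fun x => (ind B hB x y).2⟩
    refine ⟨A y0, Subtype.ext (Homeomorph.ext fun z => Prod.ext ?_ ?_)⟩
    · exact (countable_range fun g : symmGroup f => g.1 z.1).isTotallyDisconnected _
        (by
          rintro _ ⟨y, rfl⟩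
          exact ⟨A y, rfl⟩)
        (isPreconnected_range (B.continuous.comp (Continuous.prodMk_right z.1)).fst)
        ⟨y0, rfl⟩ ⟨z.2, rfl⟩
    · exact ((congrArg (fun g => γ g z.2) (map_one φ)).trans (act_one γ _)).trans (s1 z).symm
  refine ⟨inferInstance, F, f1, ⟨(ε.prodCongr (MulEquiv.refl K)).trans
    (MulEquiv.ofBijective Ψ ⟨(injective_iff_map_eq_one _).2 fun a e => ?_, fun B => ?_⟩)⟩⟩
  · have e' := fun z => congrArg (fun B : symmGroup F => B.1 z) e
    exact Prod.ext (Subtype.ext (Homeomorph.ext fun x => congrArg Prod.fst (e' (x, y0))))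
      (hφ ((S.uniq h0 ((congrArg Prod.snd (e' (x0, y0))).trans (act_one γ y0).symm)).trans
        (map_one φ).symm))
  · obtain ⟨h, hh⟩ := f3 B.1 B.2 w0
    obtain ⟨A, hA⟩ := rig (Ψ (1, h⁻¹) * B) (by
      change (γ.comp φ) h⁻¹ (B.1 _).2 = _
      rw [(hh (x0, y0) h0).2, act_inv_left])
    refine ⟨(1, h) * (A, 1), ?_⟩
    rw [map_mul, hA, ← mul_assoc, ← map_mul, Prod.mk_mul_mk, mul_one, mul_inv_cancel,
      Prod.mk_one_one, map_one, one_mul]

theorem semi_open {E : Type} [NormedAddCommGroup E] [NormedSpace ℝ E] [CompleteSpace E]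
    [Nontrivial E] {f : E → ℝ} (cf : Continuous f) (hc : Countable (symmGroup f)) (V : Set E)
    (hV : IsOpen V) (ne : V.Nonempty) : ∃ U, IsOpen U ∧ U.Nonempty ∧ U ⊆ f '' V := by
  obtain ⟨c, hc'⟩ := ne
  obtain ⟨r, hr, hb⟩ := Metric.isOpen_iff.1 hV c hc'
  have pc := ((convex_ball c r).isPreconnected.image f cf.continuousOn)
  by_cases n : ∃ x ∈ ball c r, f x ≠ f c
  · obtain ⟨x, hx, n⟩ := n
    have m : f c ∈ f '' ball c r := ⟨c, mem_ball_self hr, rfl⟩
    rcases lt_or_gt_of_ne n with h | h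
    · exact ⟨Ioo _ _, isOpen_Ioo, nonempty_Ioo.2 h, Ioo_subset_Icc_self.trans
        ((pc.Icc_subset ⟨x, hx, rfl⟩ m).trans (image_mono hb))⟩
    · exact ⟨Ioo _ _, isOpen_Ioo, nonempty_Ioo.2 h, Ioo_subset_Icc_self.trans
        ((pc.Icc_subset m ⟨x, hx, rfl⟩).trans (image_mono hb))⟩
  exfalso
  push Not at n
  have mvs : ∀ v : E, ‖v‖ ≤ 1 / 2 → ∃ A : symmGroup f, A.1 c = c + (r / 2) • v := by
    intro v hv
    have lp : LipschitzWith (1 / 2) fun x => max 0 (r / 2 - dist x c) • v := by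
      refine LipschitzWith.of_dist_le_mul fun x y => ?_
      have a : |max 0 (r / 2 - dist x c) - max 0 (r / 2 - dist y c)| ≤ dist x y := by
        rw [max_comm, max_comm 0]
        refine (abs_max_sub_max_le_abs _ _ _).trans ?_
        rw [sub_sub_sub_cancel_left, abs_sub_comm]
        exact abs_dist_sub_le x y c
      rw [dist_eq_norm, ← sub_smul, norm_smul, Real.norm_eq_abs]
      push_cast
      nlinarith [abs_nonneg (max 0 (r / 2 - dist x c) - max 0 (r / 2 - dist y c)), norm_nonneg v]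
    have ap : ApproximatesLinearOn (fun x => x + max 0 (r / 2 - dist x c) • v)
        (ContinuousLinearEquiv.refl ℝ E : E →L[ℝ] E) univ (1 / 2) := by
      refine ApproximatesLinearOn.approximatesLinearOn_iff_lipschitzOnWith.2 ?_
      convert lp.lipschitzOnWith
      simp
    refine ⟨⟨ap.toHomeomorph _ (Or.inr (by simp; norm_num)), fun x => ?_⟩, ?_⟩
    · change f (x + max 0 (r / 2 - dist x c) • v) = f x
      rcases le_total (r / 2 - dist x c) 0 with h | h
      · rw [max_eq_left h, zero_smul, add_zero]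
      · rw [max_eq_right h, n x (mem_ball.2 (by linarith)), n _ (mem_ball.2 ?_)]
        refine (dist_triangle _ x c).trans_lt ?_
        rw [dist_self_add_left, norm_smul, Real.norm_of_nonneg h]
        nlinarith [dist_nonneg (x := x) (y := c)]
    · change c + max 0 (r / 2 - dist c c) • v = _
      rw [dist_self, sub_zero, max_eq_right (by positivity)]
  obtain ⟨v, hv⟩ := exists_norm_eq E (show (0 : ℝ) ≤ 1 / 2 by norm_num)
  have z := (countable_range fun g : symmGroup f => g.1 c).isTotallyDisconnected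
    ((fun v : E => c + (r / 2) • v) '' closedBall 0 (1 / 2))
    (by
      rintro _ ⟨u, hu, rfl⟩
      exact mvs u (mem_closedBall_zero_iff.1 hu))
    ((convex_closedBall _ _).isPreconnected.image _ (by fun_prop))
    ⟨v, mem_closedBall_zero_iff.2 hv.le, rfl⟩ ⟨0, mem_closedBall_self (by norm_num), rfl⟩
  rw [smul_right_injective E (half_pos hr).ne' (add_left_cancel z), norm_zero] at hv
  norm_num at hv

end Pool.Agent.P.MP_af0fcb_gt.CG
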