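import Pool.Agent.P.MP_af0fcb_gt.CG.PB
import Pool.Agent.P.MP_af0fcb_gt.CG.Main

/-! Products of a realized group with a countable block orthogonal group. -/

namespace Pool.Agent.P.MP_af0fcb_gt.CG

open Set Filter Topology SW

theorem prod_blocks (n k j : ℕ) (H K : Type) [Group H] [Group K]
    (hH : InClass (EuclideanSpace ℝ (Fin n)) H) (hc : Countable K)
    (φ : K →* (Fin k → (EuclideanSpace ℝ (Fin 2) ≃ₗᵢ[ℝ] EuclideanSpace ℝ (Fin 2))) × (Fin j → ℤˣ))
    (hφ : Function.Injective φ) : InClass (EuclideanSpace ℝ (Fin (n + (2 * k + j)))) (H × K) := by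
  obtain ⟨hH, f, cf, ⟨e⟩⟩ := hH
  rcases n with _ | n
  · have s : ∀ a b : H, a = b := fun a b =>
      e.injective (Subtype.ext (Homeomorph.ext fun x => Subsingleton.elim _ _))
    rw [Nat.zero_add]
    exact realize_blocks (H × K) inferInstance k j ⟨φ.comp (MonoidHom.snd _ _),
      fun a b h => Prod.ext (s _ _) (hφ h)⟩
  let ψ := fun i : Fin k => (Pi.evalMonoidHom _ i).comp ((MonoidHom.fst _ _).comp φ)
  have c : ∀ i, Countable (ψ i).range := fun i => (ψ i).rangeRestrict_surjective.countable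
  choose ε a A using fun i => p_AFF _ (ψ i).range.subtype Subtype.val_injective
  choose W ac γ G S using fun i => sys_aff (A i)
  obtain ⟨γ1, G1, S1⟩ := Sys.pi S
  obtain ⟨γ0, G0, S0⟩ := sys_line
  obtain ⟨γ2, G2, S2⟩ := Sys.pi fun _ : Fin j => S0
  obtain ⟨_, β, F, S3⟩ := S1.prod S2
  have r := S3.realize_prod hH hc cf e (semi_open cf e.surjective.countable)
    ((MonoidHom.pi fun i => (ψ i).rangeRestrict).prod ((MonoidHom.snd _ _).comp φ))
    fun g h e => hφ (Prod.ext
      (funext fun i => congrArg Subtype.val (congrFun (congrArg Prod.fst e) i))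
      (congrArg Prod.snd e :))
  refine inClass_congr (ContinuousLinearEquiv.ofFinrankEq (𝕜 := ℝ) ?_).toHomeomorph r
  simp [Module.finrank_pi_fintype, mul_comm]

theorem prod_orth (n k j : ℕ) (H K : Type) [Group H] [Group K]
    (hH : InClass (EuclideanSpace ℝ (Fin n)) H) (hc : Countable K)
    (φ : K →* (Fin k → Matrix.orthogonalGroup (Fin 2) ℝ) × (Fin j → ℤˣ))
    (hφ : Function.Injective φ) : InClass (EuclideanSpace ℝ (Fin (n + (2 * k + j)))) (H × K) := by
  obtain ⟨o, ho⟩ := exists_orth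
  exact prod_blocks n k j H K hH hc (((o.compLeft (Fin k)).prodMap (MonoidHom.id _)).comp φ)
    ((Function.Injective.prodMap ho.comp_left Function.injective_id).comp hφ)

end Pool.Agent.P.MP_af0fcb_gt.CG
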