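import Pool.Agent.P.MP_af0fcb_gt.CG.IDX

/-! Homeomorphisms that agree with a group element on every sector. -/

namespace Pool.Agent.P.MP_af0fcb_gt.CG

open Set Filter Topology SW

theorem int_const {s : Set ℝ} (hs : IsPreconnected s) {k : ℝ → ℝ} (hk : ContinuousOn k s)
    (hi : ∀ u ∈ s, ∃ n : ℤ, k u = n) {u v : ℝ} (hu : u ∈ s) (hv : v ∈ s) : k u = k v := by
  have key : ∀ u ∈ s, ∀ v ∈ s, ¬k u < k v := fun u hu v hv h => by
    obtain ⟨m, hm⟩ := hi u hu
    obtain ⟨n, hn⟩ := hi v hv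
    have h1 : m + 1 ≤ n := by
      rw [hm, hn] at h
      exact_mod_cast h
    have h2 : (m : ℝ) + 1 ≤ n := by exact_mod_cast h1
    obtain ⟨z, hz, e⟩ := hs.intermediate_value hu hv hk
      (show (m : ℝ) + 1 / 2 ∈ Icc (k u) (k v) from ⟨by linarith, by linarith⟩)
    obtain ⟨p, hp⟩ := hi z hz
    have h3 : ((2 * p : ℤ) : ℝ) = (2 * m + 1 : ℤ) := by push_cast; linarith
    have h4 : 2 * p = 2 * m + 1 := by exact_mod_cast h3
    omega
  exact le_antisymm (not_lt.1 (key v hv u hu)) (not_lt.1 (key u hu v hv))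

theorem polar_inj (hP : S_POL) {r s u v : ℝ} (hr : 0 < r) (hs : 0 < s)
    (h : r • E u = s • E v) : ∃ n : ℤ, u = v + n := by
  have e := congrArg norm h
  rw [norm_smul, norm_smul, hP.2.1, hP.2.1, mul_one, mul_one, Real.norm_of_nonneg hr.le,
    Real.norm_of_nonneg hs.le] at e
  rw [e] at h
  exact (hP.2.2.2.1 _ _).1 (smul_right_injective ℂ hs.ne' h)

variable {H ι : Type} [Group H] [AddCommGroup ι] {ε a : H → ℝ} {W : Set UnitAddCircle}
  {K : UnitAddCircle → ι} {α : H → ι} {M ρ : ℝ → ℝ}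

theorem bump_pt (d : Den W M ρ) (w : W) {x y : ℝ} (hx : (x : UnitAddCircle) = w) (hy : |y| ≤ 1) :
    d.bump w (M x + ρ x * y) = 1 - |y| := by
  rw [d.bump_eq w.2 (by rw [d.P_pt x hy, hx]), d.Y_pt ((d.pos x).2 (hx ▸ w.2)) hy]

/-- `B` agrees with `γ (lab w)` on the closed sector over `w`. -/
def Lab (d : Den W M ρ) (γ : Act H ℂ) (B : ℂ ≃ₜ ℂ) (lab : W → H) : Prop :=
  ∀ (w : W) (r u : ℝ), 0 ≤ r → (d.P u : UnitAddCircle) = w → B (r • E u) = γ (lab w) (r • E u)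

theorem lab_of_open (hP : S_POL) (d : Den W M ρ) (γ : Act H ℂ) (B : ℂ ≃ₜ ℂ) (lab : W → H)
    (h : ∀ (w : W) (r u : ℝ), 0 < r → 0 < d.bump w u → B (r • E u) = γ (lab w) (r • E u)) :
    Lab d γ B lab := by
  intro w r u hr hu
  have c : Continuous fun p : ℝ × ℝ => p.1 • E (M (d.P u) + ρ (d.P u) * p.2) :=
    continuous_fst.smul (hP.1.comp (by fun_prop))
  have e : EqOn (fun p : ℝ × ℝ => B (p.1 • E (M (d.P u) + ρ (d.P u) * p.2)))
      (fun p : ℝ × ℝ => γ (lab w) (p.1 • E (M (d.P u) + ρ (d.P u) * p.2)))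
      (Ioi 0 ×ˢ Ioo (-1) 1) := fun p hp => h w _ _ hp.1 (by
    have q := abs_lt.2 hp.2
    rw [bump_pt d w hu q.le]
    linarith)
  have f := e.closure (B.continuous.comp c) ((γ _).continuous.comp c) (x := (r, d.Y u)) (by
    rw [closure_prod_eq, closure_Ioi, closure_Ioo (by norm_num)]
    exact ⟨hr, abs_le.1 (d.Y_abs u)⟩)
  simpa only [d.decomp] using f

section

variable (hP : S_POL) (d : Den W M ρ) (A : Aff ε a) (I : Idx ε a W K α) [MulAction H W]
  (hs : ∀ (h : H) (w : W) (x : ℝ), (x : UnitAddCircle) = w →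
    ((h • w : W) : UnitAddCircle) = (ε h * x + a h : ℝ))
  {σ : ι → ℝ → ℝ} {γ : Act H ℂ} (hγ : ∀ (h : H) (r u : ℝ), 0 ≤ r →
    γ h (r • E u) = (r * Real.exp (pot d K σ (d.T (ε h) (a h) u) - pot d K σ u)) •
      E (d.T (ε h) (a h) u))

include I hs in
theorem free_act (h : H) (w : W) (e : h • w = w) : h = 1 :=
  I.free h (lift w) (by rw [coe_lift]; exact w.2) (by rw [← hs h w _ (coe_lift _), e, coe_lift])

include hP A I hs hγ in
theorem lab_uniq {g h : H} (w : W) {u : ℝ} (hu : (d.P u : UnitAddCircle) = w)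
    (e : γ g (E u) = γ h (E u)) : g = h := by
  rw [← one_smul ℝ (E u), hγ g 1 u zero_le_one, hγ h 1 u zero_le_one] at e
  obtain ⟨n, hn⟩ := polar_inj hP (by positivity) (by positivity) e
  have b := P_act d A hs g w hu
  rw [hn, d.P_int, coe_int, P_act d A hs h w hu] at b
  have c := free_act I hs (g⁻¹ * h) w (by rw [mul_smul, Subtype.ext b, inv_smul_smul])
  exact inv_mul_eq_one.1 c

omit [AddCommGroup ι] [MulAction H W] in
include hγ in
theorem lab_ne {B : ℂ ≃ₜ ℂ} {lab : W → H} (hB : Lab d γ B lab) (hP : S_POL) (w0 : W) (u : ℝ) :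
    B (E u) ≠ 0 := by
  have z := hB w0 0 (M (lift w0)) le_rfl (by rw [d.P_M, coe_lift])
  rw [hγ _ 0 _ le_rfl, zero_mul, zero_smul, zero_smul] at z
  intro e
  have b := hP.2.1 u
  rw [B.injective (e.trans z.symm), norm_zero] at b
  exact zero_ne_one b

include hP A I hs hγ in
theorem lab_small {B : ℂ ≃ₜ ℂ} {lab : W → H} (hB : Lab d γ B lab) (w0 : W)
    (s2 : ∀ x, σ x 0 = 0) {N : ι → ℕ} (hN : ∀ x, N (-x) = N x) {R : ℕ → ℕ}
    (s7 : ∀ x a n, N x < R n → (∀ t, 0 < t → t ≤ 1 → |σ (x + a) t - σ x t| ≤ 1 / 4) → N a ≤ n) :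
    ∃ n0, ∀ n, n0 ≤ n → ∀ w : W, N (K w) < R n → N (α (lab w)) ≤ n := by
  have c : Continuous fun u => Real.log ‖B (E u)‖ :=
    (B.continuous.comp hP.1).norm.log fun u => norm_ne_zero_iff.2 (lab_ne d hγ hB hP w0 u)
  obtain ⟨η, hη, uc⟩ := Metric.uniformContinuousOn_iff.1
    ((isCompact_Icc (a := (-1 : ℝ)) (b := 2)).uniformContinuousOn_of_continuous c.continuousOn)
    (1 / 4) (by norm_num)
  have val : ∀ (w : W) (x y : ℝ), (x : UnitAddCircle) = w → |y| ≤ 1 →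
      Real.log ‖B (E (M x + ρ x * y))‖ =
        σ (K (lab w • w : W)) (1 - |y|) - σ (K w) (1 - |y|) := fun w x y hx hy => by
    have hu : (d.P (M x + ρ x * y) : UnitAddCircle) = w := by rw [d.P_pt x hy, hx]
    rw [← one_smul ℝ (E _), hB w 1 _ zero_le_one hu, hγ _ 1 _ zero_le_one, norm_smul, hP.2.1,
      mul_one, one_mul, Real.norm_of_nonneg (Real.exp_pos _).le, Real.log_exp, pot_eq d σ w hu,
      pot_eq d σ _ (P_act d A hs _ w hu), bump_act d A I hs, bump_pt d w hx hy]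
  have fin : {w : W | η ≤ ρ (lift w)}.Finite :=
    ((d.null η hη).preimage Subtype.val_injective.injOn).subset fun w hw => ⟨_, coe_lift _, hw⟩
  obtain ⟨n0, h0⟩ := (fin.image fun w => N (α (lab w))).bddAbove
  refine ⟨n0, fun n hn w hw => ?_⟩
  by_cases b : η ≤ ρ (lift w)
  · exact (h0 ⟨w, b, rfl⟩).trans hn
  have key : ∀ t, 0 < t → t ≤ 1 → |σ (K (lab w • w : W)) t - σ (K w) t| ≤ 1 / 4 := by
    intro t t0 t1
    obtain ⟨x, hx, x1, x2, x3⟩ : ∃ x : ℝ, (x : UnitAddCircle) = w ∧ ρ x < η ∧ 0 ≤ M x ∧ M x < 1 := by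
      refine ⟨lift w + (-⌊M (lift w)⌋ : ℤ), by rw [coe_int, coe_lift], ?_, ?_⟩
      · rw [d.perR]; exact not_le.1 b
      · rw [d.perM]
        push_cast
        constructor <;> linarith [Int.floor_le (M (lift w)), Int.lt_floor_add_one (M (lift w))]
    have y1 : |1 - t| = 1 - t := abs_of_nonneg (by linarith)
    have r0 := d.nn x
    have r1 := d.half x
    have m1 : ρ x * (1 - t) ≤ ρ x := mul_le_of_le_one_right r0 (by linarith)
    have m2 : 0 ≤ ρ x * (1 - t) := mul_nonneg r0 (by linarith)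
    have q := uc (M x + ρ x * (1 - t)) ⟨by linarith, by linarith⟩ (M x + ρ x * 1)
      ⟨by linarith, by linarith⟩ (by
        rw [Real.dist_eq]
        exact abs_lt.2 ⟨by linarith, by linarith⟩)
    rw [val w x _ hx (by rw [y1]; linarith), val w x 1 hx abs_one.le, y1, abs_one, sub_self, s2,
      s2, sub_self, dist_zero_right, sub_sub_cancel, Real.norm_eq_abs] at q
    exact q.le
  rw [hs _ w _ (coe_lift _)] at key
  rcases I.key (lab w) (lift w) (by rw [coe_lift]; exact w.2) with e | e <;>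
    rw [e, coe_lift] at key
  · exact s7 _ _ n hw key
  · exact hN _ ▸ s7 _ _ n hw key

omit [AddCommGroup ι] [MulAction H W] in
include hP hγ in
theorem lab_lift {B : ℂ ≃ₜ ℂ} {lab : W → H} (hB : Lab d γ B lab) (w0 : W) :
    ∃ b : ℝ → ℝ, Continuous b ∧ (∀ u, ∃ s : ℝ, 0 < s ∧ B (E u) = s • E (b u)) ∧
      ∀ (w : W) u, (d.P u : UnitAddCircle) = w →
        ∃ n : ℤ, b u = d.T (ε (lab w)) (a (lab w)) u + n := by
  obtain ⟨b, c, e⟩ := hP.2.2.2.2.2.2 (fun u => B (E u)) (B.continuous.comp hP.1)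
    (lab_ne d hγ hB hP w0)
  have p : ∀ u, 0 < ‖B (E u)‖ := fun u => norm_pos_iff.2 (lab_ne d hγ hB hP w0 u)
  refine ⟨b, c, fun u => ⟨_, p u, e u⟩, fun w u hu => ?_⟩
  have f := hB w 1 u zero_le_one hu
  rw [hγ _ 1 _ zero_le_one, one_smul] at f
  exact polar_inj hP (p u) (by positivity) ((e u).symm.trans f)

omit [AddCommGroup ι] [MulAction H W] in
include hP hγ in
theorem lab_back {B : ℂ ≃ₜ ℂ} {lab' : W → H} (hB' : Lab d γ B⁻¹ lab') {u v s : ℝ} (hs : 0 < s)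
    (e : B (E u) = s • E v) (w : W) (hv : (d.P v : UnitAddCircle) = w) :
    ∃ n : ℤ, u = d.T (ε (lab' w)) (a (lab' w)) v + n := by
  have f := hB' w s v hs.le hv
  rw [hγ _ s _ hs.le, ← e, show B⁻¹ (B (E u)) = E u from B.symm_apply_apply _,
    ← one_smul ℝ (E u)] at f
  exact polar_inj hP one_pos (by positivity) f

include hP A I hs hγ in
theorem lab_sign {B : ℂ ≃ₜ ℂ} {lab lab' : W → H} (hB : Lab d γ B lab) (hB' : Lab d γ B⁻¹ lab')
    (hW : ∀ q η : ℝ, 0 < η → ∃ q' : ℝ, |q' - q| < η ∧ (q' : UnitAddCircle) ∈ W) (w0 : W)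
    (h0 : ε (lab w0) = 1) (w : W) : ε (lab w) = 1 := by
  obtain ⟨b, c, e, f⟩ := lab_lift hP d hγ hB w0
  obtain ⟨b', c', -, f'⟩ := lab_lift hP d hγ hB' w0
  have g : (fun u => E (b' (b u))) = E := by
    refine Continuous.ext_on (d.dense_gaps hW) (hP.1.comp (c'.comp c)) hP.1 fun u hu => ?_
    obtain ⟨s, s0, s1⟩ := e u
    obtain ⟨n, hn⟩ := f ⟨_, (d.pos _).1 hu.1⟩ u rfl
    have m := P_act d A hs (lab ⟨_, (d.pos _).1 hu.1⟩) ⟨_, (d.pos _).1 hu.1⟩ rfl
    rw [← coe_int _ n, ← d.P_int, ← hn] at m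
    obtain ⟨k, hk⟩ := lab_back hP d hγ hB' s0 s1 _ m
    obtain ⟨l, hl⟩ := f' _ _ m
    exact (hP.2.2.2.1 _ _).2 ⟨l - k, by rw [hl]; push_cast; linarith⟩
  have inj : Function.Injective b := fun u v h => by
    have q := int_const isPreconnected_univ (k := fun u => b' (b u) - u)
      ((c'.comp c).sub continuous_id).continuousOn (fun u _ => by
        obtain ⟨n, hn⟩ := (hP.2.2.2.1 _ _).1 (congrFun g u)
        exact ⟨n, by linarith⟩) (mem_univ u) (mem_univ v)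
    simp only [h] at q
    linarith
  have dif : ∀ w : W, ∃ u v t : ℝ, u < v ∧ 0 < t ∧ b v - b u = ε (lab w) * t := fun w => by
    have p : 0 < ρ (lift w) := (d.pos _).2 (by rw [coe_lift]; exact w.2)
    have p' := (hinv d I (lab w) _).2 p
    have q := int_const isPreconnected_Icc (k := fun y => b (M (lift w) + ρ (lift w) * y) -
        d.T (ε (lab w)) (a (lab w)) (M (lift w) + ρ (lift w) * y))
      ((c.sub (d.T_cont (A.sgn _) (hinv d I _))).comp (by fun_prop)).continuousOn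
      (fun y hy => by
        obtain ⟨n, hn⟩ := f w _ (by rw [d.P_pt _ (abs_le.2 hy), coe_lift])
        exact ⟨n, by linarith⟩)
      (left_mem_Icc.2 (by norm_num)) (right_mem_Icc.2 (by norm_num))
    rw [d.T_pt _ _ p (by simp), d.T_pt _ _ p (by simp)] at q
    exact ⟨M (lift w) + ρ (lift w) * -1, M (lift w) + ρ (lift w) * 1, 2 * _, by linarith,
      mul_pos two_pos p', by linarith⟩
  rcases c.strictMono_of_inj inj with m | m
  · obtain ⟨u, v, t, h1, h2, h3⟩ := dif w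
    refine (A.sgn _).resolve_right fun q => ?_
    rw [q] at h3
    linarith [m h1]
  · obtain ⟨u, v, t, h1, h2, h3⟩ := dif w0
    rw [h0] at h3
    linarith [m h1]

end

end Pool.Agent.P.MP_af0fcb_gt.CG
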