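import Pool.Agent.P.MP_af0fcb_gt.CG.TM
import Pool.Agent.P.MP_af0fcb_gt.CG.Defs2

/-! The saddle: coordinates on the quadrants, the cocycle and the action. -/

namespace Pool.Agent.P.MP_af0fcb_gt.CG

open Set Filter Topology SW

/-- A sign as a real number. -/
def sg (e : ℤˣ) : ℝ := ((e : ℤ) : ℝ)

theorem sg_one : sg 1 = 1 := by simp [sg]

theorem sg_neg : sg (-1) = -1 := by simp [sg]

theorem sg_mul (e f : ℤˣ) : sg (e * f) = sg e * sg f := by simp [sg]

theorem sg_sq (e : ℤˣ) : sg e * sg e = 1 := by rw [← sg_mul, Int.units_mul_self, sg_one]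

theorem sg_ne (e : ℤˣ) : sg e ≠ 0 := left_ne_zero_of_mul_eq_one (sg_sq e)

theorem sg_log (e : ℤˣ) : Real.log (sg e) = 0 := by
  rcases Int.units_eq_one_or e with rfl | rfl <;> simp [sg_one, sg_neg]

theorem sg_abs (e : ℤˣ) : |sg e| = 1 := by
  rcases Int.units_eq_one_or e with rfl | rfl <;> simp [sg_one, sg_neg]

theorem sg_pos {e f : ℤˣ} (h : 0 < sg e * sg f) : e = f := by
  rcases Int.units_eq_one_or e with rfl | rfl <;> rcases Int.units_eq_one_or f with rfl | rfl <;>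
    simp only [sg_one, sg_neg] at h <;> first | rfl | linarith

theorem sg_ex {x : ℝ} (hx : x ≠ 0) : ∃ e, x = sg e * Real.exp (Real.log x) := by
  rw [Real.exp_log_eq_abs hx]
  rcases lt_or_gt_of_ne hx with h | h
  · exact ⟨-1, by rw [sg_neg, abs_of_neg h]; ring⟩
  · exact ⟨1, by rw [sg_one, abs_of_pos h]; ring⟩

/-- The point of the quadrant `q` with parameter `t` and size `r`. -/
noncomputable def pt (e : ℝ ≃o ℝ) (q : ℤˣ × ℤˣ) (t r : ℝ) : ℝ × ℝ :=
  (sg q.1 * (r * Real.exp (e t)), sg q.2 * (r * Real.exp (-e t)))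

variable (e : ℝ ≃o ℝ)

theorem pt_cont (q : ℤˣ × ℤˣ) : Continuous fun p : ℝ × ℝ => pt e q p.1 p.2 := by
  have := e.continuous
  unfold pt
  fun_prop

theorem pt_mul (q : ℤˣ × ℤˣ) (t r : ℝ) : |(pt e q t r).1 * (pt e q t r).2| = r ^ 2 := by
  have h : (pt e q t r).1 * (pt e q t r).2 = sg q.1 * (sg q.2 * r ^ 2) := by
    simp only [pt, Real.exp_neg]
    field_simp
  rw [h, abs_mul, abs_mul, sg_abs, sg_abs, one_mul, one_mul, abs_sq]

theorem pt_ne (q : ℤˣ × ℤˣ) (t : ℝ) {r : ℝ} (hr : 0 < r) :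
    (pt e q t r).1 * (pt e q t r).2 ≠ 0 := fun h => by
  have a := pt_mul e q t r
  rw [h, abs_zero] at a
  exact (pow_pos hr 2).ne a

theorem pt_slope (q : ℤˣ × ℤˣ) (t : ℝ) {r : ℝ} (hr : 0 < r) : slope2 (pt e q t r) = e t := by
  simp only [slope2, pt]
  rw [Real.log_mul (sg_ne _) (by positivity), Real.log_mul (sg_ne _) (by positivity),
    Real.log_mul hr.ne' (by positivity), Real.log_mul hr.ne' (by positivity), sg_log, sg_log,
    Real.log_exp, Real.log_exp]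
  ring

theorem pt_ex {p : ℝ × ℝ} (hp : p.1 * p.2 ≠ 0) :
    ∃ q r, 0 < r ∧ pt e q (e.symm (slope2 p)) r = p := by
  obtain ⟨a, ha⟩ := sg_ex (left_ne_zero_of_mul hp)
  obtain ⟨b, hb⟩ := sg_ex (right_ne_zero_of_mul hp)
  refine ⟨(a, b), Real.exp ((Real.log p.1 + Real.log p.2) / 2), Real.exp_pos _, Prod.ext ?_ ?_⟩
  · simp only [pt, e.apply_symm_apply, slope2, ← Real.exp_add]
    exact Eq.trans (by congr 2; ring) ha.symm
  · simp only [pt, e.apply_symm_apply, slope2, ← Real.exp_add]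
    exact Eq.trans (by congr 2; ring) hb.symm

theorem pt_zero (q : ℤˣ × ℤˣ) (t : ℝ) : pt e q t 0 = 0 := by simp [pt]

theorem pt_dense {D : Set ℝ} (hD : Dense D) :
    Dense {p | ∃ q t r, t ∈ D ∧ 0 < r ∧ pt e q t r = p} := by
  have h : Dense {p : ℝ × ℝ | p.1 * p.2 ≠ 0} :=
    ((dense_compl_singleton (0 : ℝ)).prod (dense_compl_singleton (0 : ℝ))).mono
      fun p hp => mul_ne_zero hp.1 hp.2
  refine dense_closure.1 (h.mono fun p hp => ?_)
  obtain ⟨q, r, hr, b⟩ := pt_ex e hp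
  refine closure_mono ?_ (image_closure_subset_closure_image (pt_cont e q) (s := D ×ˢ Ioi 0)
    ⟨(_, r), ?_, b⟩)
  · rintro _ ⟨z, hz, rfl⟩
    exact ⟨q, z.1, z.2, hz.1, hz.2, rfl⟩
  · rw [closure_prod_eq]
    exact ⟨hD _, subset_closure hr⟩

theorem pt_ext {Z : Type} [TopologicalSpace Z] [T2Space Z] {f g : ℝ × ℝ → Z} (cf : Continuous f)
    (cg : Continuous g) (h : ∀ q t r, 0 < r → f (pt e q t r) = g (pt e q t r)) (p : ℝ × ℝ) :
    f p = g p :=
  congrFun (Continuous.ext_on (pt_dense e dense_univ) cf cg (by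
    rintro _ ⟨q, t, r, -, hr, rfl⟩
    exact h q t r hr)) p

theorem slope_cont {p : ℝ × ℝ} (hp : p.1 * p.2 ≠ 0) : ContinuousAt slope2 p :=
  ((continuous_fst.continuousAt.log (left_ne_zero_of_mul hp)).sub
    (continuous_snd.continuousAt.log (right_ne_zero_of_mul hp))).div_const 2

theorem tend_cc {f : ℝ → ℝ} (hf : Monotone f) (hs : Function.Surjective f) :
    Tendsto f atTop atTop ∧ Tendsto f atBot atBot ∧ Tendsto f (cocompact ℝ) (cocompact ℝ) := by
  have a := hf.tendsto_atTop_atTop fun b => (hs b).imp fun _ h => h.ge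
  have b := hf.tendsto_atBot_atBot fun b => (hs b).imp fun _ h => h.le
  refine ⟨a, b, ?_⟩
  rw [cocompact_eq_atBot_atTop]
  exact b.sup_sup a

variable {W : Set UnitAddCircle} {M ρ : ℝ → ℝ} (d : Den W M ρ) {V : AddSubgroup ℝ}

theorem exists_iso : ∃ e : ℝ ≃o ℝ, ∀ t, e t = d.P t + Real.arctan t := by
  have m : StrictMono fun t => d.P t + Real.arctan t :=
    d.P_mono.add_strictMono Real.arctan_strictMono
  obtain ⟨a, b, -⟩ := tend_cc d.P_mono fun x => ⟨_, d.P_M x⟩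
  refine ⟨m.orderIsoOfSurjective _ ((d.P_cont.add Real.continuous_arctan).surjective ?_ ?_),
    fun t => rfl⟩
  · exact tendsto_atTop_add_right_of_le _ (-(Real.pi / 2)) a
      fun t => (Real.neg_pi_div_two_lt_arctan t).le
  · exact tendsto_atBot_add_right_of_ge _ (Real.pi / 2) b
      fun t => (Real.arctan_lt_pi_div_two t).le

/-- The bump of the interval over `w`. -/
noncomputable def bp (_ : Den W M ρ) (w u : ℝ) : ℝ := max 0 (1 - |u - M w| / ρ w)

theorem bp_cont (w : ℝ) : Continuous (bp d w) := by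
  unfold bp
  fun_prop

theorem bp_nn (w u : ℝ) : 0 ≤ bp d w u := le_max_left _ _

theorem bp_le (w u : ℝ) : bp d w u ≤ 1 :=
  max_le zero_le_one (sub_le_self _ (div_nonneg (abs_nonneg _) (d.nn _)))

theorem bp_eq {u : ℝ} : bp d (d.P u) u = 1 - |d.Y u| := by
  have h := d.Y_abs u
  rw [bp, Den.Y, abs_div, abs_of_nonneg (d.nn _)] at *
  exact max_eq_right (sub_nonneg.2 h)

theorem bp_pos {w u : ℝ} (hw : 0 < ρ w) (h : 0 < bp d w u) : d.P u = w := by
  rw [bp, lt_max_iff, or_iff_right (lt_irrefl _), sub_pos, div_lt_one hw] at h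
  exact d.P_eq h.le

theorem bp_zero {w u : ℝ} (h : ¬0 < bp d w u) : bp d w u = 0 :=
  le_antisymm (not_lt.1 h) (bp_nn d w u)

theorem bp_pt {x y : ℝ} (hx : 0 < ρ x) (hy : |y| ≤ 1) : bp d x (M x + ρ x * y) = 1 - |y| := by
  have h := bp_eq d (u := M x + ρ x * y)
  rwa [d.P_pt x hy, d.Y_pt hx hy] at h

open Classical in
/-- The potential of the cocycle. -/
noncomputable def pv (σ : V → ℝ → ℝ) (u : ℝ) : ℝ :=
  if h : d.P u ∈ V then σ ⟨_, h⟩ (1 - |d.Y u|) else 0

theorem pv_eq (σ : V → ℝ → ℝ) (w : V) {u : ℝ} (h : d.P u = w) :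
    pv d σ u = σ w (bp d w u) := by
  obtain ⟨w, hw⟩ := w
  obtain rfl : d.P u = w := h
  rw [pv, dif_pos hw, bp_eq]

variable (hp : ∀ x, 0 < ρ x ↔ x ∈ V)

include hp in
theorem hiv (a : V) (x : ℝ) : 0 < ρ (1 * x + a) ↔ 0 < ρ x := by
  rw [hp, hp, one_mul, V.add_mem_cancel_right a.2]

theorem P_T1 (a u : ℝ) : d.P (d.T 1 a u) = d.P u + a := by rw [d.P_T (Or.inl rfl), one_mul]

include hp in
theorem T_T1 (a : V) (b u : ℝ) : d.T 1 b (d.T 1 a u) = d.T 1 (b + a) u := by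
  rw [d.T_T (Or.inl rfl) (hiv hp a), one_mul, one_mul, add_comm]

include hp in
theorem bp_T (a w : V) (u : ℝ) : bp d (w + a : V) (d.T 1 a u) = bp d w u := by
  by_cases hu : d.P u = w
  · rw [AddSubgroup.coe_add, ← hu, ← P_T1, bp_eq, bp_eq, d.Y_T (Or.inl rfl) (hiv hp a), one_mul]
  · rw [bp_zero d fun b => hu (bp_pos d ((hp _).2 w.2) b), bp_zero d fun b => hu ?_]
    have c := bp_pos d ((hp _).2 (w + a).2) b
    rwa [P_T1, AddSubgroup.coe_add, add_left_inj] at c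

include hp in
theorem cv_val (σ : V → ℝ → ℝ) (a w : V) {u : ℝ} (hu : d.P u = w) :
    pv d σ (d.T 1 a u) - pv d σ u = σ (w + a) (bp d w u) - σ w (bp d w u) := by
  rw [pv_eq d σ w hu, pv_eq d σ (w + a) (by rw [P_T1, hu, AddSubgroup.coe_add]), bp_T d hp]

theorem cv_out (σ : V → ℝ → ℝ) (a : V) {u : ℝ} (hu : d.P u ∉ V) :
    pv d σ (d.T 1 a u) - pv d σ u = 0 := by
  rw [pv, pv, dif_neg hu, dif_neg (by rwa [P_T1, V.add_mem_cancel_right a.2]), sub_self]

include hp in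
theorem cv_cont (hGL : S_GL) {σ : V → ℝ → ℝ} (s1 : ∀ x, Continuous (σ x)) (s2 : ∀ x, σ x 0 = 0)
    (s3 : ∀ (a : V) (η : ℝ), 0 < η → ∀ᶠ x in cofinite, ∀ t, 0 ≤ t → t ≤ 1 →
      |σ (x + a) t - σ x t| ≤ η) (a : V) :
    (Continuous fun u => pv d σ (d.T 1 a u) - pv d σ u) ∧
      Tendsto (fun u => pv d σ (d.T 1 a u) - pv d σ u) (cocompact ℝ) (𝓝 0) := by
  constructor
  · refine hGL ℝ ℝ V (fun w => {u | 0 < bp d w u})
      (fun w u => σ (w + a) (bp d w u) - σ w (bp d w u)) _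
      (fun w w' u b c => Subtype.ext ((bp_pos d ((hp _).2 w.2) b).symm.trans
        (bp_pos d ((hp _).2 w'.2) c)))
      (fun w => ((s1 _).comp (bp_cont d _)).sub ((s1 _).comp (bp_cont d _)))
      (fun w u b => by rw [bp_zero d b, s2, s2, sub_self])
      (fun w u b => cv_val d hp σ a w (bp_pos d ((hp _).2 w.2) b)) (fun u b => ?_)
      fun δ hδ u => ⟨univ, univ_mem, (s3 a δ hδ).mono fun w hw z _ =>
        hw _ (bp_nn d _ _) (bp_le d _ _)⟩
    by_cases m : d.P u ∈ V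
    · rw [cv_val d hp σ a ⟨_, m⟩ rfl, bp_zero d (b ⟨_, m⟩), s2, s2, sub_self]
    · exact cv_out d σ a m
  · refine Metric.nhds_basis_closedBall.tendsto_right_iff.2 fun η hη => ?_
    have f := ((eventually_cofinite.1 (s3 a η hη)).image Subtype.val).isCompact.compl_mem_cocompact
    filter_upwards [(tend_cc d.P_mono fun x => ⟨_, d.P_M x⟩).2.2 f] with u hu
    rw [mem_closedBall_zero_iff, Real.norm_eq_abs]
    by_cases m : d.P u ∈ V
    · rw [cv_val d hp σ a ⟨_, m⟩ rfl]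
      by_contra n
      exact hu ⟨⟨_, m⟩, fun b => n (b _ (bp_nn d _ _) (bp_le d _ _)), rfl⟩
    · rw [cv_out d σ a m, abs_zero]
      exact hη.le

include hp in
theorem arc_cont (a : V) : (Continuous fun u => Real.arctan (d.T 1 a u) - Real.arctan u) ∧
    Tendsto (fun u => Real.arctan (d.T 1 a u) - Real.arctan u) (cocompact ℝ) (𝓝 0) := by
  refine ⟨(Real.continuous_arctan.comp (d.T_cont (Or.inl rfl) (hiv hp a))).sub
    Real.continuous_arctan, ?_⟩
  obtain ⟨x, y, -⟩ := tend_cc (f := d.T 1 a) (by simpa using d.T_mono (Or.inl rfl) a)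
    fun v => ⟨d.T 1 (-a : V) v, by rw [T_T1 d hp]; simp [d.T_one]⟩
  have t := Real.tendsto_arctan_atTop.mono_right nhdsWithin_le_nhds
  have b := Real.tendsto_arctan_atBot.mono_right nhdsWithin_le_nhds
  rw [cocompact_eq_atBot_atTop, tendsto_sup]
  exact ⟨by simpa using (b.comp y).sub b, by simpa using (t.comp x).sub t⟩

include hp in
theorem exists_saddle (he : ∀ t, e t = d.P t + Real.arctan t) (hGL : S_GL) (hA : S_AXE)
    {σ : V → ℝ → ℝ} (s1 : ∀ x, Continuous (σ x)) (s2 : ∀ x, σ x 0 = 0)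
    (s3 : ∀ (a : V) (η : ℝ), 0 < η → ∀ᶠ x in cofinite, ∀ t, 0 ≤ t → t ≤ 1 →
      |σ (x + a) t - σ x t| ≤ η) : ∃ γ : Act ((ℤˣ × ℤˣ) × Multiplicative V) (ℝ × ℝ),
      (∀ h q t r, 0 ≤ r → γ h (pt e q t r) = pt e (h.1 * q) (d.T 1 (h.2.toAdd : V) t)
        (r * Real.exp ((pv d σ (d.T 1 (h.2.toAdd : V) t) - pv d σ t) / 2))) ∧
      (∀ h x, γ h (x, 0) = (sg h.1.1 * Real.exp (h.2.toAdd : V) * x, 0)) ∧
      ∀ h y, γ h (0, y) = (0, sg h.1.2 * Real.exp (-(h.2.toAdd : V)) * y) := by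
  let c : V → ℝ → ℝ := fun a u => (pv d σ (d.T 1 a u) - pv d σ u) / 2
  let k : V → ℝ → ℝ := fun a u => Real.arctan (d.T 1 a u) - Real.arctan u
  let g : (ℤˣ × ℤˣ) × Multiplicative V → ℝ × ℝ → ℝ × ℝ := fun h p =>
    (sg h.1.1 * Real.exp (h.2.toAdd : V) * (p.1 * Real.exp
        (axe (fun v => c h.2.toAdd (e.symm v) + k h.2.toAdd (e.symm v)) p)),
      sg h.1.2 * Real.exp (-(h.2.toAdd : V)) * (p.2 * Real.exp
        (axe (fun v => c h.2.toAdd (e.symm v) - k h.2.toAdd (e.symm v)) p)))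
  have gc : ∀ h, Continuous (g h) := fun h => by
    obtain ⟨c1, c2⟩ := cv_cont d hp hGL s1 s2 s3 h.2.toAdd
    obtain ⟨k1, k2⟩ := arc_cont d hp h.2.toAdd
    have t := (tend_cc e.symm.monotone e.symm.surjective).2.2
    have z := hA (fun v => c h.2.toAdd (e.symm v) + k h.2.toAdd (e.symm v))
      (fun v => c h.2.toAdd (e.symm v) - k h.2.toAdd (e.symm v))
      (((c1.div_const 2).add k1).comp e.symm.continuous)
      (((c1.div_const 2).sub k1).comp e.symm.continuous)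
      (by
        have := ((c2.div_const 2).add k2).comp t
        rw [zero_div, add_zero] at this
        exact this)
      (by
        have := ((c2.div_const 2).sub k2).comp t
        rw [zero_div, sub_zero] at this
        exact this)
    exact (continuous_const.mul z.fst).prodMk (continuous_const.mul z.snd)
  have g0 : ∀ h q t r, 0 ≤ r → g h (pt e q t r) = pt e (h.1 * q) (d.T 1 (h.2.toAdd : V) t)
      (r * Real.exp (c h.2.toAdd t)) := by
    intro h q t r hr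
    rcases hr.eq_or_lt with rfl | hr
    · simp [g, pt]
    have a : e (d.T 1 (h.2.toAdd : V) t) = e t + (h.2.toAdd : V) + k h.2.toAdd t := by
      simp only [he, P_T1, k]
      ring
    simp only [g, axe, if_neg (pt_ne e q t hr), pt_slope e q t hr, e.symm_apply_apply]
    simp only [pt, a, Prod.fst_mul, Prod.snd_mul, sg_mul, Real.exp_add, Real.exp_sub, Real.exp_neg]
    refine Prod.ext ?_ ?_ <;> simp only [] <;> field_simp
  refine ⟨mkAct g gc (pt_ext e (gc 1) continuous_id fun q t r hr => ?_)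
    fun h h' => pt_ext e (gc _) ((gc _).comp (gc _)) fun q t r hr => ?_, g0, fun h x => ?_,
    fun h y => ?_⟩
  · rw [g0 _ _ _ _ hr.le]
    simp [c, d.T_one]
  · rw [g0 _ _ _ _ hr.le, g0 _ _ _ _ hr.le, g0 _ _ _ _ (by positivity),
      T_T1 d hp, mul_assoc r, ← Real.exp_add]
    simp only [c, T_T1 d hp, Prod.fst_mul, Prod.snd_mul, toAdd_mul, AddSubgroup.coe_add, mul_assoc]
    congr 3
    ring
  · simp [mkAct_apply, g, axe]
  · simp [mkAct_apply, g, axe]

end Pool.Agent.P.MP_af0fcb_gt.CG
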