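import Pool.Agent.P.MP_af0fcb_gt.CG.SA

/-! The saddle: bumps on the sectors. -/

namespace Pool.Agent.P.MP_af0fcb_gt.CG

open Set Filter Topology SW

/-- The product of the coordinates, cut off outside the quadrant `s`. -/
noncomputable def qd (s : ℤˣ × ℤˣ) (p : ℝ × ℝ) : ℝ := max 0 (sg s.1 * p.1) * max 0 (sg s.2 * p.2)

theorem qd_nn (s : ℤˣ × ℤˣ) (p : ℝ × ℝ) : 0 ≤ qd s p :=
  mul_nonneg (le_max_left _ _) (le_max_left _ _)

theorem qd_cont (s : ℤˣ × ℤˣ) : Continuous (qd s) := by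
  unfold qd
  fun_prop

theorem qd_axis (s : ℤˣ × ℤˣ) {p : ℝ × ℝ} (hp : p.1 * p.2 = 0) : qd s p = 0 := by
  rcases mul_eq_zero.1 hp with h | h <;> simp [qd, h]

theorem qd_le (s : ℤˣ × ℤˣ) (p : ℝ × ℝ) : qd s p ≤ ‖p‖ * ‖p‖ := by
  have k : ∀ a x, max 0 (sg a * x) ≤ ‖x‖ := fun a x => max_le (norm_nonneg _)
    ((le_abs_self _).trans_eq (by rw [abs_mul, sg_abs, one_mul, Real.norm_eq_abs]))
  exact mul_le_mul ((k _ _).trans (norm_fst_le p)) ((k _ _).trans (norm_snd_le p))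
    (le_max_left _ _) (norm_nonneg _)

variable (e : ℝ ≃o ℝ)

theorem qd_eq (q : ℤˣ × ℤˣ) (t : ℝ) {r : ℝ} (hr : 0 < r) : qd q (pt e q t r) = r ^ 2 := by
  simp only [qd, pt, ← mul_assoc, sg_sq, one_mul]
  rw [max_eq_right (by positivity), max_eq_right (by positivity), Real.exp_neg]
  field_simp

theorem qd_ne {s q : ℤˣ × ℤˣ} (h : q ≠ s) (t : ℝ) {r : ℝ} (hr : 0 < r) :
    qd s (pt e q t r) = 0 := by
  by_contra n
  have k : ∀ a b x, 0 < x → max 0 (sg a * (sg b * x)) ≠ 0 → b = a := fun a b x hx m => by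
    have := (le_max_left _ _).lt_of_ne' m
    rw [lt_max_iff, or_iff_right (lt_irrefl _), ← mul_assoc] at this
    exact (sg_pos ((mul_pos_iff_of_pos_right hx).1 this)).symm
  exact h (Prod.ext (k _ _ _ (by positivity) (left_ne_zero_of_mul n))
    (k _ _ _ (by positivity) (right_ne_zero_of_mul n)))

variable {W : Set UnitAddCircle} {M ρ : ℝ → ℝ} (d : Den W M ρ) {V : AddSubgroup ℝ}
  (hp : ∀ x, 0 < ρ x ↔ x ∈ V)

include hp in
theorem exists_bumps2 {σ : V → ℝ → ℝ} {L : V → ℝ} (s1 : ∀ x, Continuous (σ x))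
    (s4 : ∀ x, 0 ≤ L x) (s5 : ∀ x t, 0 ≤ t → L x * t ≤ σ x t) (s6 : Tendsto L cofinite atTop)
    (γ : Act ((ℤˣ × ℤˣ) × Multiplicative V) (ℝ × ℝ))
    (hγ : ∀ h q t r, 0 ≤ r → γ h (pt e q t r) = pt e (h.1 * q) (d.T 1 (h.2.toAdd : V) t)
      (r * Real.exp ((pv d σ (d.T 1 (h.2.toAdd : V) t) - pv d σ t) / 2))) :
    ∃ G : (ℤˣ × ℤˣ) × Multiplicative V → ℝ × ℝ → ℝ, (∀ w, Continuous (G w)) ∧
      (∀ w y, 0 ≤ G w y) ∧ (∀ w y, G w y ≤ 1) ∧
      (∀ w y, 0 < G w y ↔ ∃ t r, 0 < r ∧ 0 < bp d (w.2.toAdd : V) t ∧ pt e w.1 t r = y) ∧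
      (∀ h w y, G (h • w) (γ h y) = G w y) ∧
      ∀ δ : ℝ, 0 < δ → ∀ y, ∃ N ∈ 𝓝 y, ∀ᶠ w in cofinite, ∀ z ∈ N, G w z ≤ δ := by
  let G : (ℤˣ × ℤˣ) × Multiplicative V → ℝ × ℝ → ℝ := fun w z =>
    min (bp d (w.2.toAdd : V) (e.symm (slope2 z)))
      (qd w.1 z * Real.exp (-σ w.2.toAdd (bp d (w.2.toAdd : V) (e.symm (slope2 z)))))
  have nn : ∀ w y, 0 ≤ G w y := fun w y =>
    le_min (bp_nn d _ _) (mul_nonneg (qd_nn _ _) (Real.exp_pos _).le)
  have le : ∀ w y, G w y ≤ qd w.1 y := fun w y => (min_le_right _ _).trans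
    (mul_le_of_le_one_right (qd_nn _ _) (Real.exp_le_one_iff.2 (by
      linarith [s5 w.2.toAdd _ (bp_nn d (w.2.toAdd : V) (e.symm (slope2 y))),
        mul_nonneg (s4 w.2.toAdd) (bp_nn d (w.2.toAdd : V) (e.symm (slope2 y)))])))
  have g0 : ∀ w y, qd w.1 y = 0 → G w y = 0 := fun w y h =>
    le_antisymm ((le w y).trans_eq h) (nn w y)
  have val : ∀ (w : (ℤˣ × ℤˣ) × Multiplicative V) t r, 0 < r → G w (pt e w.1 t r) =
      min (bp d (w.2.toAdd : V) t) (r ^ 2 * Real.exp (-σ w.2.toAdd (bp d (w.2.toAdd : V) t))) :=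
    fun w t r hr => by simp only [G, pt_slope e _ _ hr, e.symm_apply_apply, qd_eq e _ _ hr]
  have gc : ∀ w, Continuous (G w) := fun w => continuous_iff_continuousAt.2 fun z => by
    by_cases hz : z.1 * z.2 = 0
    · rw [ContinuousAt, g0 _ _ (qd_axis _ hz)]
      exact squeeze_zero (nn w) (le w) (qd_axis w.1 hz ▸ (qd_cont w.1).tendsto z)
    · have c := ((bp_cont d (w.2.toAdd : V)).comp e.symm.continuous).continuousAt.comp
        (slope_cont hz)
      exact c.min ((qd_cont _).continuousAt.mul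
        (Real.continuous_exp.continuousAt.comp ((s1 _).continuousAt.comp c).neg))
  refine ⟨G, gc, nn, fun w y => (min_le_left _ _).trans (bp_le d _ _), fun w y => ⟨fun b => ?_, ?_⟩,
    fun h w => pt_ext e ((gc _).comp (γ h).continuous) (gc w) fun q t r hr => ?_,
    fun δ hδ y => ?_⟩
  · obtain ⟨q, r, hr, c⟩ := pt_ex e (p := y) fun n => b.ne' (g0 _ _ (qd_axis _ n))
    obtain rfl : q = w.1 := by
      by_contra n
      exact b.ne' (g0 _ _ (c ▸ qd_ne e n _ hr))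
    exact ⟨_, r, hr, (lt_min_iff.1 b).1, c⟩
  · rintro ⟨t, r, hr, b, rfl⟩
    rw [val w t r hr]
    exact lt_min b (by positivity)
  · rw [hγ _ _ _ _ hr.le]
    by_cases n : q = w.1
    · subst n
      have a : (h • w).2.toAdd = w.2.toAdd + h.2.toAdd := add_comm _ _
      refine (val (h • w) _ _ (by positivity)).trans ?_
      rw [val _ _ _ hr, a, bp_T d hp]
      by_cases b : 0 < bp d (w.2.toAdd : V) t
      · rw [cv_val d hp σ _ _ (bp_pos d ((hp _).2 w.2.toAdd.2) b), mul_pow, mul_assoc,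
          ← Real.exp_nat_mul, ← Real.exp_add]
        congr 3
        push_cast
        ring
      · rw [bp_zero d b, min_eq_left (by positivity), min_eq_left (by positivity)]
    · rw [g0 _ _ (qd_ne e n _ hr), g0 _ _ (qd_ne e (fun m => n (mul_left_cancel m)) _
        (by positivity))]
  · have f : Tendsto (fun w : (ℤˣ × ℤˣ) × Multiplicative V => w.2.toAdd) cofinite cofinite :=
      Tendsto.cofinite_of_finite_preimage_singleton fun b =>
        (((finite_univ (α := ℤˣ × ℤˣ)).prod (finite_singleton (Multiplicative.ofAdd b))).subset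
          fun w hw => ⟨mem_univ _, hw⟩).to_subtype
    refine ⟨Metric.ball 0 (‖y‖ + 1), Metric.isOpen_ball.mem_nhds (by simp), ?_⟩
    filter_upwards [(s6.comp f).eventually_ge_atTop ((‖y‖ + 1) * (‖y‖ + 1) / δ / δ)] with w hw z hz
    rcases le_or_gt (bp d (w.2.toAdd : V) (e.symm (slope2 z))) δ with b | b
    · exact (min_le_left _ _).trans b
    · refine (min_le_right _ _).trans ?_
      have h1 : (‖y‖ + 1) * (‖y‖ + 1) / δ ≤ L w.2.toAdd * δ := (div_le_iff₀ hδ).1 hw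
      have h2 := mul_le_mul_of_nonneg_left b.le (s4 w.2.toAdd)
      have h3 := s5 w.2.toAdd _ (bp_nn d (w.2.toAdd : V) (e.symm (slope2 z)))
      have h4 := Real.add_one_le_exp (σ w.2.toAdd (bp d (w.2.toAdd : V) (e.symm (slope2 z))))
      have h5 : (‖y‖ + 1) * (‖y‖ + 1) / δ ≤
          Real.exp (σ w.2.toAdd (bp d (w.2.toAdd : V) (e.symm (slope2 z)))) := by linarith
      have h6 := (mem_ball_zero_iff.1 hz).le
      have h7 := (qd_le w.1 z).trans (mul_le_mul h6 h6 (norm_nonneg _) (by positivity))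
      rw [Real.exp_neg, ← div_eq_mul_inv, div_le_iff₀ (Real.exp_pos _)]
      rw [div_le_iff₀ hδ] at h5
      linarith

end Pool.Agent.P.MP_af0fcb_gt.CG
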