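import Pool.Agent.P.MP_af0fcb_gt.CG.SB

/-! The saddle: homeomorphisms that agree with a group element on every sector. -/

namespace Pool.Agent.P.MP_af0fcb_gt.CG

open Set Filter Topology SW

theorem sg_const {f : ℝ → ℝ} (hf : Continuous f) (h0 : ∀ t, f t ≠ 0) {a b : ℤˣ} {u v : ℝ}
    (hu : 0 < sg a * f u) (hv : 0 < sg b * f v) : a = b := by
  by_contra n
  have k : sg a * f v < 0 := by
    rw [Int.units_ne_iff_eq_neg.1 n, ← neg_one_mul, sg_mul, sg_neg]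
    linarith
  obtain ⟨t, ht⟩ := intermediate_value_univ v u (continuous_const.mul hf : Continuous
    fun t => sg a * f t) ⟨k.le, hu.le⟩
  exact mul_ne_zero (sg_ne a) (h0 t) ht

theorem sg_fix {Z : Type} {j : ℝ → Z} {B : Z → Z} (hB : Function.Injective B)
    (hj : Function.Injective j) {a a0 s : ℤˣ} (h : B (j (sg a)) = j (sg s * sg a))
    (h0 : B (j (sg a0)) = j (sg a0)) : s = 1 := by
  by_cases n : a = a0
  · rw [n, h0] at h
    exact sg_pos (by rw [sg_one, mul_one, (mul_eq_right₀ (sg_ne a0)).1 (hj h).symm]; exact one_pos)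
  · refine (Int.units_eq_one_or s).resolve_right fun m => n ?_
    rw [m, ← sg_mul, Int.units_ne_iff_eq_neg.1 n, neg_one_mul, neg_neg, ← h0] at h
    have k := hj (hB h)
    rw [← neg_one_mul, sg_mul, sg_neg] at k
    exact absurd (by linarith) (sg_ne a0)

theorem sg_exp {a b : ℤˣ} {x y z : ℝ} (hz : z ≠ 0)
    (h : sg a * Real.exp x * z = sg b * Real.exp y * z) : x = y := by
  have k := congrArg abs (mul_right_cancel₀ hz h)
  rwa [abs_mul, abs_mul, sg_abs, sg_abs, one_mul, one_mul, Real.abs_exp, Real.abs_exp,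
    Real.exp_eq_exp] at k

variable (e : ℝ ≃o ℝ)

theorem pt_quad (q : ℤˣ × ℤˣ) {x y : ℝ} (hx : 0 < x) (hy : 0 < y) :
    ∃ t r, 0 < r ∧ pt e q t r = (sg q.1 * x, sg q.2 * y) := by
  refine ⟨e.symm ((Real.log x - Real.log y) / 2), Real.exp ((Real.log x + Real.log y) / 2),
    Real.exp_pos _, Prod.ext ?_ ?_⟩
  · simp only [pt, e.apply_symm_apply, ← Real.exp_add]
    exact congrArg _ (Eq.trans (by congr 1; ring) (Real.exp_log hx))
  · simp only [pt, e.apply_symm_apply, ← Real.exp_add]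
    exact congrArg _ (Eq.trans (by congr 1; ring) (Real.exp_log hy))

variable {W : Set UnitAddCircle} {M ρ : ℝ → ℝ} (d : Den W M ρ) {V : AddSubgroup ℝ}
  (hp : ∀ x, 0 < ρ x ↔ x ∈ V)

theorem edge_closure (hD : Dense {u | 0 < ρ (d.P u) ∧ |d.Y u| < 1}) {t : ℝ}
    (ht : ¬0 < ρ (d.P t)) : t ∈ closure {u | 0 < ρ (d.P u) ∧ |d.Y u| = 1} := by
  refine Metric.mem_closure_iff.2 fun η hη => ?_
  obtain ⟨u, hu, b⟩ := Metric.mem_closure_iff.1 (hD t) η hη
  obtain ⟨b1, b2⟩ := abs_lt.1 (Real.dist_eq _ _ ▸ b)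
  obtain ⟨c1, c2⟩ := abs_le.1 (d.P_spec u)
  have k : ∀ y : ℝ, |y| = 1 → M (d.P u) + ρ (d.P u) * y ∈ {u | 0 < ρ (d.P u) ∧ |d.Y u| = 1} :=
    fun y hy => ⟨by rw [d.P_pt _ hy.le]; exact hu.1, by rw [d.Y_pt hu.1 hy.le, hy]⟩
  rcases lt_abs.1 (not_le.1 fun m => ht ((d.P_eq m).symm ▸ hu.1) : ρ (d.P u) < |t - M (d.P u)|)
    with m | m
  · exact ⟨_, k 1 abs_one, by rw [Real.dist_eq]; exact abs_lt.2 ⟨by linarith, by linarith⟩⟩
  · exact ⟨_, k (-1) (by simp), by rw [Real.dist_eq]; exact abs_lt.2 ⟨by linarith, by linarith⟩⟩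

include d in
theorem box {x y S : ℝ} (hx : |x| ≤ S) (hy : |y| ≤ 1) :
    M x + ρ x * y ∈ Icc (M (-S - 1)) (M (S + 1)) := by
  obtain ⟨x1, x2⟩ := abs_le.1 hx
  obtain ⟨y1, y2⟩ := abs_le.1 hy
  have a := d.gap (-S - 1) x (by linarith)
  have b := d.gap x (S + 1) (by linarith)
  constructor <;> nlinarith [d.nn x, d.nn (-S - 1), d.nn (S + 1)]

include d in
theorem big_fin (S : ℝ) {η : ℝ} (hη : 0 < η) : {x | |x| ≤ S ∧ η ≤ ρ x}.Finite := by
  refine ((d.null η hη).biUnion fun z _ => (finite_Icc ⌈-S - lift z⌉ ⌊S - lift z⌋).image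
    fun n : ℤ => lift z + n).subset fun x hx => ?_
  obtain ⟨n, hn⟩ := (coe_iff x _).1 (coe_lift _).symm
  obtain ⟨x1, x2⟩ := abs_le.1 hx.1
  exact mem_biUnion (x := (x : UnitAddCircle)) ⟨x, rfl, hx.2⟩
    ⟨n, ⟨Int.ceil_le.2 (by linarith), Int.le_floor.2 (by linarith)⟩, hn.symm⟩

/-- `B` agrees with `γ (l w)` on the closed sector over `w`. -/
def Lab2 (γ : Act ((ℤˣ × ℤˣ) × Multiplicative V) (ℝ × ℝ)) (B : ℝ × ℝ ≃ₜ ℝ × ℝ)
    (l : (ℤˣ × ℤˣ) × Multiplicative V → (ℤˣ × ℤˣ) × Multiplicative V) : Prop :=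
  ∀ q (w : V) t r, 0 < r → d.P t = w →
    B (pt e q t r) = γ (l (q, Multiplicative.ofAdd w)) (pt e q t r)

include hp in
theorem lab2_of_open (γ : Act ((ℤˣ × ℤˣ) × Multiplicative V) (ℝ × ℝ)) (B : ℝ × ℝ ≃ₜ ℝ × ℝ)
    (l : (ℤˣ × ℤˣ) × Multiplicative V → (ℤˣ × ℤˣ) × Multiplicative V)
    (h : ∀ w t r, 0 < r → 0 < bp d (w.2.toAdd : V) t →
      B (pt e w.1 t r) = γ (l w) (pt e w.1 t r)) : Lab2 e d γ B l := by
  intro q w t r hr ht
  have c : Continuous fun y : ℝ => pt e q (M w + ρ w * y) r :=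
    (pt_cont e q).comp (by fun_prop : Continuous fun y : ℝ => (M w + ρ w * y, r))
  have k : EqOn (fun y : ℝ => B (pt e q (M w + ρ w * y) r))
      (fun y : ℝ => γ (l (q, Multiplicative.ofAdd w)) (pt e q (M w + ρ w * y) r)) (Ioo (-1) 1) :=
    fun y hy => h (q, Multiplicative.ofAdd w) _ _ hr (by
      have m := abs_lt.2 hy
      rw [toAdd_ofAdd, bp_pt d ((hp _).2 w.2) m.le]
      linarith)
  have f := k.closure (B.continuous.comp c) ((γ _).continuous.comp c) (x := d.Y t) (by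
    rw [closure_Ioo (by norm_num)]
    exact abs_le.1 (d.Y_abs t))
  simpa only [← ht, d.decomp] using f

section

variable {e d} {σ : V → ℝ → ℝ} {γ : Act ((ℤˣ × ℤˣ) × Multiplicative V) (ℝ × ℝ)}
  (hγ : ∀ h q t r, 0 ≤ r → γ h (pt e q t r) = pt e (h.1 * q) (d.T 1 (h.2.toAdd : V) t)
    (r * Real.exp ((pv d σ (d.T 1 (h.2.toAdd : V) t) - pv d σ t) / 2)))
  {B : ℝ × ℝ ≃ₜ ℝ × ℝ} {l l' : (ℤˣ × ℤˣ) × Multiplicative V → (ℤˣ × ℤˣ) × Multiplicative V}

theorem lab2_cont (q : ℤˣ × ℤˣ) : Continuous fun t => B (pt e q t 1) :=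
  B.continuous.comp ((pt_cont e q).comp (by fun_prop : Continuous fun t : ℝ => (t, (1 : ℝ))))

include hp hγ in
theorem lab2_val (hB : Lab2 e d γ B l) (q : ℤˣ × ℤˣ) (w : V) {t : ℝ} (ht : d.P t = w) :
    |(B (pt e q t 1)).1 * (B (pt e q t 1)).2| = Real.exp
      (σ (w + (l (q, Multiplicative.ofAdd w)).2.toAdd) (bp d w t) - σ w (bp d w t)) := by
  rw [hB q w t 1 one_pos ht, hγ _ _ _ _ zero_le_one, pt_mul, one_mul, cv_val d hp σ _ w ht,
    ← Real.exp_nat_mul]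
  congr 1
  push_cast
  ring

include hp hγ in
theorem lab2_ne (hB : Lab2 e d γ B l) (hD : Dense {u | 0 < ρ (d.P u) ∧ |d.Y u| < 1})
    (s2 : ∀ x, σ x 0 = 0) (q : ℤˣ × ℤˣ) (t : ℝ) :
    (B (pt e q t 1)).1 * (B (pt e q t 1)).2 ≠ 0 := by
  rw [← abs_pos]
  by_cases ht : 0 < ρ (d.P t)
  · rw [lab2_val hp hγ hB q ⟨_, (hp _).1 ht⟩ rfl]
    exact Real.exp_pos _
  have c := lab2_cont (e := e) (B := B) q
  have k : EqOn (fun t => |(B (pt e q t 1)).1 * (B (pt e q t 1)).2|) (fun _ => 1)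
      {u | 0 < ρ (d.P u) ∧ |d.Y u| = 1} := fun u hu => by
    obtain ⟨h1, h2⟩ := hu
    have m := lab2_val hp hγ hB q ⟨_, (hp _).1 h1⟩ rfl
    rwa [bp_eq, h2, sub_self, s2, s2, sub_self, Real.exp_zero] at m
  exact one_pos.trans_eq
    (k.closure (c.fst.mul c.snd).abs continuous_const (edge_closure d hD ht)).symm

include hp hγ in
theorem lab2_small (hB : Lab2 e d γ B l) (hD : Dense {u | 0 < ρ (d.P u) ∧ |d.Y u| < 1})
    (s2 : ∀ x, σ x 0 = 0) {N : V → ℕ} {R : ℕ → ℕ}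
    (s7 : ∀ x a n, N x < R n → (∀ t, 0 < t → t ≤ 1 → |σ (x + a) t - σ x t| ≤ 1 / 4) → N a ≤ n)
    (S : ℝ) : ∀ᶠ n in atTop, ∀ q, ∀ w : V, |(w : ℝ)| ≤ S → N w < R n →
      N (l (q, Multiplicative.ofAdd w)).2.toAdd ≤ n := by
  refine eventually_all.2 fun q => ?_
  have c0 := lab2_cont (e := e) (B := B) q
  have c : Continuous fun t => Real.log |(B (pt e q t 1)).1 * (B (pt e q t 1)).2| :=
    (c0.fst.mul c0.snd).abs.log fun t => abs_ne_zero.2 (lab2_ne hp hγ hB hD s2 q t)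
  obtain ⟨η, hη, uc⟩ := Metric.uniformContinuousOn_iff.1
    ((isCompact_Icc (a := M (-S - 1)) (b := M (S + 1))).uniformContinuousOn_of_continuous
      c.continuousOn) (1 / 4) (by norm_num)
  obtain ⟨n0, h0⟩ := (((big_fin d S hη).preimage (f := fun w : V => (w : ℝ))
    Subtype.val_injective.injOn).image
      fun w => N (l (q, Multiplicative.ofAdd w)).2.toAdd).bddAbove
  filter_upwards [eventually_ge_atTop n0] with n hn w hS hw
  by_cases b : η ≤ ρ w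
  · exact (h0 ⟨w, ⟨hS, b⟩, rfl⟩).trans hn
  refine s7 w _ n hw fun t t0 t1 => ?_
  have p := (hp _).2 w.2
  have y1 : |1 - t| = 1 - t := abs_of_nonneg (by linarith)
  have y2 : |1 - t| ≤ 1 := by rw [y1]; linarith
  have m := uc _ (box d hS y2) _ (box d hS abs_one.le) (by
    rw [Real.dist_eq]
    exact abs_lt.2 ⟨by nlinarith [not_le.1 b], by nlinarith [not_le.1 b]⟩)
  rw [lab2_val hp hγ hB q w (d.P_pt _ y2), lab2_val hp hγ hB q w (d.P_pt _ abs_one.le),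
    bp_pt d p y2, bp_pt d p abs_one.le, y1, abs_one, sub_self, s2, s2, sub_self, Real.log_exp,
    Real.log_exp, dist_zero_right, sub_sub_cancel, Real.norm_eq_abs] at m
  exact m.le

include hp hγ in
theorem lab2_shift (hL : S_LINE2) (hB : Lab2 e d γ B l) (hB' : Lab2 e d γ B⁻¹ l')
    (hD : Dense {u | 0 < ρ (d.P u) ∧ |d.Y u| < 1}) (s2 : ∀ x, σ x 0 = 0) {N : V → ℕ}
    (hN : ∀ x, N (-x) = N x) {R : ℕ → ℕ}
    (s7 : ∀ x a n, N x < R n → (∀ t, 0 < t → t ≤ 1 → |σ (x + a) t - σ x t| ≤ 1 / 4) → N a ≤ n)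
    {δ : ℕ → ℝ} (hR : ∀ n, 0 < δ n ∧ δ n ≤ 1 ∧ n < R n ∧
      (∀ g g' : V, N g ≤ n → N g' ≤ n → (g : ℝ) ≠ g' → δ n ≤ |(g : ℝ) - g'|) ∧
      ∀ q : ℝ, |q| ≤ n → ∃ g : V, |(g : ℝ) - q| < δ n / 8 ∧ N g < R n)
    (q : ℤˣ × ℤˣ) (w w' : V) :
    (l (q, Multiplicative.ofAdd w)).2 = (l (q, Multiplicative.ofAdd w')).2 := by
  let ψ : ℝ → ℝ := fun t => d.P (e.symm (slope2 (B (pt e q t 1))))
  have c : Continuous ψ := (d.P_cont.comp e.symm.continuous).comp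
    (continuous_iff_continuousAt.2 fun t =>
      ContinuousAt.comp (f := fun t => B (pt e q t 1)) (slope_cont (lab2_ne hp hγ hB hD s2 q t))
        (lab2_cont q).continuousAt)
  have mid : ∀ v : V, ψ (M v) - v = ((l (q, Multiplicative.ofAdd v)).2.toAdd : V) := fun v => by
    simp only [ψ]
    rw [hB q v _ 1 one_pos (d.P_M _), hγ _ _ _ _ zero_le_one, pt_slope e _ _ (by positivity),
      e.symm_apply_apply, P_T1, d.P_M, add_sub_cancel_left]
  have back : ∀ u (v : V), ψ u = v →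
      ∃ s, ψ u - d.P u = (-(l' (s, Multiplicative.ofAdd v)).2.toAdd : V) := fun u v hv => by
    obtain ⟨s, r, hr, b⟩ := pt_ex e (lab2_ne hp hγ hB hD s2 q u)
    have f := hB' s v _ r hr hv
    rw [hγ _ _ _ _ hr.le, b, show B⁻¹ (B (pt e q u 1)) = pt e q u 1 from B.symm_apply_apply _] at f
    have g := congrArg (fun p => d.P (e.symm (slope2 p))) f
    simp only [pt_slope e _ _ one_pos, pt_slope e _ _ (mul_pos hr (Real.exp_pos _)),
      e.symm_apply_apply, P_T1] at g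
    exact ⟨s, by rw [AddSubgroup.coe_neg, g]; exact sub_add_cancel_left _ _⟩
  obtain ⟨a, ha⟩ : ∃ a : ℝ, a = |(w : ℝ)| + |(w' : ℝ)| + 1 := ⟨_, rfl⟩
  have a0 : 0 ≤ a := by rw [ha]; positivity
  obtain ⟨C, hC⟩ := (isCompact_Icc (a := M (-a - 1)) (b := M (a + 1))).exists_bound_of_continuousOn
    c.continuousOn
  have bd : ∀ u, d.P u ∈ Icc (-a) a → |ψ u| + 1 ≤ max a (C + 1) := fun u hu => by
    have m := box d (abs_le.2 hu) (d.Y_abs u)
    rw [d.decomp] at m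
    exact le_max_of_le_right (add_le_add_left (hC u m) 1)
  obtain ⟨n, ⟨k0, k1⟩, k2, k3, k4⟩ := (((lab2_small hp hγ hB hD s2 s7 (max a (C + 1))).and
    (lab2_small hp hγ hB' hD s2 s7 (max a (C + 1)))).and
      ((tendsto_natCast_atTop_atTop.eventually_ge_atTop (max a (C + 1))).and
        ((eventually_ge_atTop (N w)).and (eventually_ge_atTop (N w'))))).exists
  obtain ⟨r1, r2, r3, r4, r5⟩ := hR n
  have z := hL d.P ψ M (δ n) (max a (C + 1)) (-a) a {x | ∃ g : V, x = g ∧ N g < R n}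
    {s | ∃ g : V, s = g ∧ N g ≤ n} d.P_mono c r1
    (fun x hx => by
      obtain ⟨g, h1, h2⟩ := r5 x (hx.trans k2)
      exact ⟨g, ⟨g, rfl, h2⟩, h1⟩)
    (by rw [abs_neg, abs_of_nonneg a0]; exact le_max_left _ _)
    (by rw [abs_of_nonneg a0]; exact le_max_left _ _)
    (fun u hu => by linarith [bd u hu])
    (by
      rintro _ ⟨g, rfl, h1⟩ _ ⟨g', rfl, h2⟩ h3
      exact r4 g g' h1 h2 h3)
    (by
      rintro _ ⟨g, rfl, h1⟩ h2
      exact ⟨d.P_M _, _, mid g, k0 q g ((abs_le.2 h2).trans (le_max_left _ _)) h1⟩)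
    (by
      rintro u hu ⟨g, h1, h2⟩
      obtain ⟨s, hs⟩ := back u g h1
      exact ⟨_, hs, (hN _).trans_le (k1 s g (by linarith [bd u hu, h1 ▸ bd u hu]) h2)⟩)
    w ⟨w, rfl, by omega⟩ w' ⟨w', rfl, by omega⟩
    ⟨by linarith [neg_abs_le (w : ℝ), abs_nonneg (w' : ℝ)],
      by linarith [le_abs_self (w : ℝ), abs_nonneg (w' : ℝ)]⟩
    ⟨by linarith [neg_abs_le (w' : ℝ), abs_nonneg (w : ℝ)],
      by linarith [le_abs_self (w' : ℝ), abs_nonneg (w : ℝ)]⟩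
  rw [mid, mid] at z
  exact Multiplicative.toAdd.injective (Subtype.ext z)

include hp hγ in
theorem lab2_sign (hB : Lab2 e d γ B l) (hD : Dense {u | 0 < ρ (d.P u) ∧ |d.Y u| < 1})
    (s2 : ∀ x, σ x 0 = 0) (q : ℤˣ × ℤˣ) (w w' : V) :
    (l (q, Multiplicative.ofAdd w)).1 = (l (q, Multiplicative.ofAdd w')).1 := by
  have c := lab2_cont (e := e) (B := B) q
  have k : ∀ v : V,
      0 < sg ((l (q, Multiplicative.ofAdd v)).1 * q).1 * (B (pt e q (M v) 1)).1 ∧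
        0 < sg ((l (q, Multiplicative.ofAdd v)).1 * q).2 * (B (pt e q (M v) 1)).2 := fun v => by
    rw [hB q v _ 1 one_pos (d.P_M _), hγ _ _ _ _ zero_le_one]
    simp only [pt, ← mul_assoc, sg_sq]
    constructor <;> positivity
  exact mul_right_cancel (Prod.ext
    (sg_const c.fst (fun t => left_ne_zero_of_mul (lab2_ne hp hγ hB hD s2 q t)) (k w).1 (k w').1)
    (sg_const c.snd (fun t => right_ne_zero_of_mul (lab2_ne hp hγ hB hD s2 q t)) (k w).2 (k w').2))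

include hp in
theorem lab2_glue (hB : Lab2 e d γ B l) (hD : Dense {u | 0 < ρ (d.P u) ∧ |d.Y u| < 1})
    (hx : ∀ h x, γ h (x, 0) = (sg h.1.1 * Real.exp (h.2.toAdd : V) * x, 0))
    (hy : ∀ h y, γ h (0, y) = (0, sg h.1.2 * Real.exp (-(h.2.toAdd : V)) * y))
    (hc : ∀ q w w', l (q, w) = l (q, w')) (w0 : (ℤˣ × ℤˣ) × Multiplicative V) (o : l w0 = 1)
    (w : (ℤˣ × ℤˣ) × Multiplicative V) : l w = 1 := by
  have all : ∀ (v : (ℤˣ × ℤˣ) × Multiplicative V) t r, 0 < r →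
      B (pt e v.1 t r) = γ (l v) (pt e v.1 t r) := fun v t r hr => by
    have c : Continuous fun t : ℝ => pt e v.1 t r :=
      (pt_cont e v.1).comp (by fun_prop : Continuous fun t : ℝ => (t, r))
    exact congrFun (Continuous.ext_on hD (B.continuous.comp c) ((γ (l v)).continuous.comp c)
      fun u hu => (hB v.1 ⟨_, (hp _).1 hu.1⟩ u r hr rfl).trans (by rw [hc v.1 _ v.2]; rfl)) t
  have cl : ∀ (v : (ℤˣ × ℤˣ) × Multiplicative V) x y, 0 ≤ x → 0 ≤ y →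
      B (sg v.1.1 * x, sg v.1.2 * y) = γ (l v) (sg v.1.1 * x, sg v.1.2 * y) := by
    intro v x y x0 y0
    have c : Continuous fun p : ℝ × ℝ => (sg v.1.1 * p.1, sg v.1.2 * p.2) := by fun_prop
    have k : EqOn (fun p : ℝ × ℝ => B (sg v.1.1 * p.1, sg v.1.2 * p.2))
        (fun p : ℝ × ℝ => γ (l v) (sg v.1.1 * p.1, sg v.1.2 * p.2)) (Ioi 0 ×ˢ Ioi 0) := by
      intro p m
      obtain ⟨t, r, hr, b⟩ := pt_quad e v.1 m.1 m.2
      simp only [← b, all v t r hr]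
    exact k.closure (B.continuous.comp c) ((γ _).continuous.comp c) (x := (x, y)) (by
      rw [closure_prod_eq, closure_Ioi]
      exact ⟨x0, y0⟩)
  have X : ∀ v : (ℤˣ × ℤˣ) × Multiplicative V, B (sg v.1.1, 0) =
      (sg (l v).1.1 * Real.exp ((l v).2.toAdd : V) * sg v.1.1, 0) := fun v => by
    have k := cl v 1 0 zero_le_one le_rfl
    rwa [mul_one, mul_zero, hx] at k
  have Y : ∀ v : (ℤˣ × ℤˣ) × Multiplicative V, B (0, sg v.1.2) =
      (0, sg (l v).1.2 * Real.exp (-((l v).2.toAdd : V)) * sg v.1.2) := fun v => by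
    have k := cl v 0 1 le_rfl zero_le_one
    rwa [mul_one, mul_zero, hy] at k
  have a1 := sg_exp (sg_ne _) (congrArg Prod.snd ((Y ((w.1.1, w0.1.2), w.2)).symm.trans (Y w0)))
  have a2 := sg_exp (sg_ne _) (congrArg Prod.fst ((X w).symm.trans (X ((w.1.1, w0.1.2), w.2))))
  have a3 : (((l w).2.toAdd : V) : ℝ) = 0 := by
    rw [a2, neg_injective a1, o]
    rfl
  have X0 := X w0
  have Y0 := Y w0
  have X1 := X w
  have Y1 := Y w
  simp only [o, a3, Prod.fst_one, Prod.snd_one, toAdd_one, ZeroMemClass.coe_zero, neg_zero,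
    Real.exp_zero, sg_one, mul_one, one_mul] at X0 Y0 X1 Y1
  exact Prod.ext (Prod.ext
    (sg_fix (j := fun x => (x, (0 : ℝ))) B.injective (fun _ _ h => congrArg Prod.fst h) X1 X0)
    (sg_fix (j := fun x => ((0 : ℝ), x)) B.injective (fun _ _ h => congrArg Prod.snd h) Y1 Y0))
    (Multiplicative.toAdd.injective (Subtype.ext a3))

end

end Pool.Agent.P.MP_af0fcb_gt.CG
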