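import Pool.Agent.P.MP_af0fcb_gt.CG.SC
import Pool.Agent.P.MP_af0fcb_gt.CG.Main

/-! The saddle system and commutative groups in the plane. -/

namespace Pool.Agent.P.MP_af0fcb_gt.CG

open Set Filter Topology SW

theorem sys_saddle (hL : S_LINE2) (hT : S_NET2) (hA : S_AXE) (V : AddSubgroup ℝ) [Countable V]
    (h1 : (1 : ℝ) ∈ V) (hV : Dense (V : Set ℝ)) :
    ∃ (γ : Act ((ℤˣ × ℤˣ) × Multiplicative V) (ℝ × ℝ))
      (G : (ℤˣ × ℤˣ) × Multiplicative V → ℝ × ℝ → ℝ), Sys γ G 0 := by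
  obtain ⟨M, ρ, d⟩ := p_DEN ((fun x : ℝ => (x : UnitAddCircle)) '' V)
    ((countable_coe_iff.1 inferInstance).image _)
  have hp : ∀ x, 0 < ρ x ↔ x ∈ V := fun x => (d.pos x).trans ⟨by
    rintro ⟨y, hy, b⟩
    obtain ⟨n, rfl⟩ := (coe_iff _ _).1 b.symm
    exact V.add_mem hy (by simpa using V.zsmul_mem h1 n), fun b => ⟨x, b, rfl⟩⟩
  have hD := d.dense_gaps fun q η hη => by
    obtain ⟨y, hy, b⟩ := Metric.mem_closure_iff.1 (hV q) η hη
    exact ⟨y, by rwa [abs_sub_comm], y, hy, rfl⟩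
  obtain ⟨N, hN⟩ := p_RANK V
  obtain ⟨δ, R, hR⟩ := hT V N hN.fin hV
  obtain ⟨σ, L, s1, s2, s4, s5, s6, s3, s7⟩ := p_SIG V N R hN
  obtain ⟨e, he⟩ := exists_iso d
  obtain ⟨γ, hγ, hx, hy⟩ := exists_saddle e d hp he p_GL hA s1 s2 s3
  obtain ⟨G, g1, g2, g6, g3, g4, g5⟩ := exists_bumps2 e d hp s1 s4 s5 s6 γ hγ
  have sec : ∀ w, {y | 0 < G w y} = (fun p : ℝ × ℝ =>
      pt e w.1 (M (w.2.toAdd : V) + ρ (w.2.toAdd : V) * p.2) p.1) '' (Ioi 0 ×ˢ Ioo (-1) 1) := by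
    intro w
    have p := (hp _).2 w.2.toAdd.2
    refine Subset.antisymm (fun z hz => ?_) ?_
    · obtain ⟨t, r, hr, b, rfl⟩ := (g3 w z).1 hz
      have c := bp_pos d p b
      rw [← c, bp_eq] at b
      exact ⟨(r, d.Y t), ⟨hr, abs_lt.1 (by linarith)⟩, by simp only [← c, d.decomp]⟩
    · rintro _ ⟨z, hz, rfl⟩
      have q := abs_lt.2 hz.2
      exact (g3 w _).2 ⟨_, _, hz.1, by rw [bp_pt d p q.le]; linarith, rfl⟩
  have cs : ∀ w : (ℤˣ × ℤˣ) × Multiplicative V, Continuous fun p : ℝ × ℝ =>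
      pt e w.1 (M (w.2.toAdd : V) + ρ (w.2.toAdd : V) * p.2) p.1 := fun w =>
    (pt_cont e w.1).comp (by fun_prop : Continuous fun p : ℝ × ℝ =>
      (M (w.2.toAdd : V) + ρ (w.2.toAdd : V) * p.2, p.1))
  refine ⟨γ, G, ⟨⟨1⟩, fun h w b => mul_eq_right.1 b, g1, g2, g6, fun w w' y b c => ?_,
    fun w => ?_, g4, g5, fun h => ?_, fun w => ?_, ?_, ?_⟩⟩
  · obtain ⟨t, r, hr, b', rfl⟩ := (g3 w y).1 b
    obtain ⟨t', r', hr', c', f⟩ := (g3 w' _).1 c
    have k := congrArg slope2 f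
    rw [pt_slope e _ _ hr, pt_slope e _ _ hr'] at k
    obtain rfl := e.injective k
    refine Prod.ext ?_ (Multiplicative.toAdd.injective (Subtype.ext
      ((bp_pos d ((hp _).2 w.2.toAdd.2) b').symm.trans (bp_pos d ((hp _).2 w'.2.toAdd.2) c'))))
    by_contra n
    have m := qd_ne e n t' hr
    rw [← f, qd_eq e _ _ hr'] at m
    exact (pow_pos hr' 2).ne' m
  · rw [sec]
    exact (isPreconnected_Ioi.prod isPreconnected_Ioo).image _ (cs w).continuousOn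
  · exact (hx h 0).trans (by rw [mul_zero]; rfl)
  · rw [sec]
    refine image_closure_subset_closure_image (cs w) ⟨(0, 0), ?_, pt_zero e _ _⟩
    rw [closure_prod_eq, closure_Ioi]
    exact ⟨le_refl (0 : ℝ), subset_closure ⟨by norm_num, by norm_num⟩⟩
  · refine (pt_dense e hD).mono ?_
    rintro _ ⟨q, t, r, ht, hr, rfl⟩
    refine ⟨(q, Multiplicative.ofAdd ⟨_, (hp _).1 ht.1⟩), (g3 _ _).2 ⟨t, r, hr, ?_, rfl⟩⟩
    rw [toAdd_ofAdd, bp_eq]
    linarith [ht.2]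
  · intro B l l' w0 k k' o _
    have hl := lab2_of_open e d hp γ B l fun w t r hr b => k w _ ((g3 _ _).2 ⟨t, r, hr, b, rfl⟩)
    have hl' := lab2_of_open e d hp γ B⁻¹ l' fun w t r hr b =>
      k' w _ ((g3 _ _).2 ⟨t, r, hr, b, rfl⟩)
    exact lab2_glue hp hl hD hx hy (fun q w w' => Prod.ext
      (lab2_sign hp hγ hl hD s2 q w.toAdd w'.toAdd)
      (lab2_shift hp hγ hL hl hl' hD s2 hN.neg s7 hR q w.toAdd w'.toAdd)) w0 o

theorem realize_comm (hL : S_LINE2) (hT : S_NET2) (hS : S_SUB2) (hA : S_AXE) (hC : S_CYC)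
    (hO : S_ROT) (hF : S_TF) (hK : S_KLEIN) (H : Type) [CommGroup H] (hc : Countable H)
    (h : ∀ K : Subgroup H, Finite K → IsCyclic K ∨ IsKleinFour K) :
    InClass (EuclideanSpace ℝ (Fin 2)) H := by
  by_cases n : ∀ K : Subgroup H, Finite K → IsCyclic K
  · obtain ⟨φ, hφ⟩ := hC H n
    obtain ⟨o, ho⟩ := hO
    exact realize_blocks H hc 1 0 ⟨(MonoidHom.pi fun _ => o.comp φ).prod 1, fun a b k =>
      hφ (ho (congrFun (congrArg Prod.fst k) 0))⟩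
  · obtain ⟨s, hs⟩ := hK H h (by simpa only [not_forall, exists_prop] using n)
    obtain ⟨a, am, ha⟩ := hF H
    obtain ⟨V, _, hV, h1, hD⟩ := hS H a
    obtain ⟨γ, G, S⟩ := sys_saddle hL hT hA V h1 hD
    let φ : H →* Multiplicative V := MonoidHom.mk' (fun g => Multiplicative.ofAdd ⟨a g, hV g⟩)
      fun g g' => congrArg Multiplicative.ofAdd (Subtype.ext (am g g'))
    have r := S.realize hc (s.prod φ) ((injective_iff_map_eq_one _).2 fun g k =>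
      hs g (ha g 0 ((congrArg (fun z => ((z.2.toAdd : V) : ℝ)) k).trans Rat.cast_zero.symm))
        (congrArg Prod.fst k))
    exact inClass_congr (ContinuousLinearEquiv.ofFinrankEq (𝕜 := ℝ) (by simp)).toHomeomorph r

end Pool.Agent.P.MP_af0fcb_gt.CG
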