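import Pool.Agent.P.MP_af0fcb_gt.CG.SD
import Pool.Agent.P.MP_af0fcb_gt.CG.Defs3

/-! Commutative groups whose finite subgroups are linear. -/

namespace Pool.Agent.P.MP_af0fcb_gt.CG

open Set Filter Topology SW

theorem uniform_blocks (hD : S_DIAG) (n : ℕ) (H : Type) [CommGroup H]
    (h : ∀ K : Subgroup H, Finite K →
      ∃ φ : K →* Matrix.orthogonalGroup (Fin n) ℝ, Function.Injective φ) :
    ∃ k j : ℕ, 2 * k + j = n ∧ ∀ K : Subgroup H, Finite K →
      ∃ ψ : K →* (Fin k → Circle) × (Fin j → ℤˣ), Function.Injective ψ := by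
  by_contra c
  have a : ∀ k : Fin (n + 1), ∃ K : Subgroup H, Finite K ∧ ∀ j, 2 * (k : ℕ) + j = n →
      ¬∃ ψ : K →* (Fin k → Circle) × (Fin j → ℤˣ), Function.Injective ψ := fun k => by
    by_cases b : 2 * (k : ℕ) ≤ n
    · by_contra m
      refine c ⟨k, n - 2 * k, by omega, fun K f => ?_⟩
      by_contra z
      refine m ⟨K, f, fun j hj => ?_⟩
      obtain rfl : j = n - 2 * k := by omega
      exact z
    · exact ⟨⊥, inferInstance, fun j hj => by omega⟩
  choose K f hK using a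
  let p : (∀ k, K k) →* H := MonoidHom.mk' (fun x => ∏ k, (x k : H)) fun x y => by
    simp [Finset.prod_mul_distrib]
  have fp : Finite p.range := Finite.of_surjective _ p.rangeRestrict_surjective
  obtain ⟨φ, hφ⟩ := h _ fp
  obtain ⟨k, j, e, ψ, hψ⟩ := hD n _ φ hφ
  have le : ∀ i, K i ≤ p.range := fun i x hx => by
    refine ⟨Pi.mulSingle i ⟨x, hx⟩, ?_⟩
    change ∏ b, ((Pi.mulSingle i (⟨x, hx⟩ : K i) : ∀ b, K b) b : H) = x
    rw [Finset.prod_eq_single i (fun b _ hb => by rw [Pi.mulSingle_eq_of_ne hb]; rfl) (by simp),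
      Pi.mulSingle_eq_same]
  exact hK ⟨k, by omega⟩ j e ⟨ψ.comp (Subgroup.inclusion (le _)),
    hψ.comp (Subgroup.inclusion_injective (le _))⟩

theorem realize_abelian (hL : S_LINE2) (hT : S_NET2) (hS : S_SUB2) (hA : S_AXE) (hO : S_ROT)
    (hF : S_TF) (hD : S_DIAG) (hC : S_CPT) (hE : S_EXT) (hG : S_GEN) (n : ℕ) (hn : 2 ≤ n)
    (H : Type) [CommGroup H] (hc : Countable H) (h : ∀ K : Subgroup H, Finite K →
      ∃ φ : K →* Matrix.orthogonalGroup (Fin n) ℝ, Function.Injective φ) :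
    InClass (EuclideanSpace ℝ (Fin n)) H := by
  obtain ⟨k, j, rfl, hb⟩ := uniform_blocks hD n H h
  obtain ⟨ψ, hψ⟩ := hC k j H hb
  choose u hu using fun i : Fin k =>
    (hE H).1 ((Pi.evalMonoidHom _ i).comp ((MonoidHom.fst _ _).comp ψ))
  choose s hs using fun i : Fin j =>
    (hE H).2 ((Pi.evalMonoidHom _ i).comp ((MonoidHom.snd _ _).comp ψ))
  have key : ∀ g, IsOfFinOrder g → (∀ i, u i g = 1) → (∀ i, s i g = 1) → g = 1 :=
    fun g t a b => congrArg Subtype.val ((injective_iff_map_eq_one ψ).1 hψ ⟨g, t⟩ (Prod.ext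
      (funext fun i => (hu i ⟨g, t⟩).symm.trans (a i))
      (funext fun i => (hs i ⟨g, t⟩).symm.trans (b i))))
  rcases k with _ | k
  · obtain ⟨m, rfl⟩ : ∃ m, j = m + 2 := ⟨j - 2, by omega⟩
    obtain ⟨a, am, ha⟩ := hF H
    obtain ⟨V, _, hV, h1, hd⟩ := hS H a
    obtain ⟨γ, G, S⟩ := sys_saddle hL hT hA V h1 hd
    obtain ⟨γ0, G0, S0⟩ := sys_line
    obtain ⟨γ2, G2, S2⟩ := Sys.pi fun _ : Fin m => S0
    obtain ⟨_, β, F, S3⟩ := S.prod S2
    let φ : H →* Multiplicative V := MonoidHom.mk' (fun g => Multiplicative.ofAdd ⟨a g, hV g⟩)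
      fun g g' => congrArg Multiplicative.ofAdd (Subtype.ext (am g g'))
    have r := S3.realize hc ((((s 0).prod (s 1)).prod φ).prod
      (MonoidHom.pi fun i : Fin m => s i.succ.succ)) ((injective_iff_map_eq_one _).2 fun g e =>
        key g (ha g 0 ((congrArg (fun z => ((z.1.2.toAdd : V) : ℝ)) e).trans Rat.cast_zero.symm))
          (fun i => i.elim0) (Fin.cases (congrArg (fun z => z.1.1.1) e)
            (Fin.cases (congrArg (fun z => z.1.1.2) e) fun i => congrArg (fun z => z.2 i) e)))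
    refine inClass_congr (ContinuousLinearEquiv.ofFinrankEq (𝕜 := ℝ) ?_).toHomeomorph r
    simp [add_comm]
  · obtain ⟨o, ho⟩ := hO
    choose v h1 h2 using fun i => hG H (u i)
    refine realize_blocks H hc _ j ⟨(MonoidHom.pi fun i => o.comp (v i)).prod (MonoidHom.pi s),
      (injective_iff_map_eq_one _).2 fun g e => ?_⟩
    have z : ∀ i, v i g = 1 := fun i => ho ((congrArg (fun z => z.1 i) e).trans (map_one o).symm)
    have t := h2 0 g (z 0)
    exact key g t (fun i => (h1 i g t).symm.trans (z i)) fun i => congrArg (fun z => z.2 i) e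

end Pool.Agent.P.MP_af0fcb_gt.CG
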