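import Pool.Agent.P.MP_af0fcb_gt.CG.Defs2

/-! Embedding torsion-free quotients in the line, and the circle in the plane isometries. -/

namespace Pool.Agent.P.MP_af0fcb_gt.CG

theorem p_TF : S_TF := by
  intro H _ _
  let j := TensorProduct.mk ℤ ℚ (Additive H) 1
  have h0 : Countable (Additive H) := inferInstanceAs (Countable H)
  have hc : Countable (TensorProduct ℤ ℚ (Additive H)) :=
    (IsLocalizedModule.mk'_surjective (nonZeroDivisors ℤ) j).countable
  have hr : Module.rank ℚ (ℚ × TensorProduct ℤ ℚ (Additive H)) < Module.rank ℚ ℝ := by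
    rw [Real.rank_rat_real]
    exact ((rank_le_card _ _).trans Cardinal.mk_le_aleph0).trans_lt Cardinal.aleph0_lt_continuum
  obtain ⟨f, hf⟩ := Module.Free.exists_linearMap_injective_of_rank_lt hr
  have h1 : f (1, 0) ≠ 0 := by
    intro h
    have := hf (h.trans (map_zero f).symm)
    simp at this
  refine ⟨fun h => f (0, j (Additive.ofMul h)) / f (1, 0), fun g h => ?_, fun h q hq => ?_⟩
  · rw [← add_div, ← map_add, Prod.mk_add_mk, add_zero, ← map_add, ← ofMul_mul]
  · have h2 : f (0, j (Additive.ofMul h)) = f (q • (1, 0)) := by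
      rw [map_smul, (div_eq_iff h1).1 hq, Rat.smul_def]
    have h3 : j (Additive.ofMul h) = 0 := by
      simpa using congrArg Prod.snd (hf h2)
    obtain ⟨s, hs⟩ := (IsLocalizedModule.eq_zero_iff (nonZeroDivisors ℤ) j).1 h3
    exact isOfFinOrder_iff_zpow_eq_one.2 ⟨s.1, nonZeroDivisors.ne_zero s.2, hs⟩

theorem p_ROT : S_ROT := by
  let e : ℂ ≃ₗᵢ[ℝ] EuclideanSpace ℝ (Fin 2) := Complex.orthonormalBasisOneI.repr
  refine ⟨MonoidHom.mk' (fun z => (e.symm.trans (rotation z)).trans e) fun z w => ?_,
    fun z w h => rotation_injective ?_⟩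
  · ext1 v
    simp
  · ext1 v
    have := congrArg (fun T => e.symm (T (e v))) h
    simpa using this

end Pool.Agent.P.MP_af0fcb_gt.CG
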