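import Pool.Agent.P.MP_af0fcb_gt.CG.Defs

/-! The collapse, the position and the lifted isometries on the blown-up line. -/

namespace Pool.Agent.P.MP_af0fcb_gt.CG

open Set Filter Topology

theorem coe_iff (x y : ℝ) : (x : UnitAddCircle) = y ↔ ∃ n : ℤ, x = y + n := by
  rw [← sub_eq_zero, ← AddCircle.coe_sub, AddCircle.coe_eq_zero_iff]
  refine exists_congr fun n => ?_
  rw [zsmul_eq_mul, mul_one]
  constructor <;> intro h <;> linarith

theorem coe_int (x : ℝ) (n : ℤ) : ((x + n : ℝ) : UnitAddCircle) = x := (coe_iff _ _).2 ⟨n, rfl⟩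

theorem sgn_int {e : ℝ} (he : e = 1 ∨ e = -1) (n : ℤ) : ∃ m : ℤ, e * n = m := by
  rcases he with rfl | rfl
  · exact ⟨n, one_mul _⟩
  · exact ⟨-n, by push_cast; ring⟩

theorem sgn_abs {e : ℝ} (he : e = 1 ∨ e = -1) (y : ℝ) : |e * y| = |y| := by
  rcases he with rfl | rfl <;> simp

theorem sgn_sq {e : ℝ} (he : e = 1 ∨ e = -1) : e * e = 1 := by
  rcases he with rfl | rfl <;> simp

theorem coe_aff {e : ℝ} (he : e = 1 ∨ e = -1) (a : ℝ) {x y : ℝ} (h : (x : UnitAddCircle) = y) :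
    ((e * x + a : ℝ) : UnitAddCircle) = (e * y + a : ℝ) := by
  obtain ⟨n, rfl⟩ := (coe_iff _ _).1 h
  obtain ⟨m, hm⟩ := sgn_int he n
  exact (coe_iff _ _).2 ⟨m, by rw [← hm]; ring⟩

/-- A real lift of a point of the circle. -/
noncomputable def lift (w : UnitAddCircle) : ℝ := Quotient.out w

theorem coe_lift (w : UnitAddCircle) : (lift w : UnitAddCircle) = w := Quotient.out_eq w

namespace Den

variable {W : Set UnitAddCircle} {M ρ : ℝ → ℝ} (d : Den W M ρ)

/-- The collapse. -/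
noncomputable def P (u : ℝ) : ℝ := (d.cov u).choose

theorem P_spec (u : ℝ) : |u - M (d.P u)| ≤ ρ (d.P u) := (d.cov u).choose_spec

theorem P_eq {u x : ℝ} (h : |u - M x| ≤ ρ x) : d.P u = x := by
  have h1 := abs_le.1 (d.P_spec u)
  have h2 := abs_le.1 h
  rcases lt_trichotomy (d.P u) x with a | a | a
  · linarith [d.gap _ _ a, h1.1, h1.2, h2.1, h2.2]
  · exact a
  · linarith [d.gap _ _ a, h1.1, h1.2, h2.1, h2.2]

theorem P_mono : Monotone d.P := fun u v h => by
  by_contra a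
  have h1 := abs_le.1 (d.P_spec u)
  have h2 := abs_le.1 (d.P_spec v)
  linarith [d.gap _ _ (not_le.1 a), h1.1, h1.2, h2.1, h2.2]

theorem P_pt (x : ℝ) {y : ℝ} (hy : |y| ≤ 1) : d.P (M x + ρ x * y) = x := d.P_eq (by
  rw [add_sub_cancel_left, abs_mul, abs_of_nonneg (d.nn x)]
  exact mul_le_of_le_one_right (d.nn x) hy)

theorem P_M (x : ℝ) : d.P (M x) = x := d.P_eq (by simpa using d.nn x)

theorem P_cont : Continuous d.P := d.P_mono.continuous_of_surjective fun x => ⟨_, d.P_M x⟩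

theorem P_int (u : ℝ) (n : ℤ) : d.P (u + n) = d.P u + n := d.P_eq (by
  rw [d.perM, d.perR, add_sub_add_right_eq_sub]
  exact d.P_spec u)

include d in
theorem half (x : ℝ) : ρ x ≤ 1 / 2 := by
  have h := d.gap x (x + (1 : ℤ)) (by simp)
  rw [d.perM, d.perR] at h
  push_cast at h
  linarith

/-- The position inside a blown-up interval. -/
noncomputable def Y (u : ℝ) : ℝ := (u - M (d.P u)) / ρ (d.P u)

theorem Y_abs (u : ℝ) : |d.Y u| ≤ 1 := by
  rw [Y, abs_div, abs_of_nonneg (d.nn _)]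
  exact div_le_one_of_le₀ (d.P_spec u) (d.nn _)

theorem Y_zero {u : ℝ} (h : ¬0 < ρ (d.P u)) : d.Y u = 0 := by
  rw [Y, le_antisymm (not_lt.1 h) (d.nn _), div_zero]

theorem decomp (u : ℝ) : M (d.P u) + ρ (d.P u) * d.Y u = u := by
  rcases (d.nn (d.P u)).eq_or_lt with h | h
  · have a := d.P_spec u
    rw [← h, abs_nonpos_iff] at a
    rw [← h]
    linarith
  · rw [Y, mul_div_cancel₀ _ h.ne']
    ring

theorem Y_pt {x y : ℝ} (hx : 0 < ρ x) (hy : |y| ≤ 1) : d.Y (M x + ρ x * y) = y := by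
  rw [Y, d.P_pt x hy, add_sub_cancel_left, mul_div_cancel_left₀ _ hx.ne']

theorem Y_int (u : ℝ) (n : ℤ) : d.Y (u + n) = d.Y u := by
  rw [Y, Y, d.P_int, d.perM, d.perR, add_sub_add_right_eq_sub]

/-- The lift of `x ↦ e x + a` to the blown-up line. -/
noncomputable def T (e a u : ℝ) : ℝ :=
  M (e * d.P u + a) + ρ (e * d.P u + a) * (e * d.Y u)

variable {e a : ℝ}

theorem P_T (he : e = 1 ∨ e = -1) (a u : ℝ) : d.P (d.T e a u) = e * d.P u + a :=
  d.P_pt _ (by rw [sgn_abs he]; exact d.Y_abs u)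

theorem Y_T (he : e = 1 ∨ e = -1) (hi : ∀ x, 0 < ρ (e * x + a) ↔ 0 < ρ x) (u : ℝ) :
    d.Y (d.T e a u) = e * d.Y u := by
  by_cases h : 0 < ρ (d.P u)
  · exact d.Y_pt ((hi _).2 h) (by rw [sgn_abs he]; exact d.Y_abs u)
  · rw [d.Y_zero h, d.Y_zero (by rwa [d.P_T he, hi]), mul_zero]

theorem T_T (he : e = 1 ∨ e = -1) (hi : ∀ x, 0 < ρ (e * x + a) ↔ 0 < ρ x) (e' a' u : ℝ) :
    d.T e' a' (d.T e a u) = d.T (e' * e) (e' * a + a') u := by
  have h : e' * (e * d.P u + a) + a' = e' * e * d.P u + (e' * a + a') := by ring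
  rw [T, d.P_T he, d.Y_T he hi, h, T, mul_assoc e' e (d.Y u)]

theorem T_one (u : ℝ) : d.T 1 0 u = u := by
  rw [T, one_mul, one_mul, add_zero, d.decomp]

theorem T_int (e a u : ℝ) (n : ℤ) : d.T e (a + n) u = d.T e a u + n := by
  rw [T, T, ← add_assoc, d.perM, d.perR]
  ring

theorem T_per (he : e = 1 ∨ e = -1) (a u : ℝ) (n : ℤ) :
    ∃ m : ℤ, d.T e a (u + n) = d.T e a u + m := by
  obtain ⟨m, hm⟩ := sgn_int he n
  refine ⟨m, ?_⟩
  have h : e * (d.P u + n) + a = e * d.P u + (a + m) := by rw [← hm]; ring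
  rw [← d.T_int, T, T, d.P_int, d.Y_int, h]

theorem T_pt (e a : ℝ) {x y : ℝ} (hx : 0 < ρ x) (hy : |y| ≤ 1) :
    d.T e a (M x + ρ x * y) = M (e * x + a) + ρ (e * x + a) * (e * y) := by
  rw [T, d.P_pt x hy, d.Y_pt hx hy]

theorem T_mono (he : e = 1 ∨ e = -1) (a : ℝ) : Monotone fun u => e * d.T e a u := by
  intro u v h
  have bd : ∀ x y, |y| ≤ 1 → -ρ x ≤ ρ x * y ∧ ρ x * y ≤ ρ x := fun x y hy => by
    have := abs_le.1 hy
    constructor <;> nlinarith [d.nn x, this.1, this.2]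
  rcases (d.P_mono h).eq_or_lt with b | b
  · have c : d.Y u ≤ d.Y v := by
      rw [Y, Y, b]
      exact div_le_div_of_nonneg_right (by linarith) (d.nn _)
    have := mul_le_mul_of_nonneg_left c (d.nn (e * d.P v + a))
    simp only [T, b]
    rcases he with rfl | rfl <;> linarith
  · have c1 := bd (e * d.P u + a) _ (d.Y_abs u)
    have c2 := bd (e * d.P v + a) _ (d.Y_abs v)
    simp only [T]
    rcases he with rfl | rfl
    · have := d.gap (1 * d.P u + a) (1 * d.P v + a) (by linarith)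
      linarith [c1.1, c1.2, c2.1, c2.2]
    · have := d.gap (-1 * d.P v + a) (-1 * d.P u + a) (by linarith)
      linarith [c1.1, c1.2, c2.1, c2.2]

theorem T_cont (he : e = 1 ∨ e = -1) (hi : ∀ x, 0 < ρ (e * x + a) ↔ 0 < ρ x) :
    Continuous (d.T e a) := by
  have q := sgn_sq he
  have hi' : ∀ x, 0 < ρ (e * x + -(e * a)) ↔ 0 < ρ x := fun x => by
    rw [← hi, show e * (e * x + -(e * a)) + a = e * e * x - e * e * a + a by ring, q]
    simp
  have h : Continuous fun u => e * d.T e a u :=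
    (d.T_mono he a).continuous_of_surjective fun v => ⟨d.T e (-(e * a)) (e * v), by
      simp only []
      rw [d.T_T he hi', q, show e * -(e * a) + a = -(e * e * a) + a by ring, q, one_mul,
        neg_add_cancel, d.T_one, ← mul_assoc, q, one_mul]⟩
  refine (continuous_const.mul h (f := fun _ => e)).congr fun u => ?_
  simp only [Pi.mul_apply]
  rw [← mul_assoc, q, one_mul]

theorem dense_gaps (hW : ∀ q η : ℝ, 0 < η → ∃ q' : ℝ, |q' - q| < η ∧ (q' : UnitAddCircle) ∈ W) :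
    Dense {u | 0 < ρ (d.P u) ∧ |d.Y u| < 1} := by
  refine dense_of_exists_between fun u v h => ?_
  rcases (d.P_mono h.le).eq_or_lt with b | b
  · have h1 := abs_le.1 (d.P_spec u)
    have h2 := abs_le.1 (d.P_spec v)
    rw [← b] at h2
    have p : 0 < ρ (d.P u) := by linarith [h1.1, h2.2]
    have c : |(u + v) / 2 - M (d.P u)| < ρ (d.P u) :=
      abs_lt.2 ⟨by linarith [h1.1, h2.1], by linarith [h1.2, h2.2]⟩
    have c' := d.P_eq c.le
    refine ⟨(u + v) / 2, ⟨by rwa [c'], ?_⟩, by linarith, by linarith⟩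
    rw [Y, c', abs_div, abs_of_pos p]
    exact (div_lt_one p).2 c
  · obtain ⟨q, h1, h2⟩ := hW ((d.P u + d.P v) / 2) ((d.P v - d.P u) / 2) (by linarith)
    have h3 := abs_lt.1 h1
    have p := (d.pos q).2 h2
    have g1 := d.gap (d.P u) q (by linarith [h3.1])
    have g2 := d.gap q (d.P v) (by linarith [h3.2])
    have h4 := abs_le.1 (d.P_spec u)
    have h5 := abs_le.1 (d.P_spec v)
    refine ⟨M q, ⟨by rwa [d.P_M], ?_⟩, by linarith [h4.2], by linarith [h5.1]⟩
    rw [Y, d.P_M]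
    simp

/-- The bump of the arc over `w`. -/
noncomputable def bump (_ : Den W M ρ) (w : UnitAddCircle) (u : ℝ) : ℝ :=
  max 0 (1 - ‖((u - M (lift w) : ℝ) : UnitAddCircle)‖ / ρ (lift w))

theorem bump_cont (w : UnitAddCircle) : Continuous (d.bump w) := by
  have h : Continuous fun u : ℝ => ((u - M (lift w) : ℝ) : UnitAddCircle) :=
    (AddCircle.continuous_mk' 1).comp (continuous_id.sub continuous_const)
  exact continuous_const.max (continuous_const.sub (h.norm.div_const _))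

theorem bump_int (w : UnitAddCircle) (u : ℝ) (n : ℤ) : d.bump w (u + n) = d.bump w u := by
  rw [bump, bump, add_sub_right_comm, coe_int]

theorem bump_nn (w : UnitAddCircle) (u : ℝ) : 0 ≤ d.bump w u := le_max_left _ _

theorem bump_eq {w : UnitAddCircle} (hw : w ∈ W) {u : ℝ} (h : (d.P u : UnitAddCircle) = w) :
    d.bump w u = 1 - |d.Y u| := by
  obtain ⟨n, hn⟩ := (coe_iff _ _).1 (h.trans (coe_lift w).symm)
  have p : 0 < ρ (lift w) := (d.pos _).2 (by rwa [coe_lift])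
  have a := d.decomp u
  rw [hn, d.perM, d.perR] at a
  have b : u - M (lift w) = ρ (lift w) * d.Y u + n := by linarith
  have c : |ρ (lift w) * d.Y u| ≤ |(1 : ℝ)| / 2 := by
    rw [abs_mul, abs_of_pos p, abs_one]
    exact (mul_le_of_le_one_right p.le (d.Y_abs u)).trans (d.half _)
  rw [bump, b, coe_int, (AddCircle.norm_coe_eq_abs_iff 1 one_ne_zero).2 c, abs_mul, abs_of_pos p,
    mul_div_cancel_left₀ _ p.ne', max_eq_right (sub_nonneg.2 (d.Y_abs u))]

theorem bump_pos {w : UnitAddCircle} (hw : w ∈ W) {u : ℝ} (h : 0 < d.bump w u) :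
    (d.P u : UnitAddCircle) = w := by
  have p : 0 < ρ (lift w) := (d.pos _).2 (by rwa [coe_lift])
  rw [bump, lt_max_iff, or_iff_right (lt_irrefl _), sub_pos, div_lt_one p,
    UnitAddCircle.norm_eq] at h
  have a : d.P (u + (-round (u - M (lift w)) : ℤ)) = lift w := d.P_eq (by
    refine le_of_eq_of_le ?_ h.le
    push_cast
    ring_nf)
  rw [d.P_int] at a
  rw [← coe_lift w, ← a, coe_int]

theorem bump_zero {w : UnitAddCircle} {u : ℝ} (h : ¬0 < d.bump w u) : d.bump w u = 0 :=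
  le_antisymm (not_lt.1 h) (d.bump_nn w u)

theorem bump_le {w : UnitAddCircle} (hw : w ∈ W) (u : ℝ) : d.bump w u ≤ 1 := by
  by_cases h : 0 < d.bump w u
  · rw [d.bump_eq hw (d.bump_pos hw h)]
    linarith [abs_nonneg (d.Y u)]
  · rw [d.bump_zero h]
    exact zero_le_one

end Den

end Pool.Agent.P.MP_af0fcb_gt.CG
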